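import Pool.Agent.IST.Reg
import Pool.Agent.LP.Basic
import Pool.Agent.IST.ChoiceA

/-!
# Internal dependent choice
-/

set_option synthInstance.maxSize 100000

namespace Pool.Agent.IST

open Pool.Agent.BVM

section

variable {M : Type} [SetModel M] {Γ : Type} [IsCtx Γ M]

/-- iteration of a function `c` on pairs `(n, x)` from `x₀` -/
noncomputable def dcF (c x₀ n : M) : M := by
  classical
  exact erec (fun n f => if n = ∅ then x₀ else ap c (op (bigU n) (ap f (bigU n)))) n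

instance dcF.dff {f g h : Γ → M} [Dff f] [Dff g] [Dff h] :
    Dff fun γ => dcF (f γ) (g γ) (h γ) := by
  classical
  unfold dcF
  exact erec.dff (G := fun (γ : Γ) n k =>
    if n = ∅ then g γ else ap (f γ) (op (bigU n) (ap k (bigU n))))

theorem bigU_sc {n : M} (h : IsOrd n) : bigU (sc n) = n := by
  apply ext
  intro z
  rw [mem_bigU]
  constructor
  · rintro ⟨y, hy, hz⟩
    rcases mem_sc.1 hy with h1 | rfl
    · exact h.1 y h1 z hz
    · exact hz
  · exact fun hz => ⟨n, self_mem_sc n, hz⟩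

theorem dcF_eq (c x₀ n : M) : dcF c x₀ n = by
    classical
    exact if n = ∅ then x₀ else ap c (op (bigU n) (ap (lam n fun y => dcF c x₀ y) (bigU n))) := by
  classical
  have hG : Dff fun γ : (E0 M × M) × M => if γ.1.2 = ∅ then x₀ else
      ap c (op (bigU γ.1.2) (ap γ.2 (bigU γ.1.2))) := inferInstance
  exact erec_eq (G := fun n f => if n = ∅ then x₀ else ap c (op (bigU n) (ap f (bigU n)))) n

theorem dcF_zero (c x₀ : M) : dcF c x₀ ∅ = x₀ := by
  rw [dcF_eq, if_pos rfl]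

theorem sc_ne_empty (n : M) : sc n ≠ ∅ := fun h => notMem_empty n (h ▸ self_mem_sc n)

theorem dcF_sc (c x₀ : M) {n : M} (h : IsOrd n) :
    dcF c x₀ (sc n) = ap c (op n (dcF c x₀ n)) := by
  rw [dcF_eq, if_neg (sc_ne_empty n), bigU_sc h, ap_lam (self_mem_sc n)]

/-- dependent choice: a sequence `x₀, x₁, …` in `S` with `R n xₙ xₙ₊₁` -/
theorem exists_dc (S x₀ : M) (hx₀ : x₀ ∈ S) (R : M → M → M → Prop)
    [hR : Dfp fun γ : ((E0 M × M) × M) × M => R γ.1.1.2 γ.1.2 γ.2]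
    (h : ∀ n ∈ (om : M), ∀ x ∈ S, ∃ y ∈ S, R n x y) :
    ∃ f : M, Maps f om S ∧ ap f ∅ = x₀ ∧ ∀ n ∈ (om : M), R n (ap f n) (ap f (sc n)) := by
  have hR' : Dfp fun γ : (E0 M × M) × M => R (p1 γ.1.2) (p2 γ.1.2) γ.2 := by
    have : ∀ {Δ : Type} [IsCtx Δ M] {a b c : Δ → M} [Dff a] [Dff b] [Dff c],
        Dfp fun δ => R (a δ) (b δ) (c δ) := fun {_ _ _ _ _ _ _ _} => Dfp.use3 hR
    infer_instance
  obtain ⟨c, hc, hc'⟩ := exists_choice_rel (prod om S) S (fun t y => R (p1 t) (p2 t) y)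
    fun t ht => by
      obtain ⟨n, hn, x, hx, rfl⟩ := mem_prod.1 ht
      rw [p1_op, p2_op]
      exact h n hn x hx
  have hS : ∀ n ∈ (om : M), dcF c x₀ n ∈ S := by
    refine nat_ind (fun n => dcF c x₀ n ∈ S) ?_ fun n hn ih => ?_
    · rw [dcF_zero]
      exact hx₀
    · rw [dcF_sc c x₀ (isOrd_om.mem hn)]
      exact hc.ap_mem (op_mem_prod.2 ⟨hn, ih⟩)
  refine ⟨lam om fun n => dcF c x₀ n, maps_lam hS, ?_, fun n hn => ?_⟩
  · rw [ap_lam (mem_om.2 isNat_empty), dcF_zero]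
  · rw [ap_lam hn, ap_lam (mem_om.2 (mem_om.1 hn).sc), dcF_sc c x₀ (isOrd_om.mem hn)]
    have := hc' _ (op_mem_prod.2 ⟨hn, hS n hn⟩)
    rwa [p1_op, p2_op] at this

end

end Pool.Agent.IST
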