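import Pool.Agent.UG.Clo
import Pool.Agent.UG.DC
import Pool.Agent.IST.Nfu

/-!
# Complete algebras of subsets of a cardinal, uniform complete ultrafilters on them
-/

set_option synthInstance.maxSize 100000

namespace Pool.Agent.IST

open Pool.Agent.BVM

section

variable {M : Type} [SetModel M] {Γ : Type} [IsCtx Γ M]

/-- `A` is a `κ`-complete subalgebra of the power set of `κ` -/
def IsAlg (κ A : M) : Prop :=
  A ⊆ pw κ ∧ (∀ X ∈ A, κ \ X ∈ A) ∧ ∀ S, S ⊆ A → card S ∈ κ → bigU S ∈ A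

instance IsAlg.dfp {f g : Γ → M} [Dff f] [Dff g] : Dfp fun γ => IsAlg (f γ) (g γ) := by
  unfold IsAlg; infer_instance

/-- `W` is a uniform `κ`-complete ultrafilter on the algebra `A` -/
def UltOn (κ A W : M) : Prop :=
  W ⊆ A ∧ (∀ X ∈ A, κ \ X ∈ W ↔ X ∉ W) ∧ (∀ X ∈ W, ∀ Y ∈ A, X ⊆ Y → Y ∈ W) ∧
    (∀ S, S ⊆ W → S ≠ ∅ → card S ∈ κ → bigI S ∈ W) ∧ ∀ X ∈ W, card X = κ

instance UltOn.dfp {f g h : Γ → M} [Dff f] [Dff g] [Dff h] :
    Dfp fun γ => UltOn (f γ) (g γ) (h γ) := by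
  unfold UltOn; infer_instance

/-! ### algebras -/

namespace IsAlg

variable {κ A : M} (h : IsAlg κ A)

include h

theorem sub {X : M} (hX : X ∈ A) : X ⊆ κ := mem_pw.1 (h.1 X hX)

theorem compl {φ : M → Prop} [hφ : Dfp fun γ : E0 M × M => φ γ.2] (h1 : Aa A κ φ) :
    Aa A κ fun x => ¬ φ x := by
  have e : (sep κ fun x => ¬ φ x) = κ \ sep κ φ := by
    apply ext; intro z
    rw [mem_sep, mem_diff, mem_sep]
    tauto
  unfold Aa
  rw [e]
  exact h.2.1 _ h1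

theorem not_iff {φ : M → Prop} [hφ : Dfp fun γ : E0 M × M => φ γ.2] :
    (Aa A κ fun x => ¬ φ x) ↔ Aa A κ φ := by
  refine ⟨fun h1 => ?_, h.compl⟩
  have h2 := h.compl h1
  unfold Aa at h2 ⊢
  convert h2 using 2
  funext x
  simp

/-- small unions -/
theorem bex {a : M} {χ : M → M → Prop} [hχ : Dfp fun γ : (E0 M × M) × M => χ γ.1.2 γ.2]
    (ha : card a ∈ κ) (hκ : IsOrd κ) (h1 : ∀ z ∈ a, Aa A κ (χ z)) :
    Aa A κ fun x => ∃ z ∈ a, χ z x := by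
  have hd : Dfp fun γ : (E0 M × M) × M => ∃ z ∈ a, χ z γ.2 := by
    have : Dfp fun γ : ((E0 M × M) × M) × M => χ γ.2 γ.1.2 :=
      Dfp.lift2 (Γ := E0 M) (P := fun _ => χ) (c := fun _ : ((E0 M × M) × M) × M => (⟨⟩ : E0 M))
    infer_instance
  have hd1 : Dfp fun γ : E0 M × M => ∃ z ∈ a, χ z γ.2 :=
    dfp_slice (Γ := E0 M × M) (P := fun _ x => ∃ z ∈ a, χ z x) (⟨⟩, a)
  have e : (sep κ fun x => ∃ z ∈ a, χ z x) = bigU (img a fun z => sep κ (χ z)) := by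
    apply ext; intro x
    rw [mem_sep, mem_bigU]
    constructor
    · rintro ⟨hx, z, hz, h2⟩
      have := dfp_left (φ := χ) z
      exact ⟨sep κ (χ z), mem_img.2 ⟨z, hz, rfl⟩, mem_sep.2 ⟨hx, h2⟩⟩
    · rintro ⟨y, hy, hx⟩
      obtain ⟨z, hz, rfl⟩ := mem_img.1 hy
      have := dfp_left (φ := χ) z
      exact ⟨(mem_sep.1 hx).1, z, hz, (mem_sep.1 hx).2⟩
  unfold Aa
  rw [e]
  refine h.2.2 _ (fun y hy => ?_) ?_
  · obtain ⟨z, hz, rfl⟩ := mem_img.1 hy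
    exact h1 z hz
  · exact (isOrd_card _).mem_of_sub_of_mem hκ (card_sub_iff.2 (leq_img _ _)) ha

/-- small intersections -/
theorem ball {a : M} {χ : M → M → Prop} [hχ : Dfp fun γ : (E0 M × M) × M => χ γ.1.2 γ.2]
    (ha : card a ∈ κ) (hκ : IsOrd κ) (h1 : ∀ z ∈ a, Aa A κ (χ z)) :
    Aa A κ fun x => ∀ z ∈ a, χ z x := by
  have hd1 : Dfp fun γ : E0 M × M => ∃ z ∈ a, ¬ χ z γ.2 := by
    have : Dfp fun γ : (E0 M × M) × M => χ γ.2 γ.1.2 :=
      Dfp.lift2 (Γ := E0 M) (P := fun _ => χ) (c := fun _ : (E0 M × M) × M => (⟨⟩ : E0 M))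
    infer_instance
  have h2 : Aa A κ fun x => ∃ z ∈ a, ¬ χ z x := by
    refine h.bex (χ := fun z x => ¬ χ z x) ha hκ fun z hz => ?_
    have := dfp_left (φ := χ) z
    exact h.compl (h1 z hz)
  have h3 := h.compl h2
  unfold Aa at h3 ⊢
  convert h3 using 2
  funext x
  simp

theorem or (hκ : InfCard κ) {φ ψ : M → Prop} [hφ : Dfp fun γ : E0 M × M => φ γ.2]
    [hψ : Dfp fun γ : E0 M × M => ψ γ.2] (h1 : Aa A κ φ) (h2 : Aa A κ ψ) :
    Aa A κ fun x => φ x ∨ ψ x := by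
  have e : (sep κ fun x => φ x ∨ ψ x) = bigU (upair (sep κ φ) (sep κ ψ)) := by
    apply ext; intro x
    rw [mem_sep, mem_bigU]
    constructor
    · rintro ⟨hx, h3 | h3⟩
      · exact ⟨_, mem_upair.2 (Or.inl rfl), mem_sep.2 ⟨hx, h3⟩⟩
      · exact ⟨_, mem_upair.2 (Or.inr rfl), mem_sep.2 ⟨hx, h3⟩⟩
    · rintro ⟨y, hy, hx⟩
      rcases mem_upair.1 hy with rfl | rfl
      · exact ⟨(mem_sep.1 hx).1, Or.inl (mem_sep.1 hx).2⟩
      · exact ⟨(mem_sep.1 hx).1, Or.inr (mem_sep.1 hx).2⟩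
  unfold Aa
  rw [e]
  refine h.2.2 _ (fun y hy => ?_) ?_
  · rcases mem_upair.1 hy with rfl | rfl
    · exact h1
    · exact h2
  · have h3 : (upair (sep κ φ) (sep κ ψ) : M) = ∅ ∪ sing (sep κ φ) ∪ sing (sep κ ψ) := by
      apply ext; intro z; simp
    rw [h3]
    refine hκ.2 _ (fin_insert (fin_insert ?_))
    rw [isCard_empty.card_eq]
    exact mem_om.2 isNat_empty

theorem and (hκ : InfCard κ) {φ ψ : M → Prop} [hφ : Dfp fun γ : E0 M × M => φ γ.2]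
    [hψ : Dfp fun γ : E0 M × M => ψ γ.2] (h1 : Aa A κ φ) (h2 : Aa A κ ψ) :
    Aa A κ fun x => φ x ∧ ψ x := by
  have h3 := h.compl (h.or hκ (h.compl h1) (h.compl h2))
  unfold Aa at h3 ⊢
  convert h3 using 2
  funext x
  simp

theorem univ_mem (hκ : InfCard κ) : κ ∈ A := by
  have h1 : bigU (∅ : M) ∈ A := h.2.2 ∅ (empty_sub A) (by
    rw [isCard_empty.card_eq]
    exact hκ.2 _ (mem_om.2 isNat_empty))
  have h2 := h.2.1 _ h1
  have e : κ \ bigU (∅ : M) = κ := by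
    apply ext; intro z
    simp
  rwa [e] at h2

end IsAlg

/-- the `κ`-complete algebra generated by a set of size at most `κ` -/
theorem exists_alg {κ X : M} (hr : IsReg κ) (hs : IsSLim κ) (hX : X ⊆ pw κ) (hc : Leq X κ) :
    ∃ A : M, IsAlg κ A ∧ X ⊆ A ∧ Leq A κ ∧ ∀ B, IsAlg κ B → X ⊆ B → A ⊆ B := by
  obtain ⟨A, h1, h2, h3, h4⟩ := exists_closed κ X (fun s => sing (bigU s) ∪ img s fun x => κ \ x)
    hr hs (fun s hs' => by
      refine leq_union hr.infCard (leq_sing hr.infCard.ne_empty) ((leq_img s _).trans ?_)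
      exact leq_of_card_mem hr.isOrd hs') hc
  have hsub : A ⊆ pw κ := by
    refine h4 (pw κ) hX fun s hs' _ => union_sub (fun z hz => ?_) fun z hz => ?_
    · rw [mem_sing.1 hz, mem_pw]
      intro t ht
      obtain ⟨y, hy, hty⟩ := mem_bigU.1 ht
      exact mem_pw.1 (hs' y hy) t hty
    · obtain ⟨x, -, rfl⟩ := mem_img.1 hz
      exact mem_pw.2 fun t ht => (mem_diff.1 ht).1
  refine ⟨A, ⟨hsub, fun x hx => ?_, fun s hs' hc => ?_⟩, h1, h2, fun B hB hXB => ?_⟩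
  · have h5 : card (sing x : M) ∈ κ := by
      have h6 : (sing x : M) = ∅ ∪ sing x := by
        apply ext; intro z; simp
      rw [h6]
      refine hr.infCard.2 _ (fin_insert ?_)
      rw [isCard_empty.card_eq]
      exact mem_om.2 isNat_empty
    exact h3 (sing x) (fun z hz => (mem_sing.1 hz) ▸ hx) h5 _
      (mem_union.2 (Or.inr (mem_img.2 ⟨x, mem_sing.2 rfl, rfl⟩)))
  · exact h3 s hs' hc _ (mem_union.2 (Or.inl (mem_sing.2 rfl)))
  · refine h4 B hXB fun s hs' hc => union_sub (fun z hz => ?_) fun z hz => ?_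
    · rw [mem_sing.1 hz]
      exact hB.2.2 s hs' hc
    · obtain ⟨x, hx, rfl⟩ := mem_img.1 hz
      exact hB.2.1 x (hs' x hx)

/-- the `κ`-complete algebra generated by `X` -/
noncomputable def gen (κ X : M) : M := sep (pw κ) fun x => ∀ B, IsAlg κ B → X ⊆ B → x ∈ B

instance gen.dff {f g : Γ → M} [Dff f] [Dff g] : Dff fun γ => gen (f γ) (g γ) := by
  unfold gen; infer_instance

theorem gen_sub {κ X B : M} (hB : IsAlg κ B) (hX : X ⊆ B) : gen κ X ⊆ B := fun _ hx =>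
  (mem_sep.1 hx).2 B hB hX

theorem sub_gen {κ X : M} (hX : X ⊆ pw κ) : X ⊆ gen κ X := fun x hx =>
  mem_sep.2 ⟨hX x hx, fun _ _ h => h x hx⟩

theorem isAlg_gen (κ X : M) : IsAlg κ (gen κ X) := by
  refine ⟨fun x hx => (mem_sep.1 hx).1, fun x hx => mem_sep.2 ⟨mem_pw.2 fun t ht =>
    (mem_diff.1 ht).1, fun B hB hX => hB.2.1 x (gen_sub hB hX x hx)⟩, fun s hs hc =>
    mem_sep.2 ⟨mem_pw.2 fun t ht => ?_, fun B hB hX => hB.2.2 s (Sub.trans hs (gen_sub hB hX)) hc⟩⟩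
  obtain ⟨y, hy, hty⟩ := mem_bigU.1 ht
  exact mem_pw.1 (mem_sep.1 (hs y hy)).1 t hty

theorem leq_gen {κ X : M} (hr : IsReg κ) (hs : IsSLim κ) (hX : X ⊆ pw κ) (hc : Leq X κ) :
    Leq (gen κ X) κ := by
  obtain ⟨A, h1, h2, h3, -⟩ := exists_alg hr hs hX hc
  exact (leq_of_sub (gen_sub h1 h2)).trans h3

/-! ### ultrafilters -/

namespace UltOn

variable {κ A W : M} (h : UltOn κ A W)

include h

theorem sub : W ⊆ A := h.1

theorem mono {φ ψ : M → Prop} [hφ : Dfp fun γ : E0 M × M => φ γ.2]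
    [hψ : Dfp fun γ : E0 M × M => ψ γ.2] (h1 : Aa W κ φ) (h2 : Aa A κ ψ)
    (h3 : ∀ x ∈ κ, φ x → ψ x) : Aa W κ ψ :=
  h.2.2.1 _ h1 _ h2 fun x hx => mem_sep.2 ⟨(mem_sep.1 hx).1, h3 x (mem_sep.1 hx).1 (mem_sep.1 hx).2⟩

omit h in
theorem congr {B κ : M} {φ ψ : M → Prop} [hφ : Dfp fun γ : E0 M × M => φ γ.2]
    [hψ : Dfp fun γ : E0 M × M => ψ γ.2] (h3 : ∀ x ∈ κ, φ x ↔ ψ x) : Aa B κ φ ↔ Aa B κ ψ := by
  have e : sep κ φ = sep κ ψ := by
    apply ext; intro x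
    rw [mem_sep, mem_sep]
    exact ⟨fun h => ⟨h.1, (h3 x h.1).1 h.2⟩, fun h => ⟨h.1, (h3 x h.1).2 h.2⟩⟩
  unfold Aa
  rw [e]

theorem not_iff {φ : M → Prop} [hφ : Dfp fun γ : E0 M × M => φ γ.2]
    (h1 : Aa A κ φ) : (Aa W κ fun x => ¬ φ x) ↔ ¬ Aa W κ φ := by
  have e : (sep κ fun x => ¬ φ x) = κ \ sep κ φ := by
    apply ext; intro z
    rw [mem_sep, mem_diff, mem_sep]
    tauto
  unfold Aa
  rw [e]
  exact h.2.1 _ h1

theorem ex (hκ : InfCard κ) {φ : M → Prop} [hφ : Dfp fun γ : E0 M × M => φ γ.2]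
    (h1 : Aa W κ φ) : ∃ x ∈ κ, φ x := by
  by_contra h2
  push Not at h2
  have e : sep κ φ = ∅ := eq_empty_iff.2 fun z hz => h2 z (mem_sep.1 hz).1 (mem_sep.1 hz).2
  have h3 := h.2.2.2.2 _ h1
  rw [e, isCard_empty.card_eq] at h3
  exact hκ.ne_empty h3.symm

/-- small intersections -/
theorem ball (hκ : InfCard κ) (hA : IsAlg κ A) {a : M} {χ : M → M → Prop}
    [hχ : Dfp fun γ : (E0 M × M) × M => χ γ.1.2 γ.2]
    (ha : card a ∈ κ) (h1 : ∀ z ∈ a, Aa W κ (χ z)) : Aa W κ fun x => ∀ z ∈ a, χ z x := by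
  have hd1 : Dfp fun γ : E0 M × M => ∀ z ∈ a, χ z γ.2 := by
    have : Dfp fun γ : (E0 M × M) × M => χ γ.2 γ.1.2 :=
      Dfp.lift2 (Γ := E0 M) (P := fun _ => χ) (c := fun _ : (E0 M × M) × M => (⟨⟩ : E0 M))
    infer_instance
  by_cases h0 : a = ∅
  · subst h0
    have hu : κ ∈ W := by
      by_contra hu
      have h2 := (h.2.1 κ (hA.univ_mem hκ)).2 hu
      have e : κ \ κ = ∅ := eq_empty_iff.2 fun z hz => (mem_diff.1 hz).2 (mem_diff.1 hz).1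
      have h3 := h.2.2.2.2 _ h2
      rw [e, isCard_empty.card_eq] at h3
      exact hκ.ne_empty h3.symm
    have e : (sep κ fun x => ∀ z ∈ (∅ : M), χ z x) = κ := by
      apply ext; intro x
      rw [mem_sep]
      exact ⟨fun h => h.1, fun h => ⟨h, fun z hz => absurd hz (notMem_empty z)⟩⟩
    unfold Aa
    rw [e]
    exact hu
  · obtain ⟨z0, hz0⟩ := ne_empty_iff.1 h0
    have e : (sep κ fun x => ∀ z ∈ a, χ z x) = bigI (img a fun z => sep κ (χ z)) := by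
      have hne : (img a fun z => sep κ (χ z)) ≠ ∅ :=
        ne_empty_iff.2 ⟨_, mem_img.2 ⟨z0, hz0, rfl⟩⟩
      apply ext; intro x
      rw [mem_sep, mem_bigI hne]
      constructor
      · rintro ⟨hx, h2⟩ y hy
        obtain ⟨z, hz, rfl⟩ := mem_img.1 hy
        have := dfp_left (φ := χ) z
        exact mem_sep.2 ⟨hx, h2 z hz⟩
      · intro h2
        refine ⟨?_, fun z hz => ?_⟩
        · have := dfp_left (φ := χ) z0
          exact (mem_sep.1 (h2 _ (mem_img.2 ⟨z0, hz0, rfl⟩))).1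
        · have := dfp_left (φ := χ) z
          exact (mem_sep.1 (h2 _ (mem_img.2 ⟨z, hz, rfl⟩))).2
    unfold Aa
    rw [e]
    refine h.2.2.2.1 _ (fun y hy => ?_) (ne_empty_iff.2 ⟨_, mem_img.2 ⟨z0, hz0, rfl⟩⟩) ?_
    · obtain ⟨z, hz, rfl⟩ := mem_img.1 hy
      exact h1 z hz
    · exact (isOrd_card _).mem_of_sub_of_mem hκ.isOrd (card_sub_iff.2 (leq_img _ _)) ha

theorem and (hκ : InfCard κ) {φ ψ : M → Prop} [hφ : Dfp fun γ : E0 M × M => φ γ.2]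
    [hψ : Dfp fun γ : E0 M × M => ψ γ.2] (h1 : Aa W κ φ) (h2 : Aa W κ ψ) :
    Aa W κ fun x => φ x ∧ ψ x := by
  have hne : (upair (sep κ φ) (sep κ ψ) : M) ≠ ∅ :=
    ne_empty_iff.2 ⟨_, mem_upair.2 (Or.inl rfl)⟩
  have e : (sep κ fun x => φ x ∧ ψ x) = bigI (upair (sep κ φ) (sep κ ψ)) := by
    apply ext; intro x
    rw [mem_sep, mem_bigI hne]
    constructor
    · rintro ⟨hx, h3, h4⟩ y hy
      rcases mem_upair.1 hy with rfl | rfl
      · exact mem_sep.2 ⟨hx, h3⟩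
      · exact mem_sep.2 ⟨hx, h4⟩
    · intro h3
      have h4 := mem_sep.1 (h3 _ (mem_upair.2 (Or.inl rfl)))
      have h5 := mem_sep.1 (h3 _ (mem_upair.2 (Or.inr rfl)))
      exact ⟨h4.1, h4.2, h5.2⟩
  unfold Aa
  rw [e]
  refine h.2.2.2.1 _ (fun y hy => ?_) hne ?_
  · rcases mem_upair.1 hy with rfl | rfl
    · exact h1
    · exact h2
  · have h3 : (upair (sep κ φ) (sep κ ψ) : M) = ∅ ∪ sing (sep κ φ) ∪ sing (sep κ ψ) := by
      apply ext; intro z; simp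
    rw [h3]
    refine hκ.2 _ (fin_insert (fin_insert ?_))
    rw [isCard_empty.card_eq]
    exact mem_om.2 isNat_empty

end UltOn

end

end Pool.Agent.IST
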