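import Pool.Agent.SCC.Defs

/-!
# Measurable cardinals, the Ulam game, the Welch game and the game `G*` in a structure `(M, E)`

`E x y` is read `x ∈ y`.  All notions are relativized to the structure: quantifiers range over
`M`.
-/

namespace Pool.Agent.UG

open Pool.Agent.BVM Pool.Agent.SCC

section

variable {M : Type*} (E : M → M → Prop)

/-- `κ` is a regular cardinal `> ω`: every function from an `α < κ` to `κ` is bounded -/
def Regular (κ : M) : Prop :=
  Cardl E κ ∧ (∃ w, Omega E w ∧ E w κ) ∧
    ∀ α f, E α κ → FunOn E f α → (∀ ξ x, Rel E f ξ x → E x κ) →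
      ∃ β, E β κ ∧ ∀ ξ x, Rel E f ξ x → E x β

/-- `κ` is an inaccessible cardinal: regular, uncountable, and `2 ^ α < κ` for all `α < κ` -/
def Inaccessible (κ : M) : Prop :=
  Regular E κ ∧ ∀ α, E α κ → ∃ β p, E β κ ∧ (∀ s, E s p ↔ SCC.Sub E s α) ∧ CardLE E p β

/-- `W` is a nonprincipal `κ`-complete ultrafilter on `κ` -/
structure Measure (κ W : M) : Prop where
  /-- the elements of `W` are subsets of `κ` -/
  sub : ∀ X, E X W → SCC.Sub E X κ
  /-- `W` is closed upwards -/
  up : ∀ X Y, E X W → SCC.Sub E X Y → SCC.Sub E Y κ → E Y W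
  /-- for every subset `X` of `κ`, exactly one of `X` and `κ \ X` is in `W` -/
  ultra : ∀ X Y, SCC.Sub E X κ → (∀ s, E s Y ↔ E s κ ∧ ¬ E s X) → (E Y W ↔ ¬ E X W)
  /-- `W` is closed under intersections of fewer than `κ` of its elements -/
  complete : ∀ α f, E α κ → FunOn E f α → (∀ ξ X, Rel E f ξ X → E X W) →
    ∀ Y, (∀ s, E s Y ↔ E s κ ∧ ∀ ξ X, Rel E f ξ X → E s X) → E Y W
  /-- singletons are not in `W` -/
  nonprincipal : ∀ ξ X, E ξ κ → UPair E X ξ ξ → ¬ E X W

/-- `κ` is a measurable cardinal -/
def Measurable (κ : M) : Prop := Cardl E κ ∧ (∃ w, Omega E w ∧ E w κ) ∧ ∃ W, Measure E κ W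

/-- the set `X` has cardinality `κ` (for a cardinal `κ`) -/
def HasCard (κ X : M) : Prop := CardLE E X κ ∧ ∀ α, E α κ → ¬ CardLE E X α

/-- `A` is a `κ`-complete subalgebra of the power set of `κ` -/
structure Algebra (κ A : M) : Prop where
  /-- the elements of `A` are subsets of `κ` -/
  sub : ∀ X, E X A → SCC.Sub E X κ
  /-- `A` is closed under complements -/
  compl : ∀ X Y, E X A → (∀ s, E s Y ↔ E s κ ∧ ¬ E s X) → E Y A
  /-- `A` is closed under unions of fewer than `κ` of its elements -/
  union : ∀ α f, E α κ → FunOn E f α → (∀ ξ X, Rel E f ξ X → E X A) →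
    ∀ Y, (∀ s, E s Y ↔ ∃ ξ X, Rel E f ξ X ∧ E s X) → E Y A

/-- `W` is a uniform `κ`-complete ultrafilter on the algebra `A` -/
structure Ultra (κ A W : M) : Prop where
  /-- the elements of `W` are elements of `A` -/
  sub : SCC.Sub E W A
  /-- `W` is closed upwards in `A` -/
  up : ∀ X Y, E X W → SCC.Sub E X Y → E Y A → E Y W
  /-- for every `X` in `A`, exactly one of `X` and `κ \ X` is in `W` -/
  ultra : ∀ X Y, E X A → (∀ s, E s Y ↔ E s κ ∧ ¬ E s X) → (E Y W ↔ ¬ E X W)
  /-- `W` is closed under intersections of fewer than `κ` of its elements -/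
  complete : ∀ α f, E α κ → FunOn E f α → (∀ ξ X, Rel E f ξ X → E X W) →
    ∀ Y, (∀ s, E s Y ↔ E s κ ∧ ∀ ξ X, Rel E f ξ X → E s X) → E Y W
  /-- the elements of `W` have cardinality `κ` -/
  uniform : ∀ X, E X W → HasCard E κ X

/-- `κ` is weakly compact: it is inaccessible, and on every `κ`-complete subalgebra `A` of the power
set of `κ` with `|A| = κ` which contains the singletons there is a uniform `κ`-complete
ultrafilter -/
def WeaklyCompact (κ : M) : Prop :=
  Inaccessible E κ ∧ ∀ A, Algebra E κ A → (∀ ξ X, E ξ κ → UPair E X ξ ξ → E X A) → HasCard E κ A →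
    ∃ W, Ultra E κ A W

/-! ### games of transfinite length -/

/-- `g` is the restriction of `f` to `d` -/
def Restr (f d g : M) : Prop := ∀ z, E z g ↔ E z f ∧ ∃ x y, E x d ∧ OPair E z x y

/-- `β = α + 1` -/
def Succ (α β : M) : Prop := ∀ z, E z β ↔ E z α ∨ z = α

/-- `a` and `B` are the sequences of the moves of the players I and II in the stages before `δ`:
`I α a B X` says that `X` is a legal move of player I in stage `α`, `II α a B X T` says that `T` is
a legal answer of player II, and all moves of player II are made with the strategy `σ`, a function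
which gives the move of player II in stage `α` from the sequence `g` of the moves of player I in the
stages up to `α` -/
def Play (I : M → M → M → M → Prop) (II : M → M → M → M → M → Prop) (σ δ a B : M) : Prop :=
  FunOn E B δ ∧ ∀ α X T, E α δ → Rel E a α X → Rel E B α T →
    I α a B X ∧ II α a B X T ∧ ∀ e g, Succ E α e → Restr E a e g → Rel E σ g T

/-- player II has a winning strategy in the game of length `γ` with the rules `I` and `II`, which
player II wins if she always has a legal answer and the whole play satisfies `F` -/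
def Wins (I : M → M → M → M → Prop) (II : M → M → M → M → M → Prop) (F : M → M → Prop)
    (γ : M) : Prop :=
  ∃ σ, (∀ g T T', Rel E σ g T → Rel E σ g T' → T = T') ∧
    (∀ δ e a B, E δ γ → Succ E δ e → FunOn E a e → Play E I II σ δ a B →
      ∀ X, Rel E a δ X → I δ a B X → ∃ T, Rel E σ a T ∧ II δ a B X T) ∧
    ∀ a B, FunOn E a γ → Play E I II σ γ a B → F a B

/-! ### the Ulam game -/

/-- `X` is a pair `(P, Q)` which is a partition of the set `C_α` of all elements of `κ` which are in
all moves `B(β)`, `β < α`, of player II -/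
def UlamI (κ α _a B X : M) : Prop :=
  ∃ P Q, OPair E X P Q ∧ (∀ s, ¬ (E s P ∧ E s Q)) ∧
    ∀ s, (E s P ∨ E s Q) ↔ (E s κ ∧ ∀ β T, E β α → Rel E B β T → E s T)

/-- `T` is one of the two parts of the partition `X` -/
def UlamII (_α _a _B X T : M) : Prop := ∃ P Q, OPair E X P Q ∧ (T = P ∨ T = Q)

/-- player II has a winning strategy in the Ulam game of length `γ` on `κ`: the intersection of all
her moves has at least two elements -/
def UlamWin (κ γ : M) : Prop :=
  Wins E (UlamI E κ) (UlamII E) (fun _ B => ∃ x y, x ≠ y ∧ E x κ ∧ E y κ ∧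
    ∀ β T, Rel E B β T → E x T ∧ E y T) γ

/-- player II has a strategy in the Ulam game of length `γ` on `κ` such that the intersection of all
her moves has cardinality `κ` -/
def BigUlamWin (κ γ : M) : Prop :=
  Wins E (UlamI E κ) (UlamII E) (fun _ B => ∀ C, (∀ s, E s C ↔ E s κ ∧ ∀ β T, Rel E B β T → E s T) →
    HasCard E κ C) γ

/-! ### the Welch game and the game `G*` -/

/-- the move `X` of player I is a `κ`-complete subalgebra of the power set of `κ` of cardinality `κ`
which contains the singletons and the earlier moves of player I -/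
def WelchI (κ α a _B X : M) : Prop :=
  Algebra E κ X ∧ HasCard E κ X ∧ (∀ ξ s, E ξ κ → UPair E s ξ ξ → E s X) ∧
    ∀ β Y, E β α → Rel E a β Y → SCC.Sub E Y X

/-- the answer `T` of player II to `X` is a uniform `κ`-complete ultrafilter on `X` which contains
the earlier moves of player II -/
def WelchII (κ α _a B X T : M) : Prop :=
  Ultra E κ X T ∧ ∀ β S, E β α → Rel E B β S → SCC.Sub E S T

/-- player II has a winning strategy in the Welch game of length `γ` on `κ` -/
def WelchWin (κ γ : M) : Prop := Wins E (WelchI E κ) (WelchII E κ) (fun _ _ => True) γ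

/-- player II has a winning strategy in the game `G*` of length `γ` on `κ`: the union of her moves
extends to a uniform `κ`-complete ultrafilter `V` on the `κ`-complete algebra `D` generated by the
union of the moves of player I -/
def StarWin (κ γ : M) : Prop :=
  Wins E (WelchI E κ) (WelchII E κ) (fun a B => ∃ D V,
    (Algebra E κ D ∧ ∀ β Y, Rel E a β Y → SCC.Sub E Y D) ∧
    (∀ D', Algebra E κ D' → (∀ β Y, Rel E a β Y → SCC.Sub E Y D') → SCC.Sub E D D') ∧
    Ultra E κ D V ∧ ∀ β S, Rel E B β S → SCC.Sub E S V) γ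

end

end Pool.Agent.UG
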