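import Pool.Agent.UG.Game

/-!
# Inaccessible cardinals: basic facts
-/

set_option synthInstance.maxSize 100000

namespace Pool.Agent.IST

open Pool.Agent.BVM

section

variable {M : Type} [SetModel M] {Γ : Type} [IsCtx Γ M]

namespace IsInacc

variable {a : M} (h : IsInacc a)

include h

theorem reg : IsReg a := h.1
theorem inf : InfCard a := h.1.infCard
theorem slim : IsSLim a := ⟨h.1.infCard, h.2.2⟩
theorem om_mem : om ∈ a := h.2.1
theorem isCard : IsCard a := h.1.isCard
theorem isOrd : IsOrd a := h.1.isOrd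
theorem lim : IsLim a := h.1.infCard.isLim
theorem card_mem {x : M} (hx : x ∈ a) : card x ∈ a := card_mem_of_mem h.isCard hx
theorem card_sub {x y : M} (hx : x ⊆ y) (hy : card y ∈ a) : card x ∈ a :=
  (isOrd_card _).mem_of_sub_of_mem h.isOrd (card_mono hx) hy
theorem card_leq {x y : M} (hx : Leq x y) (hy : card y ∈ a) : card x ∈ a :=
  (isOrd_card _).mem_of_sub_of_mem h.isOrd (card_sub_iff.2 hx) hy
theorem card_pw {x : M} (hx : card x ∈ a) : card (pw x) ∈ a := card_pw_mem h.slim hx
theorem card_fns {x y : M} (hx : card x ∈ a) (hy : card y ∈ a) : card (fns x y) ∈ a :=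
  card_fns_mem h.slim hx hy
theorem card_prod {x y : M} (hx : card x ∈ a) (hy : card y ∈ a) : card (prod x y) ∈ a :=
  card_prod_mem h.inf hx hy
theorem card_union {x y : M} (hx : card x ∈ a) (hy : card y ∈ a) : card (x ∪ y) ∈ a :=
  card_union_mem h.inf hx hy
theorem card_empty : card (∅ : M) ∈ a := by
  rw [isCard_empty.card_eq]
  exact h.inf.2 _ (mem_om.2 isNat_empty)
theorem card_sing {x : M} : card (sing x) ∈ a := by
  have h6 : (sing x : M) = ∅ ∪ sing x := by
    apply ext; intro z; simp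
  rw [h6]
  refine h.inf.2 _ (fin_insert ?_)
  rw [isCard_empty.card_eq]
  exact mem_om.2 isNat_empty
theorem card_upair {x y : M} : card (upair x y) ∈ a := by
  have h3 : (upair x y : M) = sing x ∪ sing y := by
    apply ext; intro z; simp
  rw [h3]
  exact h.card_union h.card_sing h.card_sing
theorem card_two : card (two : M) ∈ a := by
  have h3 : (two : M) = upair ∅ (sc ∅) := by
    apply ext; intro z; rw [mem_two, mem_upair]
  rw [h3]
  exact h.card_upair
theorem two_mem_Vr : (two : M) ∈ Vr a := by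
  have h1 : (two : M) ∈ om := mem_om.2 isNat_empty.sc.sc
  exact (ord_mem_Vr_iff (isOrd_om.mem h1) h.isOrd).2 (h.inf.2 _ h1)

end IsInacc

theorem isInacc_iff {a : M} : IsInacc a ↔ IsReg a ∧ IsSLim a ∧ om ∈ a :=
  ⟨fun h => ⟨h.reg, h.slim, h.om_mem⟩, fun h => ⟨h.1, h.2.2, h.2.1.2⟩⟩

end

end Pool.Agent.IST
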