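import Pool.Agent.IST.Nfu
import Pool.Agent.IST.CardExp
import Pool.Agent.IST.Reg
import Pool.Agent.IST.Rank
import Pool.Agent.IST.Subst
import Pool.Agent.UG.DC

/-!
# Measures on a cardinal, normal measures

`Kuf κ W`: `W` is a `κ`-complete nonprincipal ultrafilter on `κ`.
`Nfu κ κ κ U`: `U` is a normal measure on `κ`.
-/

set_option synthInstance.maxSize 100000

namespace Pool.Agent.IST

open Pool.Agent.BVM

section

variable {M : Type} [SetModel M] {Γ : Type} [IsCtx Γ M]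

/-- `W` is a `κ`-complete nonprincipal ultrafilter on `κ` -/
def Kuf (κ W : M) : Prop :=
  (∀ X ∈ W, X ⊆ κ) ∧ (∀ X ∈ W, ∀ Y, X ⊆ Y → Y ⊆ κ → Y ∈ W) ∧
    (∀ X, X ⊆ κ → (κ \ X ∈ W ↔ X ∉ W)) ∧
    (∀ F, IsFun F → dom F ∈ κ → (∀ z ∈ dom F, ap F z ∈ W) →
      sep κ (fun x => ∀ z ∈ dom F, x ∈ ap F z) ∈ W) ∧ ∀ z ∈ κ, sing z ∉ W

namespace Kuf

variable {κ W : M}

section

variable {φ ψ : M → Prop} [Dfp fun γ : E0 M × M => φ γ.2] [Dfp fun γ : E0 M × M => ψ γ.2]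

theorem aa_mono (h : Kuf κ W) (h1 : Aa W κ φ) (h2 : ∀ x ∈ κ, φ x → ψ x) : Aa W κ ψ :=
  h.2.1 _ h1 _ (fun x hx => mem_sep.2 ⟨(mem_sep.1 hx).1, h2 x (mem_sep.1 hx).1 (mem_sep.1 hx).2⟩)
    fun _ hx => (mem_sep.1 hx).1

theorem aa_not (h : Kuf κ W) : (Aa W κ fun x => ¬ φ x) ↔ ¬ Aa W κ φ := by
  have e : κ \ sep κ φ = sep κ fun x => ¬ φ x := by
    apply ext; intro x
    rw [mem_diff, mem_sep, mem_sep]
    constructor
    · rintro ⟨h1, h2⟩; exact ⟨h1, fun h3 => h2 ⟨h1, h3⟩⟩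
    · rintro ⟨h1, h2⟩; exact ⟨h1, fun h3 => h2 h3.2⟩
  have := h.2.2.1 (sep κ φ) fun _ hx => (mem_sep.1 hx).1
  rw [e] at this
  exact this

end

section

variable {χ : M → M → Prop} [hχ : Dfp fun γ : (E0 M × M) × M => χ γ.1.2 γ.2]

theorem aa_small (h : Kuf κ W) {a : M} (ha : a ∈ κ) (h1 : ∀ z ∈ a, Aa W κ fun x => χ z x) :
    Aa W κ fun x => ∀ z ∈ a, χ z x := by
  have hl := fun z => dfp_left (φ := χ) z
  have hs := Nfu.swp hχ
  have hd : Dfp fun γ : (E0 M × M) × M => χ γ.1.2 γ.2 := hχ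
  have h2 := h.2.2.2.1 (lam a fun z => sep κ fun x => χ z x) isFun_lam (by
    rw [dom_lam]; exact ha) (by
    intro z hz
    rw [dom_lam] at hz
    rw [ap_lam hz]
    exact h1 z hz)
  refine h.2.1 _ h2 _ (fun x hx => ?_) fun _ hx => (mem_sep.1 hx).1
  have h3 := mem_sep.1 hx
  refine mem_sep.2 ⟨h3.1, fun z hz => ?_⟩
  have h4 := h3.2 z (by rw [dom_lam]; exact hz)
  rw [ap_lam hz] at h4
  have := hl z
  exact (mem_sep.1 h4).2

end

section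

variable {φ ψ : M → Prop} [Dfp fun γ : E0 M × M => φ γ.2] [Dfp fun γ : E0 M × M => ψ γ.2]

theorem aa_true (h : Kuf κ W) : Aa W κ fun _ => True := by
  by_contra h1
  have h2 := (h.aa_not (φ := fun _ => True)).2 h1
  exact h1 (h.aa_mono h2 fun _ _ _ => trivial)

theorem aa_ex (h : Kuf κ W) (h1 : Aa W κ φ) : ∃ x ∈ κ, φ x := by
  by_contra h2
  push Not at h2
  have h3 : Aa W κ fun x => ¬ φ x := h.aa_mono h.aa_true fun x hx _ => h2 x hx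
  exact h.aa_not.1 h3 h1

theorem aa_and (h : Kuf κ W) (hκ : IsOrd κ) (ho : om ∈ κ) (h1 : Aa W κ φ) (h2 : Aa W κ ψ) :
    Aa W κ fun x => φ x ∧ ψ x := by
  have hd1 : DP1 φ := ⟨inferInstance⟩
  have hd2 : DP1 ψ := ⟨inferInstance⟩
  have hd3 : Dfp fun γ : (E0 M × M) × M => (γ.1.2 = ∅ → φ γ.2) ∧ (¬ γ.1.2 = ∅ → ψ γ.2) :=
    inferInstance
  have h2κ : (two : M) ∈ κ := hκ.trans (mem_om.2 isNat_empty.sc.sc) ho
  have h3 := h.aa_small (χ := fun z x => (z = ∅ → φ x) ∧ (¬ z = ∅ → ψ x)) h2κ fun z _ => by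
    by_cases hz : z = ∅
    · exact h.aa_mono h1 fun x _ hx => ⟨fun _ => hx, fun h => absurd hz h⟩
    · exact h.aa_mono h2 fun x _ hx => ⟨fun h => absurd h hz, fun _ => hx⟩
  exact h.aa_mono h3 fun x _ hx =>
    ⟨(hx ∅ (mem_two.2 (Or.inl rfl))).1 rfl, (hx (sc ∅) (mem_two.2 (Or.inr rfl))).2 (sc_ne_empty _)⟩

end

section

variable {χ : M → M → Prop} [hχ : Dfp fun γ : (E0 M × M) × M => χ γ.1.2 γ.2]

theorem aa_small_ex (h : Kuf κ W) {a : M} (ha : a ∈ κ) (h1 : Aa W κ fun x => ∃ z ∈ a, χ z x) :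
    ∃ z ∈ a, Aa W κ fun x => χ z x := by
  have hl := fun z => dfp_left (φ := χ) z
  have hs := Nfu.swp hχ
  by_contra h3
  push Not at h3
  have h4 := h.aa_small (χ := fun z x => ¬ χ z x) ha fun z hz => by
    have := hl z
    exact h.aa_not.2 (h3 z hz)
  have h5 : Aa W κ fun x => ¬ ∃ z ∈ a, χ z x := h.aa_mono h4 fun x _ h6 ⟨z, hz, h7⟩ => h6 z hz h7
  exact h.aa_not.1 h5 h1

end

theorem aa_tail (h : Kuf κ W) (hκ : InfCard κ) {b : M} (hb : b ∈ κ) :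
    Aa W κ fun x => b ∈ x := by
  have hκo := hκ.isOrd
  by_contra h1
  have h2 := (h.aa_not (φ := fun x => b ∈ x)).2 h1
  have hbo := hκo.mem hb
  have h3 : Aa W κ fun x => ∃ z ∈ sc b, x = z := h.aa_mono h2 fun x hx h4 =>
    ⟨x, ((hκo.mem hx).mem_sc_iff hbo).2 ((hbo.not_mem (hκo.mem hx)).1 h4), rfl⟩
  obtain ⟨z, hz, h5⟩ := h.aa_small_ex (χ := fun z x => x = z) (hκ.isLim.2.2 b hb) h3
  have hzκ : z ∈ κ := hκo.trans hz (hκ.isLim.2.2 b hb)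
  refine h.2.2.2.2 z hzκ ?_
  have e : sep κ (fun x => x = z) = sing z := ext fun t => by
    rw [mem_sep, mem_sing]
    exact ⟨fun h => h.2, fun h => ⟨h ▸ hzκ, h⟩⟩
  rw [← e]
  exact h5

end Kuf

/-- a function on `κ`, unbounded modulo `W` -/
def Ubd (κ W f : M) : Prop := Maps f κ κ ∧ ∀ b ∈ κ, Aa W κ fun x => b ∈ ap f x

instance Ubd.dfp {f g h : Γ → M} [Dff f] [Dff g] [Dff h] :
    Dfp fun γ => Ubd (f γ) (g γ) (h γ) := by unfold Ubd; infer_instance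

/-- there is no descending sequence of ordinals -/
theorem no_desc {f : M} (hf : IsFun f) (hd : dom f = om) :
    ¬ ∀ n ∈ (om : M), ap f (sc n) ∈ ap f n := by
  intro h
  have h0 : (∅ : M) ∈ (om : M) := mem_om.2 isNat_empty
  obtain ⟨y, hy, hmin⟩ := found (x := ran f) (ne_empty_iff.2 ⟨ap f ∅, hf.ap_mem_ran (hd ▸ h0)⟩)
  obtain ⟨n, hn, rfl⟩ := hf.mem_ran_iff.1 hy
  rw [hd] at hn
  exact hmin _ (h n hn) (hf.ap_mem_ran (hd ▸ mem_om.2 (mem_om.1 hn).sc))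

/-- there is a least unbounded function -/
theorem Kuf.exists_least {κ W : M} (h : Kuf κ W) (hκ : InfCard κ) (ho : om ∈ κ) :
    ∃ f, Ubd κ W f ∧ ∀ g, Maps g κ κ → (Aa W κ fun x => ap g x ∈ ap f x) → ¬ Ubd κ W g := by
  by_contra hcon
  push Not at hcon
  have hid : Ubd κ W (idf κ) := by
    refine ⟨(bij_idf κ).1, fun b hb => h.aa_mono (h.aa_tail hκ hb) fun x hx h1 => ?_⟩
    unfold idf
    rwa [ap_lam hx]
  obtain ⟨F, hF, -, hF'⟩ := exists_dc (sep (fns κ κ) fun f => Ubd κ W f) (idf κ)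
    (mem_sep.2 ⟨mem_fns.2 hid.1, hid⟩) (fun _ f g => Aa W κ fun x => ap g x ∈ ap f x)
    fun n _ f hf => by
      obtain ⟨g, h1, h2, h3⟩ := hcon f (mem_sep.1 hf).2
      exact ⟨g, mem_sep.2 ⟨mem_fns.2 h1, h3⟩, h2⟩
  have h1 := h.aa_small (χ := fun n x => ap (ap F (sc n)) x ∈ ap (ap F n) x) ho hF'
  obtain ⟨x, -, hx⟩ := h.aa_ex h1
  refine no_desc (f := lam om fun n => ap (ap F n) x) isFun_lam dom_lam fun n hn => ?_
  rw [ap_lam hn, ap_lam (mem_om.2 (mem_om.1 hn).sc)]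
  exact hx n hn

/-- the image of `W` under `f` -/
noncomputable def pushW (κ W f : M) : M := sep (pw κ) fun X => Aa W κ fun x => ap f x ∈ X

instance pushW.dff {f g h : Γ → M} [Dff f] [Dff g] [Dff h] :
    Dff fun γ => pushW (f γ) (g γ) (h γ) := by unfold pushW; infer_instance

theorem mem_pushW {κ W f X : M} : X ∈ pushW κ W f ↔ X ⊆ κ ∧ Aa W κ fun x => ap f x ∈ X := by
  unfold pushW
  rw [mem_sep, mem_pw]

/-- a measurable cardinal carries a normal measure -/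
theorem Kuf.exists_normal {κ W : M} (h : Kuf κ W) (hκ : InfCard κ) (ho : om ∈ κ) :
    ∃ U, Nfu κ κ κ U := by
  classical
  obtain ⟨f, ⟨hf, hfu⟩, hmin⟩ := h.exists_least hκ ho
  have hκo := hκ.isOrd
  have hmf : ∀ x ∈ κ, ap f x ∈ κ := fun x hx => hf.ap_mem hx
  have hul : ∀ X, X ⊆ κ → (κ \ X ∈ pushW κ W f ↔ X ∉ pushW κ W f) := by
    intro X hX
    have h1 : κ \ X ⊆ κ := fun z hz => (mem_diff.1 hz).1
    rw [mem_pushW, mem_pushW]
    constructor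
    · rintro ⟨-, h2⟩ ⟨-, h3⟩
      obtain ⟨x, -, h4, h5⟩ := h.aa_ex (h.aa_and hκo ho h2 h3)
      exact (mem_diff.1 h4).2 h5
    · intro h2
      refine ⟨h1, h.aa_mono (h.aa_not.2 fun h3 => h2 ⟨hX, h3⟩) fun x hx h4 => ?_⟩
      exact mem_diff.2 ⟨hmf x hx, h4⟩
  have hcomp : ∀ F, IsFun F → dom F ∈ κ → (∀ z ∈ dom F, ap F z ∈ pushW κ W f) →
      sep κ (fun x => ∀ z ∈ dom F, x ∈ ap F z) ∈ pushW κ W f := by
    intro F _ hd hz
    refine mem_pushW.2 ⟨fun x hx => (mem_sep.1 hx).1, ?_⟩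
    have h1 := h.aa_small (χ := fun z x => ap f x ∈ ap F z) hd fun z hz' =>
      (mem_pushW.1 (hz z hz')).2
    exact h.aa_mono h1 fun x hx h2 => mem_sep.2 ⟨hmf x hx, h2⟩
  refine ⟨pushW κ W f, fun x hx => hκo.sub_of_mem hx, fun X hX => (mem_pushW.1 hX).1,
    fun X hX Y hXY hY => mem_pushW.2 ⟨hY, h.aa_mono (mem_pushW.1 hX).2 fun x _ h1 => hXY _ h1⟩,
    fun X hX Y hY => ?_, hul, fun z hz => ?_, hcomp, fun F hF hd hz => ?_⟩
  · refine mem_pushW.2 ⟨fun x hx => (mem_pushW.1 hX).1 x (mem_inter.1 hx).1, ?_⟩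
    exact h.aa_mono (h.aa_and hκo ho (mem_pushW.1 hX).2 (mem_pushW.1 hY).2) fun x _ h1 =>
      mem_inter.2 h1
  · refine mem_pushW.2 ⟨fun x hx => (mem_sep.1 hx).1, ?_⟩
    exact h.aa_mono (hfu z hz) fun x hx h1 => mem_sep.2 ⟨hmf x hx, h1⟩
  · by_contra hcon
    have hsub : sep κ (fun x => ∀ z ∈ x, x ∈ ap F z) ⊆ κ := fun x hx => (mem_sep.1 hx).1
    have h1 := (hul _ hsub).2 hcon
    have h2 : Aa W κ fun x => ∃ z ∈ ap f x, ¬ ap f x ∈ ap F z :=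
      h.aa_mono (mem_pushW.1 h1).2 fun x hx h3 => by
        have h4 := (mem_diff.1 h3)
        by_contra h5
        push Not at h5
        exact h4.2 (mem_sep.2 ⟨h4.1, h5⟩)
    have hG : Dff fun γ : E0 M × M => if ∃ z ∈ ap f γ.2, ¬ ap f γ.2 ∈ ap F z then
        lst fun z => z ∈ ap f γ.2 ∧ ¬ ap f γ.2 ∈ ap F z else ∅ := inferInstance
    have hspec : ∀ x ∈ κ, (∃ z ∈ ap f x, ¬ ap f x ∈ ap F z) →
        (lst fun z => z ∈ ap f x ∧ ¬ ap f x ∈ ap F z) ∈ ap f x ∧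
        ¬ ap f x ∈ ap F (lst fun z => z ∈ ap f x ∧ ¬ ap f x ∈ ap F z) := by
      rintro x hx ⟨z, hz1, hz2⟩
      exact (lst_spec (P := fun z => z ∈ ap f x ∧ ¬ ap f x ∈ ap F z)
        ((hκo.mem (hmf x hx)).mem hz1) ⟨hz1, hz2⟩).2.1
    have h0κ : (∅ : M) ∈ κ := empty_mem_of_isLim hκ.isLim
    obtain ⟨g, hgm, hg⟩ : ∃ g : M, Maps g κ κ ∧ ∀ x ∈ κ, (∃ z ∈ ap f x, ¬ ap f x ∈ ap F z) →
        ap g x ∈ ap f x ∧ ¬ ap f x ∈ ap F (ap g x) := by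
      refine ⟨lam κ fun x => if ∃ z ∈ ap f x, ¬ ap f x ∈ ap F z then
        lst fun z => z ∈ ap f x ∧ ¬ ap f x ∈ ap F z else ∅, maps_lam fun x hx => ?_,
        fun x hx h3 => ?_⟩
      · split_ifs with h3
        · exact hκo.trans (hspec x hx h3).1 (hmf x hx)
        · exact h0κ
      · rw [ap_lam hx, if_pos h3]
        exact hspec x hx h3
    have h3 : Aa W κ fun x => ap g x ∈ ap f x := h.aa_mono h2 fun x hx h4 => (hg x hx h4).1
    have h4 := hmin g hgm h3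
    have h5 : ∃ b ∈ κ, ¬ Aa W κ fun x => b ∈ ap g x := by
      by_contra h6
      push Not at h6
      exact h4 ⟨hgm, h6⟩
    obtain ⟨b, hb, h5⟩ := h5
    have h6 := h.aa_and hκo ho (h.aa_not.2 h5) h2
    have hbo := hκo.mem hb
    obtain ⟨z, hz1, h7⟩ := h.aa_small_ex (χ := fun z x => ap g x = z ∧ ∃ z ∈ ap f x,
      ¬ ap f x ∈ ap F z) (hκ.isLim.2.2 b hb) (h.aa_mono h6 fun x hx h7 =>
      ⟨ap g x, ((hκo.mem (hgm.ap_mem hx)).mem_sc_iff hbo).2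
        ((hbo.not_mem (hκo.mem (hgm.ap_mem hx))).1 h7.1), rfl, h7.2⟩)
    have hzκ : z ∈ κ := hκo.trans hz1 (hκ.isLim.2.2 b hb)
    have h8 := (mem_pushW.1 (hz z hzκ)).2
    obtain ⟨x, hx, ⟨h9, h10⟩, h11⟩ := h.aa_ex (h.aa_and hκo ho h7 h8)
    have h12 := (hg x hx h10).2
    rw [h9] at h12
    exact h12 h11

end

end Pool.Agent.IST
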