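import Pool.Agent.SCC.Bridge
import Pool.Agent.UG.Defs
import Pool.Agent.UG.Inac
import Pool.Agent.UG.Msr

/-!
# Translation between the notions of the final statement and the internal library
-/

set_option synthInstance.maxSize 100000

namespace Pool.Agent.UG

open Pool.Agent.BVM Pool.Agent.SCC Pool.Agent.IST

section

variable {M : Type} [SetModel M]

/-! ### cardinals -/

theorem omega_ex_iff {κ : M} : (∃ w, Omega SetModel.E w ∧ SetModel.E w κ) ↔ om ∈ κ := by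
  simp only [omega_iff, exists_eq_left]
  exact Iff.rfl

theorem regular_iff {κ : M} : Regular SetModel.E κ ↔ IsReg κ ∧ om ∈ κ := by
  unfold Regular
  rw [cardl_iff, omega_ex_iff]
  simp only [funOn_iff, rel_iff]
  constructor
  · rintro ⟨h1, h2, h3⟩
    refine ⟨⟨⟨h1, h1.isOrd.sub_of_mem h2⟩, fun α hα f hf => ?_⟩, h2⟩
    obtain ⟨β, hβ, h4⟩ := h3 α f hα ⟨hf.isFun, hf.dom_eq⟩ fun ξ x h => by
      rw [hf.isFun.op_mem_iff, hf.dom_eq] at h
      rw [← h.2]
      exact hf.ap_mem h.1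
    exact ⟨β, hβ, fun ξ hξ => h4 ξ _ (hf.isFun.op_ap_mem (by rw [hf.dom_eq]; exact hξ))⟩
  · rintro ⟨h1, h2⟩
    refine ⟨h1.1.1, h2, fun α f hα hf h => ?_⟩
    obtain ⟨hf, rfl⟩ := hf
    obtain ⟨β, hβ, h4⟩ := h1.2 (dom f) hα f ⟨hf, rfl, fun x hx => h x _ (hf.op_ap_mem hx)⟩
    refine ⟨β, hβ, fun ξ x hx => ?_⟩
    rw [← hf.ap_eq hx]
    exact h4 ξ (mem_dom.2 ⟨x, hx⟩)

theorem pw_iff {α p : M} : (∀ s, SetModel.E s p ↔ SCC.Sub SetModel.E s α) ↔ p = pw α :=
  ⟨fun h => ext fun s => (h s).trans mem_pw.symm, fun h s => by rw [h]; exact mem_pw⟩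

theorem inaccessible_iff {κ : M} : Inaccessible SetModel.E κ ↔ IsInacc κ := by
  unfold Inaccessible IsInacc
  rw [regular_iff, and_assoc]
  refine and_congr_right fun h1 => and_congr_right fun _ => forall_congr' fun α =>
    imp_congr_right fun _ => ?_
  simp only [pw_iff, cardLE_iff]
  constructor
  · rintro ⟨β, p, hβ, rfl, h⟩
    have hβo := h1.1.1.isOrd.mem (show β ∈ κ from hβ)
    exact (isOrd_card _).mem_of_sub_of_mem h1.1.1.isOrd
      (Sub.trans (card_sub_iff.2 h) (card_sub_self hβo)) hβ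
  · exact fun h => ⟨pow2 α, _, h, rfl, (eqn_card _).leq⟩

theorem hasCard_iff {κ X : M} (hκ : IsCard κ) : HasCard SetModel.E κ X ↔ card X = κ := by
  unfold HasCard
  simp only [cardLE_iff]
  constructor
  · rintro ⟨h1, h2⟩
    rcases ((isOrd_card X).sub_iff hκ.isOrd).1 ((card_sub_iff_leq hκ).2 h1) with h3 | h3
    · exact absurd (eqn_card X).leq (h2 _ h3)
    · exact h3
  · intro h
    refine ⟨h ▸ (eqn_card X).leq, fun α hα h1 => ?_⟩
    have h2 := Sub.trans (card_sub_iff.2 h1) (card_sub_self (hκ.isOrd.mem (show α ∈ κ from hα)))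
    rw [h] at h2
    exact mem_irrefl α (h2 α hα)

/-! ### measurable cardinals -/

theorem diff_iff {κ X Y : M} : (∀ s, SetModel.E s Y ↔ SetModel.E s κ ∧ ¬ SetModel.E s X) ↔
    Y = κ \ X :=
  ⟨fun h => ext fun s => (h s).trans mem_diff.symm, fun h s => by rw [h]; exact mem_diff⟩

/-- the intersection of the values of a function, inside `κ` -/
theorem cap_iff {κ f Y : M} (hf : IsFun f) :
    (∀ s, SetModel.E s Y ↔ SetModel.E s κ ∧ ∀ ξ X, Rel SetModel.E f ξ X → SetModel.E s X) ↔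
      Y = sep κ fun x => ∀ z ∈ dom f, x ∈ ap f z := by
  have key : ∀ s : M, (∀ ξ X, Rel SetModel.E f ξ X → SetModel.E s X) ↔ ∀ z ∈ dom f, s ∈ ap f z := by
    intro s
    simp only [rel_iff]
    constructor
    · exact fun h z hz => h z _ (hf.op_ap_mem hz)
    · intro h ξ X hX
      rw [← hf.ap_eq hX]
      exact h ξ (mem_dom.2 ⟨X, hX⟩)
  simp only [key]
  have h1 : ∀ s, s ∈ (sep κ fun x => ∀ z ∈ dom f, x ∈ ap f z) ↔ s ∈ κ ∧ ∀ z ∈ dom f, s ∈ ap f z :=
    fun s => mem_sep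
  exact ⟨fun h => ext fun s => (h s).trans (h1 s).symm, fun h s => by rw [h]; exact h1 s⟩

theorem rel_all_iff {f W : M} (hf : IsFun f) :
    (∀ ξ X, Rel SetModel.E f ξ X → SetModel.E X W) ↔ ∀ z ∈ dom f, ap f z ∈ W := by
  simp only [rel_iff]
  constructor
  · exact fun h z hz => h z _ (hf.op_ap_mem hz)
  · intro h ξ X hX
    rw [← hf.ap_eq hX]
    exact h ξ (mem_dom.2 ⟨X, hX⟩)

theorem measure_iff {κ W : M} : Measure SetModel.E κ W ↔ Kuf κ W := by
  constructor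
  · rintro ⟨h1, h2, h3, h4, h5⟩
    refine ⟨h1, fun X hX Y hXY hY => h2 X Y hX hXY hY, fun X hX => h3 X _ hX (diff_iff.2 rfl),
      fun F hF hd hz => ?_, fun z hz => h5 z _ hz (upair_iff.2 rfl)⟩
    exact h4 (dom F) F hd (funOn_iff.2 ⟨hF, rfl⟩) ((rel_all_iff hF).2 hz) _ ((cap_iff hF).2 rfl)
  · rintro ⟨h1, h2, h3, h4, h5⟩
    refine ⟨h1, fun X Y hX hXY hY => h2 X hX Y hXY hY, fun X Y hX hY => ?_,
      fun α f hα hf hz Y hY => ?_, fun ξ X hξ hX => ?_⟩
    · rw [diff_iff.1 hY]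
      exact h3 X hX
    · obtain ⟨hf', rfl⟩ := funOn_iff.1 hf
      rw [(cap_iff hf').1 hY]
      exact h4 f hf' hα ((rel_all_iff hf').1 hz)
    · rw [upair_iff.1 hX]
      exact h5 ξ hξ

theorem measurable_iff {κ : M} :
    Measurable SetModel.E κ ↔ IsCard κ ∧ om ∈ κ ∧ ∃ W, Kuf κ W := by
  unfold Measurable
  rw [cardl_iff, omega_ex_iff]
  simp only [measure_iff]

/-! ### algebras and ultrafilters on them -/

theorem cup_iff {f Y : M} :
    (∀ s, SetModel.E s Y ↔ ∃ ξ X, Rel SetModel.E f ξ X ∧ SetModel.E s X) ↔ Y = bigU (ran f) := by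
  have key : ∀ s : M, (∃ ξ X, Rel SetModel.E f ξ X ∧ SetModel.E s X) ↔ s ∈ bigU (ran f) := by
    intro s
    rw [mem_bigU]
    simp only [rel_iff, mem_ran]
    constructor
    · rintro ⟨ξ, X, h1, h2⟩
      exact ⟨X, ⟨ξ, h1⟩, h2⟩
    · rintro ⟨X, ⟨ξ, h1⟩, h2⟩
      exact ⟨ξ, X, h1, h2⟩
  constructor
  · exact fun h => ext fun s => (h s).trans (key s)
  · rintro rfl s
    exact (key s).symm

theorem card_ran_mem {κ f : M} (hκ : IsCard κ) (hf : IsFun f) (hd : dom f ∈ κ) :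
    card (ran f) ∈ κ := by
  have h1 : Leq (ran f) (dom f) := by
    by_cases h0 : ran f = ∅
    · rw [h0]
      exact leq_of_sub (empty_sub _)
    · exact (leq_iff_surj h0).2 ⟨f, hf, rfl, rfl⟩
  exact (isOrd_card _).mem_of_sub_of_mem hκ.isOrd (card_sub_iff.2 h1) (card_mem_of_mem hκ hd)

/-- an enumeration of a small set -/
theorem exists_enum {κ S : M} (hS : card S ∈ κ) : ∃ f : M, IsFun f ∧ dom f ∈ κ ∧ ran f = S := by
  obtain ⟨f, hf⟩ := (eqn_card S).symm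
  exact ⟨f, hf.1.isFun, by rw [hf.1.dom_eq]; exact hS, hf.2.2⟩

theorem algebra_iff {κ A : M} (hκ : IsCard κ) : Algebra SetModel.E κ A ↔ IsAlg κ A := by
  constructor
  · rintro ⟨h1, h2, h3⟩
    refine ⟨fun X hX => mem_pw.2 (h1 X hX), fun X hX => h2 X _ hX (diff_iff.2 rfl),
      fun S hS hc => ?_⟩
    obtain ⟨f, hf, hd, rfl⟩ := exists_enum hc
    exact h3 _ f hd (funOn_iff.2 ⟨hf, rfl⟩) ((rel_all_iff hf).2 fun z hz => hS _ (hf.ap_mem_ran hz))
      _ (cup_iff.2 rfl)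
  · rintro ⟨h1, h2, h3⟩
    refine ⟨fun X hX => mem_pw.1 (h1 X hX), fun X Y hX hY => ?_, fun α f hα hf hz Y hY => ?_⟩
    · rw [diff_iff.1 hY]
      exact h2 X hX
    · obtain ⟨hf', rfl⟩ := funOn_iff.1 hf
      rw [cup_iff.1 hY]
      refine h3 _ (fun y hy => ?_) (card_ran_mem hκ hf' hα)
      obtain ⟨x, hx, rfl⟩ := hf'.mem_ran_iff.1 hy
      exact (rel_all_iff hf').1 hz x hx

theorem cap_eq_bigI {κ f : M} (hf : IsFun f) (hne : ran f ≠ ∅) (hs : ∀ X ∈ ran f, X ⊆ κ) :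
    (sep κ fun x => ∀ z ∈ dom f, x ∈ ap f z) = bigI (ran f) := by
  apply ext
  intro s
  rw [mem_sep, mem_bigI hne]
  constructor
  · rintro ⟨-, h⟩ y hy
    obtain ⟨x, hx, rfl⟩ := hf.mem_ran_iff.1 hy
    exact h x hx
  · intro h
    obtain ⟨y, hy⟩ := ne_empty_iff.1 hne
    exact ⟨hs y hy s (h y hy), fun z hz => h _ (hf.ap_mem_ran hz)⟩

theorem ultra_iff {κ A W : M} (hκ : InfCard κ) (hA : IsAlg κ A) :
    Ultra SetModel.E κ A W ↔ UltOn κ A W := by
  constructor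
  · rintro ⟨h1, h2, h3, h4, h5⟩
    refine ⟨h1, fun X hX => h3 X _ hX (diff_iff.2 rfl), fun X hX Y hY hXY => h2 X Y hX hXY hY,
      fun S hS hne hc => ?_, fun X hX => (hasCard_iff hκ.isCard).1 (h5 X hX)⟩
    obtain ⟨f, hf, hd, rfl⟩ := exists_enum hc
    rw [← cap_eq_bigI hf hne fun X hX => hA.sub (h1 X (hS X hX))]
    exact h4 _ f hd (funOn_iff.2 ⟨hf, rfl⟩) ((rel_all_iff hf).2 fun z hz => hS _ (hf.ap_mem_ran hz))
      _ ((cap_iff hf).2 rfl)
  · intro h
    refine ⟨h.1, fun X Y hX hXY hY => h.2.2.1 X hX Y hY hXY, fun X Y hX hY => ?_,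
      fun α f hα hf hz Y hY => ?_, fun X hX => (hasCard_iff hκ.isCard).2 (h.2.2.2.2 X hX)⟩
    · rw [diff_iff.1 hY]
      exact h.2.1 X hX
    · obtain ⟨hf', rfl⟩ := funOn_iff.1 hf
      rw [(cap_iff hf').1 hY]
      have hz' := (rel_all_iff hf').1 hz
      have hr : ran f ⊆ W := fun y hy => by
        obtain ⟨x, hx, rfl⟩ := hf'.mem_ran_iff.1 hy
        exact hz' x hx
      by_cases h0 : ran f = ∅
      · have h1 : (sep κ fun x => ∀ z ∈ dom f, x ∈ ap f z) = κ := by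
          apply ext
          intro s
          rw [mem_sep]
          refine ⟨fun h => h.1, fun h => ⟨h, fun z hz => ?_⟩⟩
          exact absurd (hf'.ap_mem_ran hz) (by rw [h0]; exact notMem_empty _)
        rw [h1]
        by_contra hu
        have h2 := (h.2.1 κ (hA.univ_mem hκ)).2 hu
        have e : κ \ κ = ∅ := eq_empty_iff.2 fun z hz => (mem_diff.1 hz).2 (mem_diff.1 hz).1
        have h3 := h.2.2.2.2 _ h2
        rw [e, isCard_empty.card_eq] at h3
        exact hκ.ne_empty h3.symm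
      · rw [cap_eq_bigI hf' h0 fun X hX => hA.sub (h.1 X (hr X hX))]
        exact h.2.2.2.1 _ hr h0 (card_ran_mem hκ.isCard hf' hα)

theorem sing_all_iff {κ A : M} :
    (∀ ξ X, SetModel.E ξ κ → UPair SetModel.E X ξ ξ → SetModel.E X A) ↔ ∀ ξ ∈ κ, sing ξ ∈ A := by
  simp only [upair_iff]
  exact ⟨fun h ξ hξ => h ξ _ hξ rfl, fun h ξ X hξ hX => by rw [hX]; exact h ξ hξ⟩

theorem weaklyCompact_iff {κ : M} : WeaklyCompact SetModel.E κ ↔ WCpt κ := by
  unfold WeaklyCompact WCpt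
  rw [inaccessible_iff]
  refine and_congr_right fun hκ => forall_congr' fun A => ?_
  rw [algebra_iff hκ.isCard, sing_all_iff, hasCard_iff hκ.isCard]
  refine imp_congr_right fun hA => imp_congr_right fun _ => imp_congr_right fun _ => ?_
  exact exists_congr fun W => ultra_iff hκ.inf hA

end

end Pool.Agent.UG
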