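import Pool.Agent.UG.Bridge

/-!
# Translation of the games
-/

set_option synthInstance.maxSize 100000

namespace Pool.Agent.UG

open Pool.Agent.BVM Pool.Agent.SCC Pool.Agent.IST

section

variable {M : Type} [SetModel M]

theorem succ_iff {α β : M} : UG.Succ SetModel.E α β ↔ β = sc α :=
  ⟨fun h => ext fun s => (h s).trans mem_sc.symm, fun h s => by rw [h]; exact mem_sc⟩

theorem restr_iff {f d g : M} : Restr SetModel.E f d g ↔ g = res f d := by
  have key : ∀ z, z ∈ res f d ↔ z ∈ f ∧ ∃ x y, x ∈ d ∧ z = op x y := by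
    intro z
    unfold res
    rw [mem_sep]
    refine and_congr_right fun _ => ?_
    constructor
    · rintro ⟨x, hx, y, e⟩
      exact ⟨x, y, hx, e⟩
    · rintro ⟨x, y, hx, e⟩
      exact ⟨x, hx, y, e⟩
  unfold Restr
  simp only [opair_iff]
  exact ⟨fun h => ext fun z => (h z).trans (key z).symm, fun h z => by rw [h]; exact key z⟩

theorem res_dom {f : M} (hf : IsFun f) : res f (dom f) = f :=
  hf.res.ext hf (by rw [dom_res]; exact ext fun z => by rw [mem_inter]; exact and_self_iff)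
    fun x hx => hf.ap_res (by rw [dom_res] at hx; exact (mem_inter.1 hx).1)

/-- plays -/
theorem play_iff {I : M → M → M → M → Prop} {II : M → M → M → M → M → Prop} {σ δ a B : M}
    (ha : IsFun a) (hd : δ ⊆ dom a) : Play SetModel.E I II σ δ a B ↔
      (IsFun B ∧ dom B = δ) ∧ ∀ α ∈ δ, I α a B (ap a α) ∧ II α a B (ap a α) (ap B α) ∧
        op (res a (sc α)) (ap B α) ∈ σ := by
  unfold Play
  simp only [funOn_iff, succ_iff, restr_iff, rel_iff]
  refine and_congr_right fun hB => ?_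
  constructor
  · intro h α hα
    obtain ⟨h1, h2, h3⟩ := h α _ _ hα (ha.op_ap_mem (hd α hα))
      (hB.1.op_ap_mem (by rw [hB.2]; exact hα))
    exact ⟨h1, h2, h3 _ _ rfl rfl⟩
  · intro h α X T hα hX hT
    obtain ⟨h1, h2, h3⟩ := h α hα
    rw [ha.ap_eq hX] at h1 h2
    rw [hB.1.ap_eq hT] at h2 h3
    refine ⟨h1, h2, ?_⟩
    rintro e g rfl rfl
    exact h3

theorem wins_iff {I : M → M → M → M → Prop} {II : M → M → M → M → M → Prop} {F : M → M → Prop}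
    {γ : M} : Wins SetModel.E I II F γ ↔ ∃ σ : M, (∀ g T T', op g T ∈ σ → op g T' ∈ σ → T = T') ∧
      (∀ δ ∈ γ, ∀ a B, IsFun a → dom a = sc δ → Play SetModel.E I II σ δ a B →
        I δ a B (ap a δ) → ∃ T, op a T ∈ σ ∧ II δ a B (ap a δ) T) ∧
      ∀ a B, IsFun a → dom a = γ → Play SetModel.E I II σ γ a B → F a B := by
  unfold Wins
  simp only [funOn_iff, succ_iff, rel_iff]
  refine exists_congr fun σ => and_congr_right fun _ => and_congr ?_ ?_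
  · constructor
    · intro h δ hδ a B ha hd hp hI
      exact h δ _ a B hδ rfl ⟨ha, hd⟩ hp _ (ha.op_ap_mem (by rw [hd]; exact self_mem_sc δ)) hI
    · rintro h δ e a B hδ rfl ⟨ha, hd⟩ hp X hX hI
      rw [← ha.ap_eq hX] at hI ⊢
      exact h δ hδ a B ha hd hp hI
  · exact forall_congr' fun a => forall_congr' fun B => and_imp

/-! ### the Ulam game -/

theorem ulamI_iff {κ α a B X : M} (hB : IsFun B) (hd : α ⊆ dom B) :
    UlamI SetModel.E κ α a B X ↔ ∃ P Q, X = op P Q ∧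
      P ∪ Q = (sep κ fun x => ∀ β ∈ α, x ∈ ap B β) ∧ P ∩ Q = ∅ := by
  unfold UlamI
  simp only [opair_iff, rel_iff]
  refine exists_congr fun P => exists_congr fun Q => and_congr_right fun _ => ?_
  rw [and_comm]
  refine and_congr ?_ ?_
  · have key : ∀ s, (∀ β T, SetModel.E β α → op β T ∈ B → SetModel.E s T) ↔
        ∀ β ∈ α, s ∈ ap B β := by
      intro s
      constructor
      · exact fun h β hβ => h β _ hβ (hB.op_ap_mem (hd β hβ))
      · intro h β T hβ hT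
        rw [← hB.ap_eq hT]
        exact h β hβ
    simp only [key]
    constructor
    · intro h
      apply ext
      intro s
      rw [mem_union, mem_sep]
      exact h s
    · intro h s
      have h1 : s ∈ P ∪ Q ↔ s ∈ κ ∧ ∀ β ∈ α, s ∈ ap B β := by rw [h]; exact mem_sep
      rw [mem_union] at h1
      exact h1
  · rw [eq_empty_iff]
    simp only [mem_inter]
    exact Iff.rfl

theorem ulamII_iff {α a B X T : M} : UlamII SetModel.E α a B X T ↔
    ∃ P Q, X = op P Q ∧ (T = P ∨ T = Q) := by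
  unfold UlamII
  simp only [opair_iff]

theorem uCap_eq {κ σ a B δ : M} (h : ∀ β ∈ δ, ap B β = gAns σ a β) :
    uCap κ σ a δ = sep κ fun x => ∀ β ∈ δ, x ∈ ap B β := by
  unfold uCap
  apply ext
  intro x
  rw [mem_sep, mem_sep]
  refine and_congr_right fun _ => forall_congr' fun β => imp_congr_right fun hβ => ?_
  rw [h β hβ]

theorem uCap_sub {κ σ a δ : M} : uCap κ σ a δ ⊆ κ := fun _ h => (mem_sep.1 h).1

/-- the legal plays of the Ulam game -/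
theorem play_ulam {κ σ σ' δ a B : M} (hδ : IsOrd δ) (ha : IsFun a) (hd : δ ⊆ dom a)
    (hσ : ∀ g T, op g T ∈ σ' → ap σ g = T)
    (h : Play SetModel.E (UlamI SetModel.E κ) (UlamII SetModel.E) σ' δ a B) :
    (IsFun B ∧ dom B = δ) ∧ (∀ α ∈ δ, ap B α = gAns σ a α) ∧
      ∀ α ∈ δ, ∃ X Y, ap a α = op X Y ∧ X ∪ Y = uCap κ σ a α ∧ X ∩ Y = ∅ := by
  rw [play_iff ha hd] at h
  obtain ⟨hB, h⟩ := h
  have h1 : ∀ α ∈ δ, ap B α = gAns σ a α := fun α hα => (hσ _ _ (h α hα).2.2).symm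
  refine ⟨hB, h1, fun α hα => ?_⟩
  have h2 := (h α hα).1
  rw [ulamI_iff hB.1 (by rw [hB.2]; exact hδ.sub_of_mem hα)] at h2
  rw [uCap_eq (κ := κ) fun β hβ => h1 β (hδ.trans hβ hα)]
  exact h2

theorem ulam_wins {κ γ σ : M} (hγ : IsOrd γ) {F : M → M → Prop}
    (h : ∀ δ ∈ sc γ, ∀ a, UMoves κ δ σ a → (∀ α ∈ δ, gAns σ a α = p1 (ap a α) ∨
      gAns σ a α = p2 (ap a α)) ∧ card (uCap κ σ a δ) = κ)
    (hF : ∀ a B, IsFun B → dom B = γ → card (sep κ fun x => ∀ β ∈ γ, x ∈ ap B β) = κ → F a B) :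
    Wins SetModel.E (UlamI SetModel.E κ) (UlamII SetModel.E) F γ := by
  rw [wins_iff]
  have hres : ∀ δ ∈ γ, ∀ a B, IsFun a → dom a = sc δ → (∀ β ∈ δ, ap B β = gAns σ a β) →
      (∀ α ∈ δ, ∃ X Y, ap a α = op X Y ∧ X ∪ Y = uCap κ σ a α ∧ X ∩ Y = ∅) →
      (∃ X Y, ap a δ = op X Y ∧ X ∪ Y = (sep κ fun x => ∀ β ∈ δ, x ∈ ap B β) ∧ X ∩ Y = ∅) →
      UMoves κ (sc δ) σ a := by
    intro δ hδ a B ha hd hB h1 h2
    refine ⟨ha, hd, fun α hα => ?_⟩
    rcases mem_sc.1 hα with h3 | rfl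
    · exact h1 α h3
    · rw [uCap_eq (κ := κ) hB]
      exact h2
  refine ⟨lam (iU γ fun δ => fns (sc δ) (prod (pw κ) (pw κ))) fun g => ap σ g,
    fun g T T' h1 h2 => ?_, ?_, ?_⟩
  · rw [op_mem_lam] at h1 h2
    rw [h1.2, h2.2]
  · intro δ hδ a B ha hd hp hI
    have hδo := hγ.mem hδ
    obtain ⟨hB, h1, h2⟩ := play_ulam (σ := σ) hδo ha (by rw [hd]; exact sub_sc δ)
      (fun g T hg => (op_mem_lam.1 hg).2.symm) hp
    rw [ulamI_iff hB.1 (by rw [hB.2]; exact Sub.refl _)] at hI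
    have hu := hres δ hδ a B ha hd h1 h2 hI
    have h3 := (h (sc δ) ((hδo.sc.mem_sc_iff hγ).2 (hγ.sc_sub_iff.2 hδ)) a hu).1 δ
      (self_mem_sc δ)
    have h4 : gAns σ a δ = ap σ a := by
      unfold gAns
      rw [← hd, res_dom ha]
    rw [h4] at h3
    have hm : Maps a (sc δ) (prod (pw κ) (pw κ)) := by
      refine ⟨ha, hd, fun α hα => ?_⟩
      obtain ⟨X, Y, e, h5, -⟩ := hu.2.2 α hα
      rw [e, op_mem_prod, mem_pw, mem_pw]
      refine ⟨fun s hs => ?_, fun s hs => ?_⟩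
      · exact uCap_sub s (h5 ▸ mem_union.2 (Or.inl hs))
      · exact uCap_sub s (h5 ▸ mem_union.2 (Or.inr hs))
    refine ⟨ap σ a, op_mem_lam.2 ⟨mem_iU.2 ⟨δ, hδ, mem_fns.2 hm⟩, rfl⟩, ulamII_iff.2 ?_⟩
    obtain ⟨P, Q, e, -⟩ := hI
    rw [e, p1_op, p2_op] at h3
    exact ⟨P, Q, e, h3⟩
  · intro a B ha hd hp
    obtain ⟨hB, h1, h2⟩ := play_ulam (σ := σ) hγ ha (by rw [hd]; exact Sub.refl _)
      (fun g T hg => (op_mem_lam.1 hg).2.symm) hp
    refine hF a B hB.1 hB.2 ?_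
    rw [← uCap_eq (κ := κ) h1]
    exact (h γ (self_mem_sc γ) a ⟨ha, hd, h2⟩).2

theorem ulamWin_of {κ γ : M} (hκ : InfCard κ) (hγ : IsOrd γ) (h : UWin κ γ) :
    UlamWin SetModel.E κ γ := by
  obtain ⟨σ, h⟩ := h
  refine ulam_wins hγ h fun a B hB hd hc => ?_
  -- a set of cardinality `κ` has two elements
  obtain ⟨f, hf⟩ := (eqn_card (sep κ fun x => ∀ β ∈ γ, x ∈ ap B β)).symm
  rw [hc] at hf
  have h0 : (∅ : M) ∈ κ := hκ.2 _ (mem_om.2 isNat_empty)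
  have h1 : sc (∅ : M) ∈ κ := hκ.2 _ (mem_om.2 isNat_empty.sc)
  refine ⟨ap f ∅, ap f (sc ∅), fun e => ?_, (mem_sep.1 (hf.maps.ap_mem h0)).1,
    (mem_sep.1 (hf.maps.ap_mem h1)).1, fun β T hT => ?_⟩
  · have := hf.inj h0 h1 e
    exact notMem_empty (∅ : M) (by
      have h' := self_mem_sc (∅ : M)
      rwa [← this] at h')
  · rw [rel_iff] at hT
    rw [← hB.ap_eq hT]
    have hβ : β ∈ γ := hd ▸ mem_dom.2 ⟨T, hT⟩
    exact ⟨(mem_sep.1 (hf.maps.ap_mem h0)).2 β hβ, (mem_sep.1 (hf.maps.ap_mem h1)).2 β hβ⟩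

theorem bigUlamWin_of {κ γ : M} (hκ : InfCard κ) (hγ : IsOrd γ) (h : UWin κ γ) :
    BigUlamWin SetModel.E κ γ := by
  obtain ⟨σ, h⟩ := h
  refine ulam_wins hγ h fun a B hB hd hc C hC => ?_
  rw [cap_iff hB, hd] at hC
  rw [hC]
  exact (hasCard_iff hκ.isCard).2 hc

/-! ### the Welch game and the game `G*` -/

theorem welchII_iff {κ α a B X T : M} (hκ : InfCard κ) (hX : IsAlg κ X) (hB : IsFun B)
    (hd : α ⊆ dom B) :
    WelchII SetModel.E κ α a B X T ↔ UltOn κ X T ∧ ∀ β ∈ α, ap B β ⊆ T := by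
  unfold WelchII
  rw [ultra_iff hκ hX]
  refine and_congr_right fun _ => ?_
  simp only [rel_iff]
  constructor
  · exact fun h β hβ => h β _ hβ (hB.op_ap_mem (hd β hβ))
  · intro h β Y hβ hY
    rw [← hB.ap_eq hY]
    exact h β hβ

theorem res_res {A d e : M} (h : e ⊆ d) : res (res A d) e = res A e := by
  unfold res
  apply ext
  intro p
  rw [mem_sep, mem_sep, mem_sep]
  constructor
  · rintro ⟨⟨h1, -⟩, h2⟩
    exact ⟨h1, h2⟩
  · rintro ⟨h1, x, hx, y, e⟩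
    exact ⟨⟨h1, x, h x hx, y, e⟩, x, hx, y, e⟩

theorem welchI_of {κ δ A α d B : M} (hκ : IsCard κ) (hA : WMoves κ δ A) (hα : α ∈ δ)
    (hd : sc α ⊆ d) : WelchI SetModel.E κ α (res A d) B (ap (res A d) α) := by
  obtain ⟨h1, -, h3, h4⟩ := hA
  rw [h1.ap_res (hd α (self_mem_sc α))]
  unfold WelchI
  rw [algebra_iff hκ, hasCard_iff hκ, sing_all_iff]
  refine ⟨(h3 α hα).1, (h3 α hα).2.2, (h3 α hα).2.1, fun β Y hβ hY => ?_⟩
  rw [rel_iff, op_mem_res] at hY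
  rw [← h1.ap_eq hY.1]
  exact h4 α hα β hβ

/-- the answers of a winning strategy are legal -/
theorem welch_ok {κ γ σ : M} (hκ : InfCard κ)
    (hσ : ∀ g T T', op g T ∈ σ → op g T' ∈ σ → T = T')
    (hw : ∀ δ ∈ γ, ∀ a B, IsFun a → dom a = sc δ →
      Play SetModel.E (WelchI SetModel.E κ) (WelchII SetModel.E κ) σ δ a B →
        WelchI SetModel.E κ δ a B (ap a δ) →
          ∃ T, op a T ∈ σ ∧ WelchII SetModel.E κ δ a B (ap a δ) T)
    {δ A : M} (hδ : δ ⊆ γ) (hδo : IsOrd δ) (hA : WMoves κ δ A) :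
    ∀ α ∈ δ, op (res A (sc α)) (gAns σ A α) ∈ σ ∧ UltOn κ (ap A α) (gAns σ A α) ∧
      ∀ β ∈ α, gAns σ A β ⊆ gAns σ A α := by
  have key : ∀ α, IsOrd α → α ∈ δ → op (res A (sc α)) (gAns σ A α) ∈ σ ∧
      UltOn κ (ap A α) (gAns σ A α) ∧ ∀ β ∈ α, gAns σ A β ⊆ gAns σ A α := by
    refine ord_ind _ fun α hαo IH hα => ?_
    have hs : sc α ⊆ δ := hδo.sc_sub_iff.2 hα
    have hdA := hA.2.1
    have ha : IsFun (res A (sc α)) := hA.1.res
    have hd : dom (res A (sc α)) = sc α := by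
      rw [dom_res, hdA]
      apply ext
      intro z
      rw [mem_inter]
      exact ⟨fun h => h.2, fun h => ⟨hs z h, h⟩⟩
    have hap : ∀ β ∈ sc α, ap (res A (sc α)) β = ap A β := fun β hβ => hA.1.ap_res hβ
    have hp : Play SetModel.E (WelchI SetModel.E κ) (WelchII SetModel.E κ) σ α (res A (sc α))
        (lam α fun β => gAns σ A β) := by
      rw [play_iff ha (by rw [hd]; exact sub_sc α)]
      refine ⟨⟨isFun_lam, dom_lam⟩, fun β hβ => ?_⟩
      have hβδ : β ∈ δ := hδo.trans hβ hα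
      have hsβ : sc β ⊆ sc α := by
        intro z hz
        rcases mem_sc.1 hz with h | rfl
        · exact mem_sc.2 (Or.inl (hαo.trans h hβ))
        · exact mem_sc.2 (Or.inl hβ)
      obtain ⟨h1, h2, h3⟩ := IH β hβ hβδ
      refine ⟨welchI_of hκ.isCard hA hβδ hsβ, ?_, ?_⟩
      · rw [ap_lam hβ, hap β (mem_sc.2 (Or.inl hβ)),
          welchII_iff hκ (hA.2.2.1 β hβδ).1 isFun_lam (by rw [dom_lam]; exact hαo.sub_of_mem hβ)]
        refine ⟨h2, fun ξ hξ => ?_⟩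
        rw [ap_lam (hαo.trans hξ hβ)]
        exact h3 ξ hξ
      · rw [ap_lam hβ, res_res hsβ]
        exact h1
    obtain ⟨T, h1, h2⟩ := hw α (hδ α hα) _ _ ha hd hp (welchI_of hκ.isCard hA hα (Sub.refl _))
    have h3 : gAns σ A α = T := the_eq h1 fun _ h4 => hσ _ _ _ h4 h1
    rw [hap α (self_mem_sc α), welchII_iff hκ (hA.2.2.1 α hα).1 isFun_lam
      (by rw [dom_lam]; exact Sub.refl _)] at h2
    rw [h3]
    refine ⟨h1, h2.1, fun β hβ => ?_⟩
    have h4 := h2.2 β hβ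
    rwa [ap_lam hβ] at h4
  exact fun α hα => key α (hδo.mem hα) hα

theorem wWin_of {κ γ : M} (hκ : InfCard κ) (hγ : IsOrd γ) (h : WelchWin SetModel.E κ γ) :
    WWin κ γ := by
  unfold WelchWin at h
  rw [wins_iff] at h
  obtain ⟨σ, hσ, hw, -⟩ := h
  refine ⟨σ, fun δ hδ A hA α hα => ?_⟩
  have hδo := hγ.sc.mem hδ
  exact (welch_ok hκ hσ hw ((hδo.mem_sc_iff hγ).1 hδ) hδo hA α hα).2

theorem play_welch {κ γ σ A : M} (hκ : InfCard κ) (hγ : IsOrd γ) (hA : WMoves κ γ A)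
    (h : ∀ α ∈ γ, op (res A (sc α)) (gAns σ A α) ∈ σ ∧ UltOn κ (ap A α) (gAns σ A α) ∧
      ∀ β ∈ α, gAns σ A β ⊆ gAns σ A α) :
    Play SetModel.E (WelchI SetModel.E κ) (WelchII SetModel.E κ) σ γ A
      (lam γ fun β => gAns σ A β) := by
  have hd := hA.2.1
  rw [play_iff hA.1 (by rw [hd]; exact Sub.refl _)]
  refine ⟨⟨isFun_lam, dom_lam⟩, fun β hβ => ?_⟩
  obtain ⟨h1, h2, h3⟩ := h β hβ
  refine ⟨?_, ?_, ?_⟩
  · have h4 := welchI_of (B := lam γ fun β => gAns σ A β) hκ.isCard hA hβ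
      (hγ.sc_sub_iff.2 hβ)
    rwa [← hd, res_dom hA.1] at h4
  · rw [ap_lam hβ, welchII_iff hκ (hA.2.2.1 β hβ).1 isFun_lam
      (by rw [dom_lam]; exact hγ.sub_of_mem hβ)]
    refine ⟨h2, fun ξ hξ => ?_⟩
    rw [ap_lam (hγ.trans hξ hβ)]
    exact h3 ξ hξ
  · rw [ap_lam hβ]
    exact h1

theorem sWin_of {κ γ : M} (hκ : InfCard κ) (hγ : IsOrd γ) (h : StarWin SetModel.E κ γ) :
    SWin κ γ := by
  unfold StarWin at h
  rw [wins_iff] at h
  obtain ⟨σ, hσ, hw, hF⟩ := h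
  refine ⟨σ, fun δ hδ A hA α hα => ?_, fun A hA => ?_⟩
  · have hδo := hγ.sc.mem hδ
    exact (welch_ok hκ hσ hw ((hδo.mem_sc_iff hγ).1 hδ) hδo hA α hα).2
  · have hok := welch_ok hκ hσ hw (Sub.refl γ) hγ hA
    obtain ⟨D, V, ⟨h1, h2⟩, h3, h4, h5⟩ := hF A _ hA.1 hA.2.1 (play_welch hκ hγ hA hok)
    rw [algebra_iff hκ.isCard] at h1
    rw [ultra_iff hκ h1] at h4
    simp only [rel_iff] at h2 h3 h5
    have hsub : ∀ D', (∀ β Y, op β Y ∈ A → SCC.Sub SetModel.E Y D') ↔ bigU (ran A) ⊆ D' := by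
      intro D'
      constructor
      · intro h s hs
        obtain ⟨y, hy, hs⟩ := mem_bigU.1 hs
        obtain ⟨β, hβ⟩ := mem_ran.1 hy
        exact h β y hβ s hs
      · exact fun h β Y hY s hs => h s (mem_bigU.2 ⟨Y, mem_ran.2 ⟨β, hY⟩, hs⟩)
    rw [hsub] at h2
    have hD : D = gen κ (bigU (ran A)) := by
      refine Sub.antisymm ?_ (gen_sub h1 h2)
      refine h3 _ ((algebra_iff hκ.isCard).2 (isAlg_gen _ _)) ((hsub _).2 (sub_gen ?_))
      exact Sub.trans h2 h1.1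
    rw [← hD]
    refine ⟨V, h4, fun α hα => ?_⟩
    exact h5 α _ (op_mem_lam.2 ⟨hα, rfl⟩)

end

end Pool.Agent.UG
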