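import Pool.Agent.IST.CardExp
import Pool.Agent.IST.AmpT

/-!
# Closure under operations on small sets, below an inaccessible cardinal
-/

set_option synthInstance.maxSize 100000

namespace Pool.Agent.IST

open Pool.Agent.BVM

section

variable {M : Type} [SetModel M] {Γ : Type} [IsCtx Γ M]

/-! ### functions and small subsets of an inaccessible cardinal -/

section

variable {κ : M} (hr : IsReg κ) (hs : IsSLim κ)

include hs

theorem card_pw_mem {a : M} (ha : card a ∈ κ) : card (pw a) ∈ κ := by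
  have h4 : card (pw a) = pow2 (card a) := card_eq_iff.2 (pw_congr (eqn_card a))
  rw [h4]
  exact hs.2 _ ha

theorem card_fns_mem {a b : M} (ha : card a ∈ κ) (hb : card b ∈ κ) : card (fns a b) ∈ κ := by
  refine (isOrd_card _).mem_of_sub_of_mem hs.1.isOrd (card_mono ?_)
    (card_pw_mem hs (card_prod_mem hs.1 ha hb))
  exact fun f hf => mem_pw.2 (mem_fns.1 hf).sub_prod

include hr

theorem leq_fns_inacc {a : M} (ha : card a ∈ κ) : Leq (fns a κ) κ := by
  have h1 : fns a κ ⊆ iU κ fun β => fns a β := by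
    intro f hf
    have hf' := mem_fns.1 hf
    obtain ⟨β, hβ, h⟩ := hr.bdd ha (fun x => ap f x) hf'.2.2
    exact mem_iU.2 ⟨β, hβ, mem_fns.2 ⟨hf'.1, hf'.2.1, h⟩⟩
  refine (leq_of_sub h1).trans (leq_iU hr.infCard _ (Leq.refl κ) fun β hβ => ?_)
  exact leq_of_card_mem hr.isOrd (card_fns_mem hs ha (card_mem_of_mem hr.isCard hβ))

theorem leq_seqs_inacc : Leq (seqs κ κ) κ :=
  leq_seqs hr.infCard (Sub.refl κ) fun _ hα => leq_fns_inacc hr hs (card_mem_of_mem hr.isCard hα)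

/-- the number of small subsets -/
theorem leq_pws_inacc {a : M} (ha : Leq a κ) : Leq (pws κ a) κ := leq_pws (leq_seqs_inacc hr hs) ha

end

/-! ### closure -/

/-- one step of the closure -/
noncomputable def clo1 (κ : M) (O : M → M) (a : M) : M := a ∪ iU (pws κ a) O

/-- iterated closure -/
noncomputable def cloS (κ X : M) (O : M → M) (i : M) : M :=
  erec (fun _ f => clo1 κ O (X ∪ bigU (ran f))) i

section

variable (κ X : M) (O : M → M) [hO : Dff fun γ : E0 M × M => O γ.2]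

include hO in
theorem clo1_dff {Δ : Type} [IsCtx Δ M] {f : Δ → M} [Dff f] : Dff fun γ => clo1 κ O (f γ) := by
  unfold clo1
  have : Dff fun γ : Δ × M => O γ.2 :=
    Dff.lift1 (Γ := E0 M) (F := fun _ => O) (c := fun _ : Δ × M => (⟨⟩ : E0 M))
  infer_instance

theorem cloS_eq {i : M} : cloS κ X O i = clo1 κ O (X ∪ bigU (img i fun j => cloS κ X O j)) := by
  have : Dff fun γ : (E0 M × M) × M => clo1 κ O (X ∪ bigU (ran γ.2)) := clo1_dff κ O
  have hd := erec_slice (G := fun _ f : M => clo1 κ O (X ∪ bigU (ran f)))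
  unfold cloS
  rw [erec_eq]
  congr 3
  exact ran_lam

/-- closure of a set of size at most `κ` under an operation on small sets -/
theorem exists_closed (hr : IsReg κ) (hs : IsSLim κ)
    (hOs : ∀ s, card s ∈ κ → Leq (O s) κ) (hX : Leq X κ) :
    ∃ B : M, X ⊆ B ∧ Leq B κ ∧ (∀ s, s ⊆ B → card s ∈ κ → O s ⊆ B) ∧
      ∀ Y, X ⊆ Y → (∀ s, s ⊆ Y → card s ∈ κ → O s ⊆ Y) → B ⊆ Y := by
  have hd : Dff fun γ : (E0 M × M) × M => clo1 κ O (X ∪ bigU (ran γ.2)) := clo1_dff κ O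
  have hd2 : Dff fun γ : E0 M × M => cloS κ X O γ.2 :=
    erec_slice (G := fun _ f : M => clo1 κ O (X ∪ bigU (ran f)))
  have hd3 : Dff fun γ : (E0 M × M) × M => cloS κ X O γ.2 :=
    Dff.lift1 (Γ := E0 M) (F := fun _ => cloS κ X O) (c := fun _ : (E0 M × M) × M => (⟨⟩ : E0 M))
  have hi := hr.infCard
  have hle : ∀ i, IsOrd i → i ⊆ κ → Leq (cloS κ X O i) κ := by
    refine ord_ind (fun i => i ⊆ κ → Leq (cloS κ X O i) κ) fun i hio ih hik => ?_
    have h1 : Leq (X ∪ bigU (img i fun j => cloS κ X O j)) κ := by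
      refine leq_union hi hX (leq_iU hi _ (leq_of_sub hik) fun j hj => ?_)
      exact ih j hj (Sub.trans (hio.sub_of_mem hj) hik)
    rw [cloS_eq]
    exact leq_union hi h1 (leq_iU hi O (leq_pws_inacc hr hs h1) fun s hs' =>
      hOs s (mem_pws.1 hs').2)
  have hmono : ∀ i j, j ∈ i → cloS κ X O j ⊆ cloS κ X O i := by
    intro i j hj z hz
    rw [cloS_eq κ X O (i := i)]
    exact mem_union.2 (Or.inl (mem_union.2 (Or.inr (mem_iU.2 ⟨j, hj, hz⟩))))
  have hX0 : ∀ i, X ⊆ cloS κ X O i := by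
    intro i z hz
    rw [cloS_eq κ X O (i := i)]
    exact mem_union.2 (Or.inl (mem_union.2 (Or.inl hz)))
  refine ⟨iU κ fun i => cloS κ X O i, fun z hz => ?_, ?_, fun s hsub hsc => ?_,
    fun Y hXY hY => ?_⟩
  · exact mem_iU.2 ⟨∅, empty_mem_of_isLim hi.isLim, hX0 _ z hz⟩
  · exact leq_iU hi _ (Leq.refl κ) fun i hik => hle i (hr.isOrd.mem hik) (hr.isOrd.sub_of_mem hik)
  · have h1 : ∀ z ∈ s, ∃ i ∈ κ, z ∈ cloS κ X O i := fun z hz => mem_iU.1 (hsub z hz)
    obtain ⟨g, hg, hg'⟩ := exists_choice_rel s κ (fun z i => z ∈ cloS κ X O i) h1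
    obtain ⟨β, hβ, h2⟩ := hr.bdd hsc (fun z => ap g z) hg.2.2
    have h3 : s ⊆ X ∪ bigU (img β fun j => cloS κ X O j) := fun z hz =>
      mem_union.2 (Or.inr (mem_iU.2 ⟨_, h2 z hz, hg' z hz⟩))
    intro z hz
    refine mem_iU.2 ⟨β, hβ, ?_⟩
    rw [cloS_eq]
    exact mem_union.2 (Or.inr (mem_iU.2 ⟨s, mem_pws.2 ⟨h3, hsc⟩, hz⟩))
  · have h1 : ∀ i, IsOrd i → i ⊆ κ → cloS κ X O i ⊆ Y := by
      refine ord_ind (fun i => i ⊆ κ → cloS κ X O i ⊆ Y) fun i hio ih hik => ?_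
      have h2 : X ∪ bigU (img i fun j => cloS κ X O j) ⊆ Y := by
        refine union_sub hXY fun z hz => ?_
        obtain ⟨j, hj, hz⟩ := mem_iU.1 hz
        exact ih j hj (Sub.trans (hio.sub_of_mem hj) hik) z hz
      rw [cloS_eq]
      refine union_sub h2 fun z hz => ?_
      obtain ⟨s, hs', hz⟩ := mem_iU.1 hz
      exact hY s (Sub.trans (mem_pws.1 hs').1 h2) (mem_pws.1 hs').2 z hz
    intro z hz
    obtain ⟨i, hik, hz⟩ := mem_iU.1 hz
    exact h1 i (hr.isOrd.mem hik) (hr.isOrd.sub_of_mem hik) z hz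

end

end

end Pool.Agent.IST
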