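import Pool.Agent.IST.Reg
import Pool.Agent.LP.Basic
import Pool.Agent.IST.ChoiceA

/-!
# Internal dependent choice of any length
-/

set_option synthInstance.maxSize 100000

namespace Pool.Agent.IST

open Pool.Agent.BVM

section

variable {M : Type} [SetModel M] {Γ : Type} [IsCtx Γ M]

theorem res_lam {a b : M} (F : M → M) [Dff fun γ : E0 M × M => F γ.2] (h : b ⊆ a) :
    res (lam a F) b = lam b F := by
  apply ext
  intro z
  constructor
  · intro hz
    obtain ⟨x, hx, y, rfl⟩ := (mem_sep.1 hz).2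
    obtain ⟨h1, -⟩ := op_mem_res.1 hz
    exact op_mem_lam.2 ⟨hx, (op_mem_lam.1 h1).2⟩
  · intro hz
    obtain ⟨x, hx, rfl⟩ := mem_lam.1 hz
    exact op_mem_res.2 ⟨op_mem_lam.2 ⟨h x hx, rfl⟩, hx⟩

/-- iteration of a function on sequences -/
noncomputable def dckF (c v : M) : M := erec (fun _ f => ap c f) v

instance dckF.dff {f g : Γ → M} [Dff f] [Dff g] : Dff fun γ => dckF (f γ) (g γ) := by
  unfold dckF
  exact erec.dff (G := fun (γ : Γ) _ k => ap (f γ) k)

theorem dckF_eq (c v : M) : dckF c v = ap c (lam v fun u => dckF c u) := by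
  have hG : Dff fun γ : (E0 M × M) × M => ap c γ.2 := inferInstance
  exact erec_eq (G := fun _ f => ap c f) v

/-- dependent choice of length `κ`: `Rl s y` says that `y` is a good continuation of `s` -/
theorem exists_dck {κ S : M} (hκ : IsOrd κ) (Rl : M → M → Prop)
    [hR : Dfp fun γ : (E0 M × M) × M => Rl γ.1.2 γ.2]
    (h : ∀ v ∈ κ, ∀ s, Maps s v S → (∀ u ∈ v, Rl (res s u) (ap s u)) → ∃ y ∈ S, Rl s y) :
    ∃ F : M, Maps F κ S ∧ ∀ v ∈ κ, Rl (res F v) (ap F v) := by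
  have hR' : ∀ {Δ : Type} [IsCtx Δ M] {a b : Δ → M} [Dff a] [Dff b],
      Dfp fun δ => Rl (a δ) (b δ) := fun {_ _ _ _ _ _} => Dfp.use2 hR
  obtain ⟨c, hc, hc'⟩ := exists_choice_rel
    (sep (seqs κ S) fun s => ∀ u ∈ dom s, Rl (res s u) (ap s u)) S Rl fun s hs => by
      obtain ⟨h1, h2⟩ := mem_sep.1 hs
      obtain ⟨v, hv, h3⟩ := mem_seqs.1 h1
      rw [h3.dom_eq] at h2
      exact h v hv s h3 h2
  have key : ∀ v, v ∈ κ → lam v (fun u => dckF c u) ∈
      sep (seqs κ S) fun s => ∀ u ∈ dom s, Rl (res s u) (ap s u) := by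
    refine mem_ind (fun v => v ∈ κ → lam v (fun u => dckF c u) ∈
      sep (seqs κ S) fun s => ∀ u ∈ dom s, Rl (res s u) (ap s u)) fun v ih hv => ?_
    have h1 : ∀ u ∈ v, dckF c u ∈ S := fun u hu => by
      rw [dckF_eq]
      exact hc.ap_mem (ih u hu (hκ.trans hu hv))
    refine mem_sep.2 ⟨mem_seqs.2 ⟨v, hv, maps_lam h1⟩, fun u hu => ?_⟩
    rw [dom_lam] at hu
    rw [res_lam _ ((hκ.mem hv).sub_of_mem hu), ap_lam hu, dckF_eq]
    exact hc' _ (ih u hu (hκ.trans hu hv))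
  have h1 : ∀ v ∈ κ, dckF c v ∈ S := fun v hv => by
    rw [dckF_eq]
    exact hc.ap_mem (key v hv)
  refine ⟨lam κ fun v => dckF c v, maps_lam h1, fun v hv => ?_⟩
  rw [res_lam _ (hκ.sub_of_mem hv), ap_lam hv, dckF_eq]
  exact hc' _ (key v hv)

end

end Pool.Agent.IST
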