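import Pool.Agent.UG.EndL

/-!
# The deciding lemma
-/

set_option synthInstance.maxSize 100000

namespace Pool.Agent.IST

open Pool.Agent.BVM

section

variable {M : Type} [SetModel M] {m κ U : M}

theorem decL (hκ : IsInacc κ) (hm : m ∈ κ) (hU : Nfu κ κ κ U) : DecL m κ U hκ := by
  classical
  intro f hf u hu nf
  obtain ⟨c, hc, hcu⟩ := hu.bdd hκ
  obtain ⟨hf1, hf2⟩ := mem_RR.1 hf
  have hfa : ∀ a ∈ κ, UCnd m κ (ap f a) := fun a ha => (mem_PU hκ.isOrd).1 (hf1.ap_mem ha)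
  -- deciding extensions
  have h1 : ∀ a ∈ κ, ∃ q ∈ PU m κ, (c ∈ a → u ⊆ q ∧ ap f a ⊆ q ∧
      ((∀ w, UCnd m κ w → q ⊆ w → (UP m κ hκ).Fm w ((UP m κ hκ).chk a) nf) ∨
        ∀ w, UCnd m κ w → q ⊆ w → ¬ (UP m κ hκ).Fm w ((UP m κ hκ).chk a) nf)) := by
    intro a ha
    by_cases hca : c ∈ a
    · have hao := hκ.isOrd.mem ha
      have h2 := hu.union_of hκ hao (hfa a ha) (fun w hw => hao.trans (hcu w hw) hca) (hf2 a ha)
      by_cases h3 : ∃ w, UCnd m κ w ∧ u ∪ ap f a ⊆ w ∧ (UP m κ hκ).Fm w ((UP m κ hκ).chk a) nf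
      · obtain ⟨w, hw, h4, h5⟩ := h3
        refine ⟨w, (mem_PU hκ.isOrd).2 hw, fun _ => ⟨Sub.trans sub_union_left h4,
          Sub.trans sub_union_right h4, Or.inl fun w' hw' h6 => h5.mono ?_⟩⟩
        exact UP_le.2 ⟨hw', hw, h6⟩
      · push Not at h3
        exact ⟨u ∪ ap f a, (mem_PU hκ.isOrd).2 h2, fun _ => ⟨sub_union_left, sub_union_right,
          Or.inr h3⟩⟩
    · exact ⟨∅, (mem_PU hκ.isOrd).2 (ucnd_empty hκ), fun h => absurd h hca⟩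
  obtain ⟨q, hq, hq'⟩ := exists_choice_rel κ (PU m κ) (fun a q => c ∈ a → u ⊆ q ∧ ap f a ⊆ q ∧
      ((∀ w, UCnd m κ w → q ⊆ w → (UP m κ hκ).Fm w ((UP m κ hκ).chk a) nf) ∨
        ∀ w, UCnd m κ w → q ⊆ w → ¬ (UP m κ hκ).Fm w ((UP m κ hκ).chk a) nf)) h1
  have hqa : ∀ a ∈ κ, UCnd m κ (ap q a) := fun a ha => (mem_PU hκ.isOrd).1 (hq.ap_mem ha)
  -- pressing down
  have h2 : Aa U κ fun a => IsInacc a := NMs.aa_inac hU hκ.inf hκ.om_mem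
  have h3 := hU.aa_and h2 (hU.aa_and (hU.aa_fine hm) (hU.aa_fine hc))
  obtain ⟨r, hr, h4⟩ := NMs.press hU hκ.inf (fun a => lo a (ap q a)) (hU.aa_mono h3
    fun a ha h5 => (hqa a ha).lo_mem_Vr ha h5.2.1 h5.1)
  have h5 := hU.aa_and h3 h4
  -- the decision
  have h6 : ∃ Z ∈ U, (∀ a ∈ Z, a ∈ κ ∧ IsInacc a ∧ m ∈ a ∧ c ∈ a ∧ lo a (ap q a) = r) ∧
      ((∀ a ∈ Z, ∀ w, UCnd m κ w → ap q a ⊆ w →
        (UP m κ hκ).Fm w ((UP m κ hκ).chk a) nf) ∨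
      ∀ a ∈ Z, ∀ w, UCnd m κ w → ap q a ⊆ w →
        ¬ (UP m κ hκ).Fm w ((UP m κ hκ).chk a) nf) := by
    by_cases h7 : Aa U κ fun a => ∀ w, UCnd m κ w → ap q a ⊆ w →
        (UP m κ hκ).Fm w ((UP m κ hκ).chk a) nf
    · have h8 := hU.aa_and h5 h7
      refine ⟨_, h8, fun a ha => ?_, Or.inl fun a ha => (mem_sep.1 ha).2.2⟩
      obtain ⟨h9, ⟨h10, h11⟩, h13⟩ := (mem_sep.1 ha)
      exact ⟨h9, h10.1, h10.2.1, h10.2.2, h11⟩
    · have h8 := hU.aa_and h5 (hU.aa_not.2 h7)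
      refine ⟨_, h8, fun a ha => ?_, Or.inr fun a ha => ?_⟩
      · obtain ⟨h9, ⟨h10, h11⟩, h13⟩ := (mem_sep.1 ha)
        exact ⟨h9, h10.1, h10.2.1, h10.2.2, h11⟩
      · obtain ⟨h9, ⟨h10, h11⟩, h13⟩ := (mem_sep.1 ha)
        exact ((hq' a h9 h10.2.2).2.2).resolve_left h13
  obtain ⟨Z, hZ, hZ1, hZ2⟩ := h6
  obtain ⟨a0, ha0, ha0'⟩ := hU.aa_ex (φ := fun a => a ∈ Z) (hU.up hZ
    (fun x hx => mem_sep.2 ⟨hU.2.1 _ hZ x hx, hx⟩) fun x hx => (mem_sep.1 hx).1)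
  have hrc : UCnd m κ r := by
    rw [← (hZ1 a0 ha0').2.2.2.2]
    exact (hqa a0 ha0).sub hκ lo_sub
  have hur : u ⊆ r := by
    intro w hw
    rw [← (hZ1 a0 ha0').2.2.2.2]
    exact mem_lo.2 ⟨(hq' a0 ha0 (hZ1 a0 ha0').2.2.2.1).1 w hw,
      (hκ.isOrd.mem ha0).trans (hcu w hw) (hZ1 a0 ha0').2.2.2.1⟩
  have hd : Dff fun γ : E0 M × M => if γ.2 ∈ Z then hi γ.2 (ap q γ.2) else ap f γ.2 :=
    inferInstance
  have hqr : ∀ a ∈ Z, r ∪ hi a (ap q a) = ap q a := fun a ha => by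
    obtain ⟨h7, -, -, -, h8⟩ := hZ1 a ha
    have h9 := (hqa a h7).lo_union_hi (hκ.isOrd.mem h7)
    rwa [h8] at h9
  refine ⟨r, hrc, hur, lam κ fun a => if a ∈ Z then hi a (ap q a) else ap f a,
    mem_RR.2 ⟨maps_lam fun a ha => (mem_PU hκ.isOrd).2 ?_, fun a ha => ?_⟩, fun a ha => ?_,
    Z, hZ, ?_⟩
  · split_ifs
    · exact (hqa a ha).sub hκ hi_sub
    · exact hfa a ha
  · rw [ap_lam ha]
    split_ifs
    · exact lo_hi
    · exact hf2 a ha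
  · rw [ap_lam ha]
    split_ifs with h7
    · intro w hw
      obtain ⟨h8, -, -, h9, -⟩ := hZ1 a h7
      refine mem_hi.2 ⟨(hq' a h8 h9).2.1 w hw, ?_⟩
      have h10 := (hfa a ha).lo_union_hi (hκ.isOrd.mem ha)
      rw [hf2 a ha] at h10
      rw [← h10] at hw
      rcases mem_union.1 hw with h11 | h11
      · exact absurd h11 (notMem_empty w)
      · exact (mem_hi.1 h11).2
    · exact Sub.refl _
  · rcases hZ2 with h7 | h7
    · refine Or.inl fun a ha w hw h8 h9 => h7 a ha w hw ?_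
      rw [ap_lam (hZ1 a ha).1, if_pos ha] at h9
      rw [← hqr a ha]
      exact union_sub h8 h9
    · refine Or.inr fun a ha w hw h8 h9 => h7 a ha w hw ?_
      rw [ap_lam (hZ1 a ha).1, if_pos ha] at h9
      rw [← hqr a ha]
      exact union_sub h8 h9

end

end Pool.Agent.IST
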