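import Pool.Agent.UG.UlamG

/-!
# Conditions are compatible with almost all values of the functions in `RR`
-/

set_option synthInstance.maxSize 100000

namespace Pool.Agent.IST

open Pool.Agent.BVM

section

variable {M : Type} [SetModel M] {m κ U : M}

/-- the coordinates of a condition are bounded -/
theorem UCnd.bdd (hκ : IsInacc κ) {u : M} (hu : UCnd m κ u) : ∃ c ∈ κ, ∀ w ∈ u, p1 (p1 w) ∈ c := by
  refine hκ.reg.bdd hu.2.2.2.2 (fun w => p1 (p1 w)) fun w hw => ?_
  obtain ⟨a, ha, -, -, e, -, v, -, rfl, -⟩ := hu.mem_iff hw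
  rwa [p1_op, p1_op]

/-- a condition with coordinates `< a` and a condition with coordinates `≥ a` -/
theorem UCnd.union_of (hκ : IsInacc κ) {u f a : M} (ha : IsOrd a) (hu : UCnd m κ u)
    (hf : UCnd m κ f) (h1 : ∀ w ∈ u, p1 (p1 w) ∈ a) (h2 : lo a f = ∅) : UCnd m κ (u ∪ f) := by
  have h3 := hu.glue hκ hf (η := a)
  have e1 : lo a u = u := by
    apply ext; intro w
    rw [mem_lo]
    exact ⟨fun h => h.1, fun h => ⟨h, h1 w h⟩⟩
  have e2 : hi a f = f := by
    have h4 := hf.lo_union_hi ha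
    rw [h2] at h4
    apply ext; intro w
    constructor
    · exact fun h => hi_sub w h
    · intro h
      rw [← h4] at h
      rcases mem_union.1 h with h | h
      · exact absurd h (notMem_empty w)
      · exact h
  rwa [e1, e2] at h3

theorem endL (hκ : IsInacc κ) (hU : Nfu κ κ κ U) : EndL m κ U := by
  intro f hf Z hZ b hb u hu
  obtain ⟨c, hc, hcu⟩ := hu.bdd hκ
  obtain ⟨hf1, hf2⟩ := mem_RR.1 hf
  have h1 : Aa U κ fun a => a ∈ Z := hU.up hZ
    (fun x hx => mem_sep.2 ⟨hU.2.1 _ hZ x hx, hx⟩) fun x hx => (mem_sep.1 hx).1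
  obtain ⟨a, ha, ⟨h2, h3⟩, h4⟩ :=
    hU.aa_ex (hU.aa_and (hU.aa_and (hU.aa_fine hb) (hU.aa_fine hc)) h1)
  have hao := hκ.isOrd.mem ha
  have hfa := (mem_PU hκ.isOrd).1 (hf1.ap_mem ha)
  exact ⟨a, h4, h2, u ∪ ap f a, hu.union_of hκ hao hfa (fun w hw => hao.trans (hcu w hw) h3)
    (hf2 a ha), sub_union_left, sub_union_right⟩

end

end Pool.Agent.IST
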