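import Pool.Agent.SCC.LS
import Pool.Agent.UG.Defs

/-!
# A countable model of ZFC with a measurable cardinal
-/

namespace Pool.Agent.UG

open Pool.Agent.BVM Pool.Agent.SCC

/-- formula of `Measure` -/
def fMeasure (k W : ℕ) : Fml :=
  .and (.all (.imp (.mem 0 (W + 1)) (fSub 0 (k + 1)))) <|
  .and (.all (.all (.imp (.mem 1 (W + 2)) (.imp (fSub 1 0) (.imp (fSub 0 (k + 2))
    (.mem 0 (W + 2))))))) <|
  .and (.all (.all (.imp (fSub 1 (k + 2)) (.imp (.all (.iff (.mem 0 1) (.and (.mem 0 (k + 3))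
    (.neg (.mem 0 2))))) (.iff (.mem 0 (W + 2)) (.neg (.mem 1 (W + 2)))))))) <|
  .and (.all (.all (.imp (.mem 1 (k + 2)) (.imp (fFunOn 0 1)
    (.imp (.all (.all (.imp (fRel 2 1 0) (.mem 0 (W + 4)))))
    (.all (.imp (.all (.iff (.mem 0 1) (.and (.mem 0 (k + 4))
      (.all (.all (.imp (fRel 4 1 0) (.mem 2 0))))))) (.mem 0 (W + 3))))))))) <|
  .all (.all (.imp (.mem 1 (k + 2)) (.imp (fUPair 0 1 1) (.neg (.mem 0 (W + 2))))))

/-- formula of `Measurable` -/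
def fMeasurable (k : ℕ) : Fml :=
  .and (fCardl k) (.and (.ex (.and (fOmega 0) (.mem 0 (k + 1)))) (.ex (fMeasure (k + 1) 0)))

section

variable {M : Type*} (E : M → M → Prop) (v : ℕ → M)

theorem sat_fMeasure (k W : ℕ) : Sat E (fMeasure k W) v ↔ Measure E (v k) (v W) := by
  constructor
  · rintro ⟨h1, h2, h3, h4, h5⟩
    exact ⟨h1, h2, h3, h4, h5⟩
  · rintro ⟨h1, h2, h3, h4, h5⟩
    exact ⟨h1, h2, h3, h4, h5⟩

theorem sat_fMeasurable (k : ℕ) : Sat E (fMeasurable k) v ↔ Measurable E (v k) :=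
  and_congr Iff.rfl (and_congr Iff.rfl (exists_congr fun _ => sat_fMeasure E _ _ _))

end

universe u

/-- a countable model of ZFC with a measurable cardinal -/
theorem exists_countable_measurable {M : Type u} {E : M → M → Prop} (hz : ZFC E)
    (hs : ∃ κ, Measurable E κ) : ∃ (N : Type) (_ : Countable N) (E' : N → N → Prop),
      ZFC E' ∧ ∃ κ, Measurable E' κ := by
  obtain ⟨κ, hκ⟩ := hs
  have : Nonempty M := ⟨κ⟩
  obtain ⟨N, hN, ⟨n₀⟩, E', f, hf⟩ := exists_countable E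
  refine ⟨N, hN, E', zfc_of_elementary f hf ⟨n₀⟩ hz, ?_⟩
  have h1 : Sat E' (.ex (fMeasurable 0)) fun _ => n₀ :=
    (hf (.ex (fMeasurable 0)) fun _ => n₀).2 ⟨κ, (sat_fMeasurable E _ 0).2 hκ⟩
  obtain ⟨x, hx⟩ := h1
  exact ⟨x, (sat_fMeasurable E' _ 0).1 hx⟩

end Pool.Agent.UG
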