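import Pool.Agent.UG.ReadS

/-!
# Inaccessible cardinals in the extension
-/

set_option synthInstance.maxSize 100000

namespace Pool.Agent.IST

open Pool.Agent.BVM

namespace TEmb

variable {M N : Type} [SetModel M] [SetModel N] {f : M → N} (h : TEmb f)

include h

/-- inaccessibility is downward absolute -/
theorem isInacc_of {x : M} (hx : IsInacc (f x)) : IsInacc x := by
  have hc := h.isCard_of hx.isCard
  refine ⟨h.isReg_of hx.reg, ?_, fun a ha => ?_⟩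
  · rw [← h.mem, h.om]
    exact hx.om_mem
  · have h1 : pow2 (f a) ∈ f x := hx.2.2 _ (h.mem.2 ha)
    unfold pow2 at h1 ⊢
    rw [card_mem_iff_not_leq hc]
    rw [card_mem_iff_not_leq hx.isCard] at h1
    exact fun h2 => h1 ((h.leq h2).trans (leq_of_sub h.pw_sub))

/-- an upper bound for a cardinality in the extension -/
theorem card_mem {x a : M} {b : N} (hx : IsCard (f x)) (ha : card a ∈ x) (hb : Leq b (f a)) :
    card b ∈ f x := by
  have h1 : Leq b (f (card a)) := hb.trans (h.eqn (eqn_card a)).leq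
  have h2 : f (card a) ∈ f x := h.mem.2 ha
  have h3 : card b ⊆ card (f (card a)) := card_sub_iff.2 h1
  have h4 : card (f (card a)) ⊆ f (card a) := card_sub_self (h.isOrd.2 (isOrd_card a))
  exact (isOrd_card b).mem_of_sub_of_mem hx.isOrd (Sub.trans h3 h4) h2

end TEmb

namespace Gen

variable {M : Type} [SetModel M] [GCh M]

/-- preservation of regular cardinals, from bounds of functions -/
theorem isReg_of_bdd {P : LPo M} (G : Gen P) {χ : M} (hχ : IsLim χ)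
    (h : ∀ m ∈ χ, ∀ f : G.Ext, Maps f (G.io m) (G.io χ) →
      ∃ β ∈ χ, ∀ e ∈ m, ap f (G.io e) ∈ G.io β) : IsReg (G.io χ) := by
  have hlim : IsLim (G.io χ) := G.temb.isLim.2 hχ
  have hreg := isReg_cof hlim
  obtain ⟨h1, h2, ⟨f, hf, hfc⟩, -⟩ := cof_spec hlim.1
  rcases (h1.sub_iff hlim.1).1 h2 with h3 | h3
  · exfalso
    obtain ⟨m, hm, h4⟩ := G.io_tr h3
    rw [h4] at hf hfc
    obtain ⟨β, hβ, h5⟩ := h m hm f hf
    obtain ⟨ξ, hξ, h6⟩ := hfc (G.io β) (G.io_mem.2 hβ)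
    obtain ⟨e, he, rfl⟩ := G.io_tr hξ
    exact mem_irrefl _ (h6 _ (h5 e he))
  · rwa [h3] at hreg

variable {l κ : M} {hκ : IsInacc κ} (G : Gen (UP l κ hκ))

/-- `κ` is regular in the extension -/
theorem isReg_k (hl : IsOrd l) : IsReg (G.io κ) := by
  refine G.isReg_of_bdd hκ.lim fun m hm f hf => ?_
  have hmo : IsOrd m := hκ.isOrd.mem hm
  obtain ⟨B, hB, hB', h1⟩ := G.cover_fun hl hm (sm_of_leq hκ hm (Leq.refl m)) hf
  have h2 : bigU B ∈ κ := hκ.reg.bigU_mem hB'.1 hB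
  refine ⟨sc (bigU B), hκ.lim.2.2 _ h2, fun e he => ?_⟩
  obtain ⟨v, hv, h3⟩ := h1 e he
  rw [h3, G.io_mem, (hκ.isOrd.mem (hB v hv)).mem_sc_iff (hκ.isOrd.mem h2)]
  exact sub_bigU hv

/-- the number of subsets in the extension of a set of the ground model -/
theorem leq_pw_E (hl : IsOrd l) {ξ E : M} (hξ : ξ ∈ κ) (hE : Sm l κ ξ E) :
    Leq (pw (G.io E)) (G.io (pw (prod (PLo l κ (sc ξ)) E))) := by
  obtain ⟨g, hg⟩ := G.exists_filter (isOrd_empty (M := M))
  have hgm : ∀ r, G.G r → G.io r ∈ g := fun r hr => (hg _).2 ⟨r, G.cd hr, hr, rfl⟩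
  refine leq_of_surj (fun R => sep (G.io E) fun y => ∃ r ∈ g, op r y ∈ R) fun x hx => ?_
  obtain ⟨R, hR, h1⟩ := G.read_set hl hξ hE (X := x)
  refine ⟨G.io R, G.io_mem.2 (mem_pw.2 hR), ?_⟩
  apply ext
  intro z
  rw [mem_sep]
  constructor
  · rintro ⟨hz, r, hr, hzr⟩
    obtain ⟨y, hy, rfl⟩ := G.io_tr hz
    obtain ⟨s, hs, hsG, rfl⟩ := (hg r).1 hr
    exact (h1 y hy).2 ⟨s, hsG, G.temb.op_mem.1 hzr⟩
  · intro hz
    have hza := mem_pw.1 hx z hz
    obtain ⟨y, hy, rfl⟩ := G.io_tr hza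
    obtain ⟨r, hr, hyr⟩ := (h1 y hy).1 hz
    exact ⟨hza, G.io r, hgm r hr, G.temb.op_mem.2 hyr⟩

/-- `κ` is inaccessible in the extension -/
theorem isInacc_k (hl : IsOrd l) : IsInacc (G.io κ) := by
  have hreg := G.isReg_k hl
  refine ⟨hreg, ?_, fun α hα => ?_⟩
  · rw [← G.temb.om, G.io_mem]
    exact hκ.om_mem
  · obtain ⟨a, ha, rfl⟩ := G.io_tr hα
    refine G.temb.card_mem hreg.isCard ?_
      (G.leq_pw_E hl ha (sm_of_leq hκ ha (Leq.refl a)))
    exact hκ.card_pw (hκ.card_prod (card_PLo hκ (hκ.lim.2.2 _ ha) hκ) (hκ.card_mem ha))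

omit [GCh M] in
theorem PLo_sc_l (hκ : IsInacc κ) (hl : IsOrd l) : PLo l κ (sc l) ⊆ sing ∅ := fun p hp => by
  obtain ⟨h1, h2⟩ := (mem_PLo hκ.isOrd).1 hp
  rw [← h2, h1.lo_eq_empty hl]
  exact mem_sing.2 rfl

/-- `l` stays inaccessible -/
theorem isInacc_l (hlk : l ∈ κ) (hl : IsInacc l) : IsInacc (G.io l) := by
  have hreg : IsReg (G.io l) := by
    refine G.isReg_of_bdd hl.lim fun m hm f hf => ?_
    have hml : Leq m l := leq_of_sub (hl.isOrd.sub_of_mem hm)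
    obtain ⟨f₀, hf₀, rfl⟩ := G.no_new hlk (sm_of_leq hκ hlk hml) hf
    obtain ⟨β, hβ, h1⟩ := hl.reg.2 m hm f₀ hf₀
    refine ⟨β, hβ, fun e he => ?_⟩
    rw [← G.temb.ap', G.io_mem]
    exact h1 e he
  refine ⟨hreg, ?_, fun α hα => ?_⟩
  · rw [← G.temb.om, G.io_mem]
    exact hl.om_mem
  · obtain ⟨a, ha, rfl⟩ := G.io_tr hα
    have hal : Leq a l := leq_of_sub (hl.isOrd.sub_of_mem ha)
    refine G.temb.card_mem hreg.isCard ?_ (G.leq_pw_E hl.isOrd hlk (sm_of_leq hκ hlk hal))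
    exact hl.card_pw (hl.card_prod (hl.card_sub (PLo_sc_l hκ hl.isOrd) hl.card_sing)
      (hl.card_mem ha))

/-- inaccessible cardinals of the extension are inaccessible in the ground model -/
theorem isInacc_of {x : M} (hx : IsInacc (G.io x)) : IsInacc x := G.temb.isInacc_of hx

end Gen

end Pool.Agent.IST
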