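import Pool.Agent.UG.Alg

/-!
# The Welch game, the game `G*` and the Ulam game in a model of ZFC

A strategy of player II is a function `σ` on the sequences of the moves of player I; the answer at
stage `α` is `ap σ (res A (sc α))`, where `A` is the sequence of the moves of player I.
-/

set_option synthInstance.maxSize 100000

namespace Pool.Agent.IST

open Pool.Agent.BVM

section

variable {M : Type} [SetModel M] {Γ : Type} [IsCtx Γ M]

/-- the answer of `σ` at stage `α` -/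
noncomputable def gAns (σ A α : M) : M := ap σ (res A (sc α))

instance gAns.dff {f g h : Γ → M} [Dff f] [Dff g] [Dff h] :
    Dff fun γ => gAns (f γ) (g γ) (h γ) := by unfold gAns; infer_instance

/-- a legal sequence of length `δ` of moves of player I in the Welch game -/
def WMoves (κ δ A : M) : Prop := IsFun A ∧ dom A = δ ∧
  (∀ α ∈ δ, IsAlg κ (ap A α) ∧ (∀ ξ ∈ κ, sing ξ ∈ ap A α) ∧ card (ap A α) = κ) ∧
  ∀ α ∈ δ, ∀ β ∈ α, ap A β ⊆ ap A α

instance WMoves.dfp {f g h : Γ → M} [Dff f] [Dff g] [Dff h] :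
    Dfp fun γ => WMoves (f γ) (g γ) (h γ) := by unfold WMoves; infer_instance

/-- the answers of `σ` are legal -/
def WOk (κ δ σ A : M) : Prop := ∀ α ∈ δ, UltOn κ (ap A α) (gAns σ A α) ∧
  ∀ β ∈ α, gAns σ A β ⊆ gAns σ A α

instance WOk.dfp {f g h k : Γ → M} [Dff f] [Dff g] [Dff h] [Dff k] :
    Dfp fun γ => WOk (f γ) (g γ) (h γ) (k γ) := by unfold WOk; infer_instance

/-- player II has a winning strategy in the Welch game of length `γ` -/
def WWin (κ γ : M) : Prop := ∃ σ, ∀ δ ∈ sc γ, ∀ A, WMoves κ δ A → WOk κ δ σ A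

/-- player II has a winning strategy in the game `G*` of length `γ` -/
def SWin (κ γ : M) : Prop := ∃ σ, (∀ δ ∈ sc γ, ∀ A, WMoves κ δ A → WOk κ δ σ A) ∧
  ∀ A, WMoves κ γ A → ∃ V, UltOn κ (gen κ (bigU (ran A))) V ∧ ∀ α ∈ γ, gAns σ A α ⊆ V

/-- the set which is left before stage `δ` in the Ulam game -/
noncomputable def uCap (κ σ a δ : M) : M := sep κ fun x => ∀ β ∈ δ, x ∈ gAns σ a β

instance uCap.dff {f g h k : Γ → M} [Dff f] [Dff g] [Dff h] [Dff k] :
    Dff fun γ => uCap (f γ) (g γ) (h γ) (k γ) := by unfold uCap; infer_instance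

/-- `a` is a legal sequence of length `δ` of moves of player I against `σ` in the Ulam game:
`ap a α` is a partition `op X Y` of the set which is left before stage `α` -/
def UMoves (κ δ σ a : M) : Prop := IsFun a ∧ dom a = δ ∧
  ∀ α ∈ δ, ∃ X Y, ap a α = op X Y ∧ X ∪ Y = uCap κ σ a α ∧ X ∩ Y = ∅

instance UMoves.dfp {f g h k : Γ → M} [Dff f] [Dff g] [Dff h] [Dff k] :
    Dfp fun γ => UMoves (f γ) (g γ) (h γ) (k γ) := by unfold UMoves; infer_instance

/-- player II has a winning strategy in the Ulam game of length `γ`, even with the requirement that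
the intersection has cardinality `κ` -/
def UWin (κ γ : M) : Prop := ∃ σ, ∀ δ ∈ sc γ, ∀ a, UMoves κ δ σ a →
  (∀ α ∈ δ, gAns σ a α = p1 (ap a α) ∨ gAns σ a α = p2 (ap a α)) ∧ card (uCap κ σ a δ) = κ

/-- inaccessible cardinals -/
def IsInacc (κ : M) : Prop := IsReg κ ∧ om ∈ κ ∧ ∀ α ∈ κ, pow2 α ∈ κ

instance IsInacc.dfp {f : Γ → M} [Dff f] : Dfp fun γ => IsInacc (f γ) := by
  unfold IsInacc; infer_instance

/-- `κ` is weakly compact: every `κ`-complete algebra of size `κ` has a uniform `κ`-complete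
ultrafilter -/
def WCpt (κ : M) : Prop := IsInacc κ ∧
  ∀ A, IsAlg κ A → (∀ ξ ∈ κ, sing ξ ∈ A) → card A = κ → ∃ W, UltOn κ A W

/-- closed unbounded subsets of `κ` -/
def Club (κ C : M) : Prop := C ⊆ κ ∧ (∀ β ∈ κ, ∃ ξ ∈ C, β ∈ ξ) ∧
  ∀ ξ ∈ κ, IsLim ξ → (∀ β ∈ ξ, ∃ η ∈ C, β ∈ η ∧ η ∈ ξ) → ξ ∈ C

/-- `κ` is not ineffable: there is a sequence `s` of sets `ap s ξ ⊆ ξ` (`ξ < κ` inaccessible) such
that for every `g ⊆ κ` there is `h : κ → κ` with `ap s ξ ≠ g ∩ ξ` for all inaccessible `ξ < κ`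
which are closed under `h` -/
def NotIneff (κ : M) : Prop := ∃ s : M, (∀ ξ ∈ κ, ap s ξ ⊆ ξ) ∧ ∀ g, g ⊆ κ → ∃ h, Maps h κ κ ∧
  ∀ ξ ∈ κ, IsInacc ξ → (∀ e ∈ ξ, ap h e ∈ ξ) → ap s ξ ≠ g ∩ ξ

end

end Pool.Agent.IST
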