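import Pool.Agent.UG.Inacc
import Pool.Agent.UG.Game

/-!
# `κ` is not ineffable in the generic extension by the Easton product
-/

set_option synthInstance.maxSize 100000

namespace Pool.Agent.IST

open Pool.Agent.BVM

section

variable {M : Type} [SetModel M] {Γ : Type} [IsCtx Γ M]

theorem ni_insert {l κ p a e v : M} (hκ : IsInacc κ) (hp : UCnd l κ p) (ha : a ∈ κ) (hl : l ∈ a)
    (hi : IsInacc a) (he : e ∈ a) (hn : op a e ∉ dom p) (hv : v ∈ (two : M)) :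
    UCnd l κ (p ∪ sing (op (op a e) v)) := by
  have hf : IsFun (p ∪ sing (op (op a e) v)) := by
    refine ⟨fun w hw => ?_, fun x y y' h1 h2 => ?_⟩
    · rcases mem_union.1 hw with hw | hw
      · exact hp.1.1 w hw
      · exact ⟨_, _, mem_sing.1 hw⟩
    · rcases mem_union.1 h1 with h3 | h3 <;> rcases mem_union.1 h2 with h4 | h4
      · exact hp.1.2 x y y' h3 h4
      · rw [(op_inj.1 (mem_sing.1 h4)).1] at h3
        exact absurd (mem_dom.2 ⟨_, h3⟩) hn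
      · rw [(op_inj.1 (mem_sing.1 h3)).1] at h4
        exact absurd (mem_dom.2 ⟨_, h4⟩) hn
      · rw [(op_inj.1 (mem_sing.1 h3)).2, (op_inj.1 (mem_sing.1 h4)).2]
  have hd : ∀ x ∈ dom (p ∪ sing (op (op a e) v)), x ∈ dom p ∨ x = op a e := fun x hx => by
    obtain ⟨y, hy⟩ := mem_dom.1 hx
    rcases mem_union.1 hy with hy | hy
    · exact Or.inl (mem_dom.2 ⟨_, hy⟩)
    · exact Or.inr (op_inj.1 (mem_sing.1 hy)).1
  refine ⟨hf, fun x hx => ?_, fun x hx => ?_, fun b hb hlb hib => ?_, ?_⟩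
  · rcases hd x hx with h | rfl
    · exact hp.2.1 x h
    · exact ⟨a, ha, hl, hi, e, he, rfl⟩
  · rcases hd x hx with h | rfl
    · rw [hf.ap_eq (mem_union.2 (Or.inl (hp.1.op_ap_mem h)))]
      exact hp.2.2.1 x h
    · rw [hf.ap_eq (mem_union.2 (Or.inr (mem_sing.2 rfl)))]
      exact hv
  · rw [lo_union]
    exact hib.card_union (hp.2.2.2.1 b hb hlb hib) (hib.card_sub lo_sub hib.card_sing)
  · exact hκ.card_union hp.2.2.2.2 hκ.card_sing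

/-- there is a free place in the coordinate `a` -/
theorem UCnd.ni_free {l κ p a : M} (hp : UCnd l κ p) (ha : a ∈ κ) (hl : l ∈ a)
    (hi : IsInacc a) : ∃ e ∈ a, op a e ∉ dom p := by
  by_contra hc
  have h1 : ∀ e ∈ a, op a e ∈ dom p := fun e he => by
    by_contra h
    exact hc ⟨e, he, h⟩
  have h2 := hp.2.2.2.1 a ha hl hi
  have h3 : Leq a (lo (sc a) p) := by
    refine ⟨lam a fun e => op (op a e) (ap p (op a e)), maps_lam fun e he => mem_lo.2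
      ⟨hp.1.op_ap_mem (h1 e he), ?_⟩, fun x hx y hy hxy => ?_⟩
    · rw [p1_op, p1_op]
      exact self_mem_sc a
    · rw [dom_lam] at hx hy
      rw [ap_lam hx, ap_lam hy] at hxy
      exact (op_inj.1 (op_inj.1 hxy).1).2
  have h4 := hi.card_leq h3 h2
  rw [hi.isCard.card_eq] at h4
  exact mem_irrefl _ h4

/-- `p` decides `e ∈ x` -/
def NiDec (P : LPo M) (x p e : M) : Prop :=
  P.Fm p (P.chk e) x ∨ ∀ u, P.le u p → ¬ P.Fm u (P.chk e) x

instance NiDec.dfp {P : LPo M} {f g h : Γ → M} [Dff f] [Dff g] [Dff h] :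
    Dfp fun γ => NiDec P (f γ) (g γ) (h γ) := by
  unfold NiDec; infer_instance

theorem NiDec.mono {P : LPo M} {x p q e : M} (h : NiDec P x p e) (hq : P.le q p) : NiDec P x q e :=
  h.imp (fun h => h.mono hq) fun h u hu => h u (P.le_trans hu hq)

end

namespace Gen

section

variable {M : Type} [SetModel M] [GCh M] {l κ : M} {hκ : IsInacc κ} (G : Gen (UP l κ hκ))

/-- the density argument -/
theorem ni_key {x a : M} (ha : a ∈ κ) (hl : l ∈ a) (hia : IsInacc a)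
    (h1 : ∀ e ∈ a, ∃ r, G.G r ∧ lo a r = r ∧ NiDec (UP l κ hκ) x r e)
    (h2 : ∀ e ∈ a, G.io e ∈ G.nm x ↔ ∃ r, G.G r ∧ op (op a e) (sc ∅) ∈ r) : False := by
  let P := UP l κ hκ
  obtain ⟨p₀, hp₀, hA⟩ := G.meets (fun p => (∃ e ∈ a, ∀ q, P.le q p → ¬ NiDec P x (lo a q) e) ∨
      ∀ e ∈ a, ∀ q, P.le q p → ∃ q', P.le q' q ∧ NiDec P x (lo a q') e) inferInstance
    (fun p hp => by
      by_cases h : ∃ e ∈ a, ∃ q, P.le q p ∧ ∀ q', P.le q' q → ¬ NiDec P x (lo a q') e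
      · obtain ⟨e, he, q, hq, h3⟩ := h
        exact ⟨q, hq, Or.inl ⟨e, he, h3⟩⟩
      · refine ⟨p, UP_le.2 ⟨UP_cd.1 hp, UP_cd.1 hp, Sub.refl p⟩, Or.inr fun e he q hq => ?_⟩
        by_contra hc
        exact h ⟨e, he, q, hq, fun q' hq' h4 => hc ⟨q', hq', h4⟩⟩)
  rcases hA with ⟨e, he, h3⟩ | hA
  · obtain ⟨r, hr, hr', h4⟩ := h1 e he
    obtain ⟨q, hq, h5, h6⟩ := G.dir hp₀ hr
    refine h3 q h5 (h4.mono (UP_le.2 ⟨(G.ucnd hq).sub hκ lo_sub, G.ucnd hr, ?_⟩))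
    rw [← hr']
    exact lo_mono (UP_le.1 h6).2.2
  obtain ⟨q, hq, -, e, he, hB⟩ := G.meets_below hp₀ (fun q => ∃ e ∈ a,
      (P.Fm (lo a q) (P.chk e) x ∧ op (op a e) ∅ ∈ q) ∨
        ((∀ u, P.le u (lo a q) → ¬ P.Fm u (P.chk e) x) ∧ op (op a e) (sc ∅) ∈ q)) (fun q hq => by
    obtain ⟨hqc, hpc, -⟩ := UP_le.1 hq
    obtain ⟨e, he, hn⟩ := hqc.ni_free ha hl hia
    obtain ⟨q', hq', h3⟩ := hA e he q hq
    obtain ⟨hqc', -, hqq'⟩ := UP_le.1 hq'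
    have hg := hqc'.glue hκ hqc (η := a)
    have hn' : op a e ∉ dom (lo a q' ∪ hi a q) := fun h => by
      obtain ⟨y, hy⟩ := mem_dom.1 h
      rcases mem_union.1 hy with hy | hy
      · have := (mem_lo.1 hy).2
        rw [p1_op, p1_op] at this
        exact mem_irrefl _ this
      · exact hn (mem_dom.2 ⟨y, hi_sub _ hy⟩)
    have key : ∀ v ∈ (two : M), ∃ r, P.le r q ∧ lo a r = lo a q' ∧ op (op a e) v ∈ r := by
      intro v hv
      refine ⟨(lo a q' ∪ hi a q) ∪ sing (op (op a e) v), UP_le.2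
        ⟨ni_insert hκ hg ha hl hia he hn' hv, hqc, ?_⟩, ?_, mem_union.2 (Or.inr (mem_sing.2 rfl))⟩
      · refine Sub.trans ?_ sub_union_left
        have e1 : q = lo a q ∪ hi a q := (hqc.lo_union_hi hia.isOrd).symm
        rw [e1]
        refine union_sub (Sub.trans (lo_mono hqq') sub_union_left) ?_
        rw [← e1]
        exact sub_union_right
      · rw [lo_union, lo_union, lo_lo, lo_hi]
        apply ext; intro w
        rw [mem_union, mem_union, mem_lo (p := sing _)]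
        constructor
        · rintro ((h | h) | ⟨h, h'⟩)
          · exact h
          · exact absurd h (notMem_empty _)
          · rw [mem_sing.1 h, p1_op, p1_op] at h'
            exact absurd h' (mem_irrefl _)
        · exact fun h => Or.inl (Or.inl h)
    rcases h3 with h3 | h3
    · obtain ⟨r, hr, e2, h4⟩ := key ∅ (mem_two.2 (Or.inl rfl))
      exact ⟨r, hr, e, he, Or.inl ⟨by rw [e2]; exact h3, h4⟩⟩
    · obtain ⟨r, hr, e2, h4⟩ := key (sc ∅) (mem_two.2 (Or.inr rfl))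
      exact ⟨r, hr, e, he, Or.inr ⟨by rw [e2]; exact h3, h4⟩⟩)
  rcases hB with ⟨h3, h4⟩ | ⟨h3, h4⟩
  · obtain ⟨r, hr, h5⟩ := (h2 e he).1 (G.mem_nm.2 ⟨_, G.g_sub hq lo_sub, h3⟩)
    have h6 := (G.ucnd (G.g_union hq hr)).1.2 _ _ _ (mem_union.2 (Or.inl h4))
      (mem_union.2 (Or.inr h5))
    have h7 : (∅ : M) ∈ sc ∅ := self_mem_sc _
    rw [← h6] at h7
    exact notMem_empty _ h7
  · obtain ⟨t, ht, h5⟩ := G.mem_nm.1 ((h2 e he).2 ⟨q, hq, h4⟩)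
    obtain ⟨s, -, h6, h7⟩ := G.dir (G.g_sub hq (lo_sub (η := a))) ht
    exact h3 s h6 (h5.mono h7)

omit [GCh M] in
/-- bounded conditions in the filter decide `e ∈ x` -/
theorem ni_dec (hl : l ∈ κ) (x : M) {e : M} (_he : e ∈ κ) : ∃ b ∈ κ, l ∈ b ∧
    ∃ r, G.G r ∧ lo b r = r ∧ NiDec (UP l κ hκ) x r e := by
  let P := UP l κ hκ
  obtain ⟨r, hr, h1⟩ := G.meets (fun p => NiDec P x p e) inferInstance (fun p hp => by
    by_cases h : ∃ u, P.le u p ∧ P.Fm u (P.chk e) x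
    · obtain ⟨u, hu, h1⟩ := h
      exact ⟨u, hu, Or.inl h1⟩
    · exact ⟨p, UP_le.2 ⟨UP_cd.1 hp, UP_cd.1 hp, Sub.refl p⟩,
        Or.inr fun u hu h1 => h ⟨u, hu, h1⟩⟩)
  have hrc := G.ucnd hr
  have hB : (img r fun w => p1 (p1 w)) ⊆ κ := fun z hz => by
    obtain ⟨w, hw, rfl⟩ := mem_img.1 hz
    obtain ⟨a, ha, -, -, e, -, v, -, rfl, -⟩ := hrc.mem_iff hw
    rw [p1_op, p1_op]
    exact ha
  have hβ : bigU (img r fun w => p1 (p1 w)) ∈ κ :=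
    hκ.reg.bigU_mem (hκ.card_leq (leq_img _ _) hrc.2.2.2.2) hB
  have hβo := hκ.isOrd.mem hβ
  have hlo := hκ.isOrd.mem hl
  have hu : bigU (img r fun w => p1 (p1 w)) ∪ l ∈ κ := union_mem_of_ord hκ.isOrd hβ hl
  have huo := hκ.isOrd.mem hu
  refine ⟨sc (bigU (img r fun w => p1 (p1 w)) ∪ l), hκ.lim.2.2 _ hu,
    (hlo.mem_sc_iff huo).2 sub_union_right, r, hr, Sub.antisymm lo_sub fun w hw => ?_, h1⟩
  refine mem_lo.2 ⟨hw, ?_⟩
  have h2 : p1 (p1 w) ∈ img r fun w => p1 (p1 w) := mem_img.2 ⟨w, hw, rfl⟩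
  exact ((hκ.isOrd.mem (hB _ h2)).mem_sc_iff huo).2 (Sub.trans (sub_bigU h2) sub_union_left)

/-- `κ` is not ineffable in the extension -/
theorem notIneff (hl : l ∈ κ) : NotIneff (G.io κ) := by
  obtain ⟨g, hg⟩ := G.exists_filter (isOrd_empty (M := M))
  have hgm : ∀ r, G.G r → G.io r ∈ g := fun r hr => (hg _).2 ⟨r, G.cd hr, hr, rfl⟩
  refine ⟨lam (G.io κ) fun ξ => sep ξ fun e => ∃ r ∈ g, op (op ξ e) (sc ∅) ∈ r,
    fun ξ hξ => ?_, fun X hX => ?_⟩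
  · rw [ap_lam hξ]
    exact fun e he => (mem_sep.1 he).1
  obtain ⟨x, rfl⟩ := G.exists_nm X
  let P := UP l κ hκ
  let D : M := sep (prod (prod (PU l κ) κ) κ) fun t =>
    (l ∈ p2 (p1 t) ∧ lo (p2 (p1 t)) (p1 (p1 t)) = p1 (p1 t)) ∧ NiDec P x (p1 (p1 t)) (p2 t)
  have hD : ∀ p b e, op (op p b) e ∈ D ↔ ((UCnd l κ p ∧ b ∈ κ) ∧ e ∈ κ) ∧
      (l ∈ b ∧ lo b p = p) ∧ NiDec P x p e := fun p b e => by
    simp only [D]
    rw [mem_sep, op_mem_prod, op_mem_prod, mem_PU hκ.isOrd, p1_op, p2_op, p1_op, p2_op]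
  let Q : G.Ext → G.Ext → Prop := fun e b => ∃ r ∈ g, op (op r b) e ∈ G.io D
  have hQ : Dfp fun γ : (E0 G.Ext × G.Ext) × G.Ext => Q γ.1.2 γ.2 := by
    simp only [Q]; infer_instance
  have hQ1 : ∀ e b, Q (G.io e) b → ∃ b' ∈ κ, b = G.io b' ∧ l ∈ b' ∧
      ∃ r, G.G r ∧ lo b' r = r ∧ NiDec P x r e := by
    rintro e b ⟨r, hr, h⟩
    obtain ⟨r, -, hrG, rfl⟩ := (hg r).1 hr
    obtain ⟨t, e', h1, h2, h3⟩ := G.temb.op_mem_split h
    obtain ⟨r', b', h4, rfl, rfl⟩ := G.temb.op_split h1.symm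
    have h5 := G.io_inj h2
    have h6 := G.io_inj h4
    subst h5
    subst h6
    obtain ⟨⟨⟨-, h7⟩, -⟩, ⟨h8, h9⟩, h10⟩ := (hD _ _ _).1 h3
    exact ⟨b', h7, rfl, h8, r, hrG, h9, h10⟩
  have hQ2 : ∀ e ∈ κ, ∃ b, IsOrd b ∧ Q (G.io e) b := fun e he => by
    obtain ⟨b, hb, hlb, r, hr, h1, h2⟩ := G.ni_dec hl x he
    refine ⟨G.io b, G.temb.isOrd.2 (hκ.isOrd.mem hb), G.io r, hgm r hr, ?_⟩
    rw [← G.temb.op, ← G.temb.op, G.io_mem]
    exact (hD _ _ _).2 ⟨⟨⟨G.ucnd hr, hb⟩, he⟩, ⟨hlb, h1⟩, h2⟩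
  have hQ3 : ∀ e ∈ κ, Q (G.io e) (lst (Q (G.io e))) := fun e he => by
    obtain ⟨b, hb, h⟩ := hQ2 e he
    have : Dfp fun γ : E0 G.Ext × G.Ext => Q (G.io e) γ.2 := Dfp.use2 hQ
    exact (lst_spec (P := Q (G.io e)) hb h).2.1
  have hL : Dff fun γ : E0 G.Ext × G.Ext => lst (Q γ.2) := by
    have : Dfp fun γ : (E0 G.Ext × G.Ext) × G.Ext => Q γ.1.2 γ.2 := hQ
    infer_instance
  refine ⟨lam (G.io κ) fun e => lst (Q e), maps_lam fun e' he' => ?_, fun ξ hξ hi hcl => ?_⟩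
  · obtain ⟨e, he, rfl⟩ := G.io_tr he'
    obtain ⟨b, hb, h1, -⟩ := hQ1 _ _ (hQ3 e he)
    rw [h1, G.io_mem]
    exact hb
  · obtain ⟨a, ha, rfl⟩ := G.io_tr hξ
    have hia := G.isInacc_of hi
    have hae : ∀ e ∈ a, e ∈ κ := fun e he => hκ.isOrd.trans he ha
    have h1 : ∀ e ∈ a, ∃ b ∈ a, l ∈ b ∧ ∃ r, G.G r ∧ lo b r = r ∧ NiDec P x r e := fun e he => by
      have h2 := hcl _ (G.io_mem.2 he)
      rw [ap_lam (G.io_mem.2 (hae e he))] at h2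
      obtain ⟨b, -, h3, h4, r, hr, h5, h6⟩ := hQ1 _ _ (hQ3 e (hae e he))
      rw [h3, G.io_mem] at h2
      exact ⟨b, h2, h4, r, hr, h5, h6⟩
    have h0 : (∅ : M) ∈ a := hia.inf.2 _ (mem_om.2 isNat_empty)
    obtain ⟨b, hb, hlb, -⟩ := h1 ∅ h0
    have hla : l ∈ a := hia.isOrd.trans hlb hb
    intro hs
    rw [ap_lam (G.io_mem.2 ha)] at hs
    refine G.ni_key ha hla hia (x := x) (fun e he => ?_) fun e he => ?_
    · obtain ⟨b, hb, -, r, hr, h2, h3⟩ := h1 e he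
      refine ⟨r, hr, Sub.antisymm lo_sub fun w hw => ?_, h3⟩
      rw [← h2] at hw
      exact mem_lo.2 ⟨(mem_lo.1 hw).1, hia.isOrd.trans (mem_lo.1 hw).2 hb⟩
    · have h2 : G.io e ∈ G.nm x ↔ G.io e ∈ G.nm x ∩ G.io a := by
        rw [mem_inter]
        exact ⟨fun h => ⟨h, G.io_mem.2 he⟩, fun h => h.1⟩
      rw [h2, ← hs, mem_sep]
      constructor
      · rintro ⟨-, r, hr, h3⟩
        obtain ⟨r, -, hrG, rfl⟩ := (hg r).1 hr
        refine ⟨r, hrG, ?_⟩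
        rwa [← G.temb.op, ← G.temb.empty, ← G.temb.sc, ← G.temb.op, G.io_mem] at h3
      · rintro ⟨r, hr, h3⟩
        refine ⟨G.io_mem.2 he, G.io r, hgm r hr, ?_⟩
        rwa [← G.temb.op, ← G.temb.empty, ← G.temb.sc, ← G.temb.op, G.io_mem]

end

end Gen

end Pool.Agent.IST
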