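import Pool.Agent.UG.StarE
import Pool.Agent.UG.Game

/-!
# The games: player II has no winning strategy in `G*` and in the long Welch games
-/

set_option synthInstance.maxSize 100000

namespace Pool.Agent.IST

open Pool.Agent.BVM

section

variable {M : Type} [SetModel M] {Γ : Type} [IsCtx Γ M]

theorem Ina.bdd {a l e : M} (h : Ina a) (ha : IsOrd a) (hl : l ∈ a) (he : Maps e l a) :
    ∃ b ∈ a, ∀ x ∈ l, ap e x ∈ b := by
  classical
  have h0 : (∅ : M) ∈ a := empty_mem_of_ne ha (ne_empty_iff.2 ⟨l, hl⟩)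
  obtain ⟨b, hb, h1⟩ := h l hl (lam (pw l) fun x => if x ∈ l then ap e x else ∅)
    (maps_lam fun x _ => by
      split_ifs with h2
      · exact he.ap_mem h2
      · exact h0)
  refine ⟨b, hb, fun x hx => ?_⟩
  have h2 : x ∈ pw l := mem_pw.2 ((ha.mem hl).sub_of_mem hx)
  have h3 := h1 x h2
  rwa [ap_lam h2, if_pos hx] at h3

theorem Ina.isReg {a : M} (h : Ina a) (ha : IsOrd a) (ho : om ∈ a) : IsReg a := by
  refine ⟨⟨⟨ha, fun α hα hE => ?_⟩, ha.sub_of_mem ho⟩, fun α hα f hf => h.bdd ha hα hf⟩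
  obtain ⟨f, hf⟩ := hE
  obtain ⟨b, hb, h1⟩ := h.bdd ha hα hf.1
  obtain ⟨x, hx, rfl⟩ := hf.surj hb
  exact mem_irrefl _ (h1 x hx)

theorem Ina.isSLim {a : M} (h : Ina a) (ha : IsOrd a) (ho : om ∈ a) : IsSLim a := by
  have hr := h.isReg ha ho
  refine ⟨hr.infCard, fun α hα => ?_⟩
  by_contra hc
  have h1 : Leq a (pw α) := by
    unfold pow2 at hc
    rw [card_mem_iff_not_leq hr.isCard] at hc
    by_contra h2
    exact hc h2
  obtain ⟨f, hf, hfd, hfr⟩ := (leq_iff_surj (ne_empty_iff.2 ⟨_, ho⟩)).1 h1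
  obtain ⟨b, hb, h2⟩ := h α hα f ⟨hf, hfd, fun x hx => by
    rw [← hfr]
    exact hf.ap_mem_ran (by rw [hfd]; exact hx)⟩
  rw [← hfr] at hb
  obtain ⟨x, hx, rfl⟩ := hf.mem_ran_iff.1 hb
  rw [hfd] at hx
  exact mem_irrefl _ (h2 x hx)

theorem NotIneff.nineff {k : M} (hk : IsOrd k) (h : NotIneff k) : ∃ s, NIneff k s := by
  obtain ⟨s, h1, h2⟩ := h
  refine ⟨s, h1, fun g hg => ?_⟩
  obtain ⟨f, hf, h3⟩ := h2 g hg
  refine ⟨f, hf, fun a ha ho hina hcl => h3 a ha ?_ hcl⟩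
  have hao := hk.mem ha
  exact ⟨hina.isReg hao ho, ho, (hina.isSLim hao ho).2⟩

theorem iLeg_iff {k δ A : M} : ILeg k δ A ↔ WMoves k δ A := by
  unfold ILeg WMoves
  refine and_congr_right fun _ => and_congr_right fun _ => and_congr_left fun _ => ?_
  exact forall_congr' fun i => imp_congr_right fun _ => and_congr_right fun _ => and_comm

theorem wWin_welchWin {k γ : M} (h : WWin k γ) : ∃ σ, WelchWin k γ σ := by
  obtain ⟨σ, hσ⟩ := h
  exact ⟨σ, fun a ha i hi => hσ γ (self_mem_sc γ) a (iLeg_iff.1 ha) i hi⟩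

theorem sWin_starWin {k γ : M} (h : SWin k γ) : ∃ σ, StarWin k γ σ := by
  obtain ⟨σ, hσ, h1⟩ := h
  refine ⟨σ, fun a ha i hi => hσ γ (self_mem_sc γ) a (iLeg_iff.1 ha) i hi, fun a ha => ?_⟩
  obtain ⟨V, h2, h3⟩ := h1 a (iLeg_iff.1 ha)
  have e : bigU (ran a) = iU γ fun i => ap a i := by
    apply ext
    intro z
    rw [mem_bigU, mem_iU]
    constructor
    · rintro ⟨y, hy, hz⟩
      obtain ⟨i, hi, rfl⟩ := ha.1.mem_ran_iff.1 hy
      exact ⟨i, ha.2.1 ▸ hi, hz⟩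
    · rintro ⟨i, hi, hz⟩
      exact ⟨_, ha.1.ap_mem_ran (ha.2.1.symm ▸ hi), hz⟩
  rw [e] at h2
  exact ⟨V, h2, h3⟩

/-- player II has no winning strategy in `G*_γ` on a non-ineffable inaccessible cardinal -/
theorem not_SWin {k γ : M} (hr : IsReg k) (hs : IsSLim k) (ho : om ∈ k) (hN : NotIneff k)
    (hγ : IsOrd γ) (hoγ : om ⊆ γ) : ¬ SWin k γ := fun h => by
  obtain ⟨s, h1⟩ := hN.nineff hr.isOrd
  obtain ⟨σ, h2⟩ := sWin_starWin h
  exact not_starWin hr hs ho h1 hγ hoγ h2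

/-- player II has no winning strategy in the Welch game of length `γ > ω` on a non-ineffable
inaccessible cardinal -/
theorem not_WWin {k γ : M} (hr : IsReg k) (hs : IsSLim k) (ho : om ∈ k) (hN : NotIneff k)
    (hγ : IsOrd γ) (hoγ : om ∈ γ) : ¬ WWin k γ := fun h => by
  obtain ⟨s, h1⟩ := hN.nineff hr.isOrd
  obtain ⟨σ, h2⟩ := wWin_welchWin h
  exact not_welchWin hr hs ho h1 hγ hoγ h2

end

end Pool.Agent.IST
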