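import Pool.Agent.UG.Pos
import Pool.Agent.IST.Reg

/-!
# An enumeration of the pairs of a condition and an ordinal `< κ`
-/

set_option synthInstance.maxSize 100000

namespace Pool.Agent.IST

open Pool.Agent.BVM

section

variable {M : Type} [SetModel M] {l κ : M}

theorem leq_Vr_self (hκ : IsInacc κ) : Leq (Vr κ) κ := by
  rw [Vr_lim hκ.lim]
  exact leq_iU hκ.inf (fun b => Vr b) (Leq.refl _) fun b hb =>
    (leq_of_card_mem hκ.isOrd (card_Vr_mem hκ.reg hκ.slim b hb))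

theorem leq_PU (hκ : IsInacc κ) : Leq (PU l κ) κ :=
  (leq_of_sub fun _ hp => ((mem_PU hκ.isOrd).1 hp).mem_Vr hκ).trans (leq_Vr_self hκ)

/-- enumeration of the pairs of a condition and an ordinal -/
theorem exists_enum_PU (hκ : IsInacc κ) : ∃ e : M, Maps e κ (prod (PU l κ) κ) ∧
    ∀ p, UCnd l κ p → ∀ i ∈ κ, ∃ v ∈ κ, ap e v = op p i := by
  have h0 : (∅ : M) ∈ κ := empty_mem_of_isLim hκ.lim
  have hne : prod (PU l κ) κ ≠ ∅ := ne_empty_iff.2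
    ⟨op ∅ ∅, op_mem_prod.2 ⟨(mem_PU hκ.isOrd).2 (ucnd_empty hκ), h0⟩⟩
  obtain ⟨e, he, hd, hr⟩ := (leq_iff_surj hne).1
    (leq_prod hκ.inf (leq_PU (l := l) hκ) (Leq.refl κ))
  refine ⟨e, ⟨he, hd, fun x hx => hr ▸ he.ap_mem_ran (hd ▸ hx)⟩, fun p hp i hi => ?_⟩
  have h1 : op p i ∈ ran e := hr ▸ op_mem_prod.2 ⟨(mem_PU hκ.isOrd).2 hp, hi⟩
  obtain ⟨v, hv, h2⟩ := he.mem_ran_iff.1 h1
  exact ⟨v, hd ▸ hv, h2.symm⟩

/-- enumeration of the pairs, two functions -/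
theorem exists_enum_PU2 (hκ : IsInacc κ) : ∃ e1 e2 : M, Maps e1 κ (PU l κ) ∧ Maps e2 κ κ ∧
    ∀ i ∈ κ, ∀ p, UCnd l κ p → ∃ v ∈ κ, ap e2 v = i ∧ ap e1 v = p := by
  obtain ⟨e, he, h⟩ := exists_enum_PU (l := l) hκ
  have h1 : ∀ v ∈ κ, p1 (ap e v) ∈ PU l κ ∧ p2 (ap e v) ∈ κ := fun v hv => by
    obtain ⟨p, hp, i, hi, h2⟩ := mem_prod.1 (he.ap_mem hv)
    rw [h2, p1_op, p2_op]
    exact ⟨hp, hi⟩
  refine ⟨lam κ fun v => p1 (ap e v), lam κ fun v => p2 (ap e v),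
    maps_lam fun v hv => (h1 v hv).1, maps_lam fun v hv => (h1 v hv).2, fun i hi p hp => ?_⟩
  obtain ⟨v, hv, h2⟩ := h p hp i hi
  refine ⟨v, hv, ?_, ?_⟩
  · rw [ap_lam hv, h2, p2_op]
  · rw [ap_lam hv, h2, p1_op]

end

end Pool.Agent.IST
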