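import Pool.Agent.UG.WCc
import Pool.Agent.UG.DCk
import Pool.Agent.UG.WCe

/-!
# Weak compactness in the extension: the sequence in the ground model
-/

set_option synthInstance.maxSize 100000

namespace Pool.Agent.IST

open Pool.Agent.BVM

section

variable {M : Type} [SetModel M] {Γ : Type} [IsCtx Γ M]

/-- functions with domain in `U` whose values are conditions with high coordinates -/
def WRF (l κ U f : M) : Prop :=
  IsFun f ∧ dom f ∈ U ∧ ∀ a ∈ dom f, UCnd l κ (ap f a) ∧ lo a (ap f a) = ∅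

instance WRF.dfp {f g h k : Γ → M} [Dff f] [Dff g] [Dff h] [Dff k] :
    Dfp fun γ => WRF (f γ) (g γ) (h γ) (k γ) := by
  unfold WRF; infer_instance

section

variable {l κ U : M} (hκ : IsInacc κ) (hU : Nfu κ κ κ U)

include hU in
theorem aa_mem_of_mem {X : M} (h : X ∈ U) : Aa U κ fun x => x ∈ X := by
  have e : sep κ (fun x => x ∈ X) = X := ext fun z => by
    rw [mem_sep]
    exact ⟨fun h => h.2, fun hz => ⟨hU.2.1 _ h z hz, hz⟩⟩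
  unfold Aa
  rwa [e]

include hκ hU

/-- the limit step -/
theorem rf_lim {v s : M} (hv : v ∈ κ)
    (h1 : ∀ u ∈ v, WRF l κ U (ap s u))
    (h2 : ∀ u ∈ v, ∀ u' ∈ u, ∀ a ∈ dom (ap s u), a ∈ dom (ap s u') ∧
      ap (ap s u') a ⊆ ap (ap s u) a) :
    ∃ f, WRF l κ U f ∧ ∀ u ∈ v, ∀ a ∈ dom f, a ∈ dom (ap s u) ∧ ap (ap s u) a ⊆ ap f a := by
  have hκo := hκ.isOrd
  have hvo := hκo.mem hv
  have h3 : Aa U κ fun a => v ∈ a ∧ ∀ u ∈ v, a ∈ dom (ap s u) :=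
    hU.aa_and (hU.aa_fine hv) ((hU.aa_small (χ := fun u a => a ∈ dom (ap s u)) hv).2
      fun u hu => aa_mem_of_mem hU (h1 u hu).2.1)
  refine ⟨lam (sep κ fun a => v ∈ a ∧ ∀ u ∈ v, a ∈ dom (ap s u)) fun a =>
    bigU (img v fun u => ap (ap s u) a), ⟨isFun_lam, ?_, fun a ha => ?_⟩, fun u hu a ha => ?_⟩
  · rw [dom_lam]
    exact h3
  · rw [dom_lam] at ha
    rw [ap_lam ha]
    obtain ⟨haκ, hva, ha'⟩ := mem_sep.1 ha
    have hao := hκo.mem haκ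
    have hle : Leq (img v fun u => ap (ap s u) a) v := leq_img _ _
    constructor
    · refine ucnd_bigU hκ (fun p hp => ?_) (fun p hp q hq => ?_)
        (hκ.card_leq hle (hκ.card_mem hv)) fun b hb hlb hib => ?_
      · obtain ⟨u, hu, rfl⟩ := mem_img.1 hp
        exact ((h1 u hu).2.2 a (ha' u hu)).1
      · obtain ⟨u, hu, rfl⟩ := mem_img.1 hp
        obtain ⟨u', hu', rfl⟩ := mem_img.1 hq
        rcases (hvo.mem hu).cmp (hvo.mem hu') with h4 | h4 | h4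
        · exact ⟨ap (ap s u') a, ((h1 u' hu').2.2 a (ha' u' hu')).1.1,
            (h2 u' hu' u h4 a (ha' u' hu')).2, Sub.refl _⟩
        · subst h4
          exact ⟨ap (ap s u) a, ((h1 u hu).2.2 a (ha' u hu)).1.1, Sub.refl _, Sub.refl _⟩
        · exact ⟨ap (ap s u) a, ((h1 u hu).2.2 a (ha' u hu)).1.1, Sub.refl _,
            (h2 u hu u' h4 a (ha' u hu)).2⟩
      · rcases hao.total hib.isOrd with h4 | h4
        · exact Or.inl (hib.card_leq hle (hib.card_mem (h4 _ hva)))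
        · refine Or.inr ⟨∅, ucnd_empty hκ, fun p hp w hw => ?_⟩
          obtain ⟨u, hu, rfl⟩ := mem_img.1 hp
          obtain ⟨hw, h5⟩ := mem_lo.1 hw
          have h6 := ((h1 u hu).2.2 a (ha' u hu)).2
          rw [← h6]
          exact mem_lo.2 ⟨hw, hao.sc_sub_iff.2 h4 _ h5⟩
    · rw [eq_empty_iff]
      intro w hw
      obtain ⟨hw, h5⟩ := mem_lo.1 hw
      obtain ⟨p, hp, hw⟩ := mem_bigU.1 hw
      obtain ⟨u, hu, rfl⟩ := mem_img.1 hp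
      have h6 := ((h1 u hu).2.2 a (ha' u hu)).2
      exact notMem_empty w (h6 ▸ mem_lo.2 ⟨hw, h5⟩)
  · rw [dom_lam] at ha
    rw [ap_lam ha]
    exact ⟨(mem_sep.1 ha).2.2 u hu, fun w hw => mem_bigU.2 ⟨_, mem_img.2 ⟨u, hu, rfl⟩, hw⟩⟩

/-- the deciding step -/
theorem rf_dec (hl : l ∈ κ) {f p : M} (hf : WRF l κ U f) (hp : UCnd l κ p) (φ : M → M → Prop)
    [hφ : Dfp fun γ : (E0 M × M) × M => φ γ.1.2 γ.2]
    (hm : ∀ a u w, UCnd l κ w → u ⊆ w → φ u a → φ w a) :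
    ∃ g z β, WRF l κ U g ∧ UCnd l κ z ∧ β ∈ (two : M) ∧ p ⊆ z ∧
      (∀ a ∈ dom g, a ∈ dom f ∧ ap f a ⊆ ap g a) ∧
      ∀ a ∈ dom g, ∀ w, UCnd l κ w → z ⊆ w → ap g a ⊆ w →
        (β = ∅ → φ w a) ∧ (¬ β = ∅ → ¬ φ w a) := by
  have hκo := hκ.isOrd
  have hφ2 : DP2 φ := ⟨hφ⟩
  obtain ⟨d, hd, hpd⟩ := hp.exists_bd hκ
  have hdo := hκo.mem hd
  have h1 : Aa U κ fun a => a ∈ dom f ∧ IsInacc a ∧ l ∈ a ∧ d ∈ a :=
    hU.aa_and (aa_mem_of_mem hU hf.2.1) (hU.aa_and (NMs.aa_inac hU hκ.inf hκ.om_mem)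
      (hU.aa_and (hU.aa_fine hl) (hU.aa_fine hd)))
  -- deciding extensions
  obtain ⟨c, hc, hc'⟩ := exists_choice_rel
    (sep κ fun a => a ∈ dom f ∧ IsInacc a ∧ l ∈ a ∧ d ∈ a) (PU l κ)
    (fun a u => p ⊆ u ∧ ap f a ⊆ u ∧ (φ u a ∨ ∀ w, UCnd l κ w → u ⊆ w → ¬ φ w a))
    fun a ha => by
      obtain ⟨haκ, haf, hia, hla, hda⟩ := mem_sep.1 ha
      have h2 := hf.2.2 a haf
      have h3 := hp.union_sep hκ h2.1 (fun w hw => hia.isOrd.sub_of_mem hda _ (hpd w hw)) h2.2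
      by_cases h4 : ∃ u, UCnd l κ u ∧ p ∪ ap f a ⊆ u ∧ φ u a
      · obtain ⟨u, h5, h6, h7⟩ := h4
        exact ⟨u, (mem_PU hκo).2 h5, Sub.trans sub_union_left h6, Sub.trans sub_union_right h6,
          Or.inl h7⟩
      · push Not at h4
        exact ⟨p ∪ ap f a, (mem_PU hκo).2 h3, sub_union_left, sub_union_right,
          Or.inr fun w hw h5 => h4 w hw h5⟩
  have hcu : ∀ a ∈ (sep κ fun a => a ∈ dom f ∧ IsInacc a ∧ l ∈ a ∧ d ∈ a), UCnd l κ (ap c a) :=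
    fun a ha => (mem_PU hκo).1 (hc.ap_mem ha)
  -- pressing down
  have h2 : Aa U κ fun a => lo a (ap c a) ∈ Vr a := hU.aa_mono h1 fun a ha h3 =>
    (hcu a (mem_sep.2 ⟨ha, h3⟩)).lo_mem_Vr ha h3.2.2.1 h3.2.1
  obtain ⟨z, -, hz⟩ := NMs.press hU hκ.inf (fun a => lo a (ap c a)) h2
  have key : ∀ ψ : M → Prop, Dfp (fun γ : E0 M × M => ψ γ.2) → (Aa U κ fun a => ψ a) →
      ∀ β ∈ (two : M), (∀ a, (a ∈ κ ∧ a ∈ dom f ∧ IsInacc a ∧ l ∈ a ∧ d ∈ a) → ψ a →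
        ∀ w, UCnd l κ w → ap c a ⊆ w → (β = ∅ → φ w a) ∧ (¬ β = ∅ → ¬ φ w a)) →
      ∃ g z β, WRF l κ U g ∧ UCnd l κ z ∧ β ∈ (two : M) ∧ p ⊆ z ∧
        (∀ a ∈ dom g, a ∈ dom f ∧ ap f a ⊆ ap g a) ∧
        ∀ a ∈ dom g, ∀ w, UCnd l κ w → z ⊆ w → ap g a ⊆ w →
          (β = ∅ → φ w a) ∧ (¬ β = ∅ → ¬ φ w a) := by
    intro ψ hψ h3 β hβ h4
    have hψ1 : DP1 ψ := ⟨hψ⟩
    have h5 : Aa U κ fun a => (a ∈ dom f ∧ IsInacc a ∧ l ∈ a ∧ d ∈ a) ∧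
        lo a (ap c a) = z ∧ ψ a := hU.aa_and h1 (hU.aa_and hz h3)
    have h6 : ∀ a ∈ (sep κ fun a => (a ∈ dom f ∧ IsInacc a ∧ l ∈ a ∧ d ∈ a) ∧
        lo a (ap c a) = z ∧ ψ a), a ∈ sep κ fun a => a ∈ dom f ∧ IsInacc a ∧ l ∈ a ∧ d ∈ a :=
      fun a ha => mem_sep.2 ⟨(mem_sep.1 ha).1, (mem_sep.1 ha).2.1⟩
    refine ⟨lam (sep κ fun a => (a ∈ dom f ∧ IsInacc a ∧ l ∈ a ∧ d ∈ a) ∧
        lo a (ap c a) = z ∧ ψ a) fun a => hi a (ap c a), z, β, ⟨isFun_lam, ?_, fun a ha => ?_⟩,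
        ?_, hβ, ?_, fun a ha => ?_, fun a ha w hw hzw haw => ?_⟩
    · rw [dom_lam]
      exact h5
    · rw [dom_lam] at ha
      rw [ap_lam ha]
      exact ⟨(hcu a (h6 a ha)).sub hκ hi_sub, lo_hi⟩
    · obtain ⟨a, ha, h7, h8, -⟩ := hU.aa_ex h5
      rw [← h8]
      exact (hcu a (mem_sep.2 ⟨ha, h7⟩)).sub hκ lo_sub
    · obtain ⟨a, ha, h7, h8, -⟩ := hU.aa_ex h5
      rw [← h8]
      exact fun w hw => mem_lo.2 ⟨(hc' a (mem_sep.2 ⟨ha, h7⟩)).1 w hw,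
        h7.2.1.isOrd.sub_of_mem h7.2.2.2 _ (hpd w hw)⟩
    · rw [dom_lam] at ha
      rw [ap_lam ha]
      obtain ⟨haκ, ⟨haf, hia, -⟩, -⟩ := mem_sep.1 ha
      refine ⟨haf, fun w hw => mem_hi.2 ⟨(hc' a (h6 a ha)).2.1 w hw, ?_⟩⟩
      obtain ⟨b, -, -, hib, e, -, t, -, rfl, -⟩ := (hf.2.2 a haf).1.mem_iff hw
      rcases hia.isOrd.total hib.isOrd with h7 | h7
      · rwa [p1_op, p1_op]
      · have h8 : op (op b e) t ∈ lo a (ap f a) := mem_lo.2 ⟨hw, by rwa [p1_op, p1_op]⟩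
        rw [(hf.2.2 a haf).2] at h8
        exact absurd h8 (notMem_empty _)
    · rw [dom_lam] at ha
      rw [ap_lam ha] at haw
      obtain ⟨haκ, h7, h8, h9⟩ := mem_sep.1 ha
      refine h4 a ⟨haκ, h7⟩ h9 w hw ?_
      rw [← (hcu a (h6 a ha)).lo_union_hi h7.2.1.isOrd, h8]
      exact union_sub hzw haw
  by_cases h3 : Aa U κ fun a => φ (ap c a) a
  · exact key (fun a => φ (ap c a) a) inferInstance h3 ∅ (mem_two.2 (Or.inl rfl))
      fun a _ h4 w hw h5 => ⟨fun _ => hm a _ w hw h5 h4, fun h => absurd rfl h⟩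
  · refine key (fun a => ¬ φ (ap c a) a) inferInstance (hU.aa_not.2 h3) (sc ∅)
      (mem_two.2 (Or.inr rfl)) fun a ha h4 w hw h5 => ⟨fun h => absurd h (sc_ne_empty _),
        fun _ => ?_⟩
    rcases (hc' a (mem_sep.2 ha)).2.2 with h6 | h6
    · exact absurd h6 h4
    · exact h6 w hw h5

end

/-- the requirements for the next entry `y` of the sequence `s` -/
def WcR (P : LPo M) (l κ nf e₁ e₂ s y : M) : Prop :=
  (∀ u ∈ dom s, ∀ a ∈ dom (p1 y), a ∈ dom (p1 (ap s u)) ∧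
    ap (p1 (ap s u)) a ⊆ ap (p1 y) a) ∧
  ∀ u ∈ dom s, dom s = sc u → ap e₁ u ⊆ p1 (p2 y) ∧
    ∀ a ∈ dom (p1 y), ∀ w, UCnd l κ w → p1 (p2 y) ⊆ w → ap (p1 y) a ⊆ w →
      (p2 (p2 y) = ∅ → P.Fm w (Gen.opN P (P.chk (ap e₂ u)) (P.chk a)) nf) ∧
        (¬ p2 (p2 y) = ∅ → ¬ P.Fm w (Gen.opN P (P.chk (ap e₂ u)) (P.chk a)) nf)

instance WcR.dfp (P : LPo M) {l κ nf e₁ e₂ s y : Γ → M} [Dff l] [Dff κ] [Dff nf]
    [Dff e₁] [Dff e₂] [Dff s] [Dff y] :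
    Dfp fun γ => WcR P (l γ) (κ γ) (nf γ) (e₁ γ) (e₂ γ) (s γ) (y γ) := by
  unfold WcR; infer_instance

/-- the entries -/
noncomputable def WcS (l κ U : M) : M :=
  sep (prod (pw (prod κ (PU l κ))) (prod (PU l κ) two)) fun y => WRF l κ U (p1 y)

instance WcS.dff {f g h : Γ → M} [Dff f] [Dff g] [Dff h] :
    Dff fun γ => WcS (f γ) (g γ) (h γ) := by
  unfold WcS; infer_instance

section

variable {l κ U : M} (hκ : IsInacc κ) (hU : Nfu κ κ κ U)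

include hκ hU

theorem mem_WcS {f z β : M} (h1 : WRF l κ U f) (h2 : UCnd l κ z) (h3 : β ∈ (two : M)) :
    op f (op z β) ∈ WcS l κ U := by
  unfold WcS
  refine mem_sep.2 ⟨op_mem_prod.2 ⟨mem_pw.2 fun w hw => ?_,
    op_mem_prod.2 ⟨(mem_PU hκ.isOrd).2 h2, h3⟩⟩, by rwa [p1_op]⟩
  obtain ⟨a, ha, rfl⟩ := h1.1.mem_iff.1 hw
  exact op_mem_prod.2 ⟨hU.2.1 _ h1.2.1 a ha, (mem_PU hκ.isOrd).2 (h1.2.2 a ha).1⟩

/-- the sequence exists, from an enumeration -/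
theorem exists_wcb_aux (hl : l ∈ κ) {e₁ e₂ : M} (he₁ : Maps e₁ κ (PU l κ))
    (he : ∀ i ∈ κ, ∀ p, UCnd l κ p → ∃ v ∈ κ, ap e₂ v = i ∧ ap e₁ v = p) (nf : M) :
    ∃ F q iv b : M, Gen.WcSeq (UP l κ hκ) l κ U nf F q iv b := by
  have hκo := hκ.isOrd
  obtain ⟨F, hF, hF'⟩ := exists_dck (κ := κ) (S := WcS l κ U) hκo
    (fun s y => WcR (UP l κ hκ) l κ nf e₁ e₂ s y) fun v hv s hs hgood => by
      have hvo := hκo.mem hv
      have h1 : ∀ u ∈ v, WRF l κ U (p1 (ap s u)) := fun u hu => (mem_sep.1 (hs.ap_mem hu)).2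
      have h2 : ∀ u ∈ v, ∀ u' ∈ u, ∀ a ∈ dom (p1 (ap s u)), a ∈ dom (p1 (ap s u')) ∧
          ap (p1 (ap s u')) a ⊆ ap (p1 (ap s u)) a := fun u hu u' hu' a ha => by
        have h3 := (hgood u hu).1 u' (by
          rw [dom_res, mem_inter, hs.dom_eq]
          exact ⟨hvo.trans hu' hu, hu'⟩) a ha
        rwa [hs.isFun.ap_res hu'] at h3
      obtain ⟨f0, hf0, hf0'⟩ := rf_lim hκ hU (s := lam v fun u => p1 (ap s u)) hv
        (fun u hu => by rw [ap_lam hu]; exact h1 u hu)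
        fun u hu u' hu' a ha => by
          rw [ap_lam hu] at ha ⊢
          rw [ap_lam (hvo.trans hu' hu)]
          exact h2 u hu u' hu' a ha
      by_cases h3 : ∃ u ∈ v, v = sc u
      · obtain ⟨u, hu, hvu⟩ := h3
        have huκ := hκo.trans hu hv
        obtain ⟨g, z, β, hg, hz, hβ, hpz, hfg, hdec⟩ := rf_dec hκ hU hl hf0
          ((mem_PU hκo).1 (he₁.ap_mem huκ))
          (fun w a => (UP l κ hκ).Fm w (Gen.opN (UP l κ hκ) ((UP l κ hκ).chk (ap e₂ u))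
            ((UP l κ hκ).chk a)) nf) fun a u' w hw hu' h =>
              h.mono (UP_le.2 ⟨hw, UP_cd.1 h.cd, hu'⟩)
        refine ⟨op g (op z β), mem_WcS hκ hU hg hz hβ, ?_, ?_⟩
        · simp only [p1_op]
          intro u' hu' a ha
          rw [hs.dom_eq] at hu'
          obtain ⟨h4, h5⟩ := hfg a ha
          obtain ⟨h6, h7⟩ := hf0' u' hu' a h4
          rw [ap_lam hu'] at h6 h7
          exact ⟨h6, Sub.trans h7 h5⟩
        · simp only [p1_op, p2_op]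
          intro u' hu' hu''
          rw [hs.dom_eq] at hu' hu''
          have h4 : u' = u := by
            have h5 := bigU_sc (hvo.mem hu')
            rw [← hu'', hvu, bigU_sc (hvo.mem hu)] at h5
            exact h5.symm
          subst h4
          exact ⟨hpz, hdec⟩
      · refine ⟨op f0 (op ∅ ∅), mem_WcS hκ hU hf0 (ucnd_empty hκ) (mem_two.2 (Or.inl rfl)),
          ?_, ?_⟩
        · simp only [p1_op]
          intro u' hu' a ha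
          rw [hs.dom_eq] at hu'
          have h4 := hf0' u' hu' a ha
          rwa [ap_lam hu'] at h4
        · intro u' hu' hu''
          rw [hs.dom_eq] at hu' hu''
          exact absurd ⟨u', hu', hu''⟩ h3
  have hlim := hκ.lim
  have hsc : ∀ v ∈ κ, sc v ∈ κ := fun v hv => hlim.2.2 v hv
  have hS : ∀ v ∈ κ, WRF l κ U (p1 (ap F v)) ∧ UCnd l κ (p1 (p2 (ap F v))) := fun v hv => by
    obtain ⟨h1, h2⟩ := mem_sep.1 (hF.ap_mem hv)
    obtain ⟨x, -, y, hy, h3⟩ := mem_prod.1 h1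
    obtain ⟨z, hz, t, -, rfl⟩ := mem_prod.1 hy
    refine ⟨h2, ?_⟩
    rw [h3, p2_op, p1_op]
    exact (mem_PU hκo).1 hz
  have hdom : ∀ v ∈ κ, dom (res F v) = v := fun v hv => by
    rw [dom_res, hF.dom_eq]
    apply ext; intro x
    rw [mem_inter]
    exact ⟨fun h => h.2, fun h => ⟨hκo.trans h hv, h⟩⟩
  have hR1 : ∀ v ∈ κ, ∀ u ∈ v, ∀ a ∈ dom (p1 (ap F v)), a ∈ dom (p1 (ap F u)) ∧
      ap (p1 (ap F u)) a ⊆ ap (p1 (ap F v)) a := fun v hv u hu a ha => by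
    have h1 := (hF' v hv).1 u (by rw [hdom v hv]; exact hu) a ha
    rwa [hF.isFun.ap_res hu] at h1
  have hR2 : ∀ v ∈ κ, ap e₁ v ⊆ p1 (p2 (ap F (sc v))) ∧
      ∀ a ∈ dom (p1 (ap F (sc v))), ∀ w, UCnd l κ w → p1 (p2 (ap F (sc v))) ⊆ w →
        ap (p1 (ap F (sc v))) a ⊆ w →
      (p2 (p2 (ap F (sc v))) = ∅ → (UP l κ hκ).Fm w
        (Gen.opN (UP l κ hκ) ((UP l κ hκ).chk (ap e₂ v)) ((UP l κ hκ).chk a)) nf) ∧
        (¬ p2 (p2 (ap F (sc v))) = ∅ → ¬ (UP l κ hκ).Fm w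
        (Gen.opN (UP l κ hκ) ((UP l κ hκ).chk (ap e₂ v)) ((UP l κ hκ).chk a)) nf) :=
    fun v hv => (hF' (sc v) (hsc v hv)).2 v (by rw [hdom _ (hsc v hv)]; exact self_mem_sc v)
      (hdom _ (hsc v hv))
  refine ⟨lam κ fun v => p1 (ap F v), lam κ fun v => p1 (p2 (ap F (sc v))), e₂,
    sep κ fun v => p2 (p2 (ap F (sc v))) = ∅, ?_, ?_, ?_, ?_, ?_, ?_⟩
  · exact maps_lam fun v hv => (mem_PU hκo).2 (hS _ (hsc v hv)).2
  · intro v hv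
    rw [ap_lam hv]
    exact (hS v hv).1.2.1
  · intro v hv a ha
    rw [ap_lam hv] at ha ⊢
    exact (hS v hv).1.2.2 a ha
  · intro v hv u hu a ha
    rw [ap_lam hv] at ha ⊢
    rw [ap_lam (hκo.trans hu hv)]
    exact hR1 v hv u hu a ha
  · intro i hi p hp
    obtain ⟨v, hv, h1, h2⟩ := he i hi p hp
    refine ⟨v, hv, h1, ?_⟩
    rw [ap_lam hv, ← h2]
    exact (hR2 v hv).1
  · intro v hv a ha u hu hq hf
    rw [ap_lam (hsc v hv)] at ha hf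
    rw [ap_lam hv] at hq
    obtain ⟨h1, h2⟩ := (hR2 v hv).2 a ha u hu hq hf
    exact ⟨fun h => h1 (mem_sep.1 h).2, fun h => h2 fun h3 => h (mem_sep.2 ⟨hv, h3⟩)⟩

/-- the sequence exists -/
theorem exists_wcb (hl : l ∈ κ) (nf : M) :
    ∃ F q iv b : M, Gen.WcSeq (UP l κ hκ) l κ U nf F q iv b := by
  obtain ⟨e₁, e₂, h1, -, h2⟩ := exists_enum_PU2 (l := l) hκ
  exact exists_wcb_aux hκ hU hl h1 h2 nf

end

end

end Pool.Agent.IST
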