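import Pool.Agent.UG.Msr
import Pool.Agent.UG.Inac
import Pool.Agent.IST.AmpT

/-!
# Normal measures on a cardinal

`U` is a normal measure on `κ`: `Nfu κ κ κ U`.  `κ` is inaccessible, almost all `ξ < κ` are
inaccessible, and functions `F` with `F ξ ∈ V_ξ` almost everywhere are constant almost everywhere.
-/

set_option synthInstance.maxSize 100000

namespace Pool.Agent.IST

open Pool.Agent.BVM

namespace NMs

variable {M : Type} [SetModel M] {κ U : M} (h : Nfu κ κ κ U) (hκ : InfCard κ) (ho : om ∈ κ)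

include h

section

variable {χ : M → M → Prop} [hχ : Dfp fun γ : (E0 M × M) × M => χ γ.1.2 γ.2]

/-- `κ`-completeness, existential form -/
theorem small_ex {a : M} (ha : a ∈ κ) (h1 : Aa U κ fun x => ∃ z ∈ a, χ z x) :
    ∃ z ∈ a, Aa U κ fun x => χ z x := by
  have hl := fun z => dfp_left (φ := χ) z
  have hs := Nfu.swp hχ
  by_contra h3
  push Not at h3
  have h4 := (h.aa_small (χ := fun z x => ¬ χ z x) ha).2 fun z hz => by
    have := hl z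
    exact h.aa_not.2 (h3 z hz)
  have h5 : Aa U κ fun x => ¬ ∃ z ∈ a, χ z x :=
    h.aa_mono h4 fun x _ h6 ⟨z, hz, h7⟩ => h6 z hz h7
  exact h.aa_not.1 h5 h1

end

section

variable {χ : M → M → Prop} [hχ : Dfp fun γ : (E0 M × M) × M => χ γ.1.2 γ.2]

/-- `κ`-completeness for sets of cardinality `< κ` -/
theorem card_all {a : M} (ha : card a ∈ κ) (h1 : ∀ z ∈ a, Aa U κ fun x => χ z x) :
    Aa U κ fun x => ∀ z ∈ a, χ z x := by
  have hl := fun z => dfp_left (φ := χ) z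
  have hs := Nfu.swp hχ
  obtain ⟨g, hg⟩ := (eqn_card a).symm
  have hd : DP2 χ := ⟨hχ⟩
  have h2 := (h.aa_small (χ := fun z x => χ (ap g z) x) ha).2 fun z hz =>
    h1 _ (hg.maps.ap_mem hz)
  refine h.aa_mono h2 fun x _ h3 z hz => ?_
  obtain ⟨i, hi, rfl⟩ := hg.surj hz
  exact h3 i hi

theorem card_ex {a : M} (ha : card a ∈ κ) (h1 : Aa U κ fun x => ∃ z ∈ a, χ z x) :
    ∃ z ∈ a, Aa U κ fun x => χ z x := by
  have hl := fun z => dfp_left (φ := χ) z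
  have hs := Nfu.swp hχ
  by_contra h3
  push Not at h3
  have h4 := card_all h (χ := fun z x => ¬ χ z x) ha fun z hz => by
    have := hl z
    exact h.aa_not.2 (h3 z hz)
  have h5 : Aa U κ fun x => ¬ ∃ z ∈ a, χ z x :=
    h.aa_mono h4 fun x _ h6 ⟨z, hz, h7⟩ => h6 z hz h7
  exact h.aa_not.1 h5 h1

end

/-- two elements of a set in the measure -/
theorem aa_two {φ : M → Prop} [Dfp fun γ : E0 M × M => φ γ.2] (h1 : Aa U κ φ) :
    ∃ x ∈ κ, ∃ y ∈ κ, x ∈ y ∧ φ x ∧ φ y := by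
  obtain ⟨x, hx, h2⟩ := h.aa_ex h1
  obtain ⟨y, hy, h3, h4⟩ := h.aa_ex (h.aa_and h1 (h.aa_fine hx))
  exact ⟨x, hx, y, hy, h4, h2, h3⟩

/-- cofinally many elements -/
theorem aa_above {φ : M → Prop} [Dfp fun γ : E0 M × M => φ γ.2] (h1 : Aa U κ φ) {b : M}
    (hb : b ∈ κ) : ∃ x ∈ κ, b ∈ x ∧ φ x := by
  obtain ⟨x, hx, h2, h3⟩ := h.aa_ex (h.aa_and (h.aa_fine hb) h1)
  exact ⟨x, hx, h2, h3⟩

include hκ in
theorem isReg : IsReg κ := by
  refine ⟨hκ, fun α hα f hf => ?_⟩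
  by_contra h1
  push Not at h1
  have hκo := hκ.isOrd
  have h2 : Aa U κ fun x => ∃ ξ ∈ α, ¬ ap f ξ ∈ x := h.aa_of_all fun x hx => h1 x hx
  obtain ⟨ξ, hξ, h3⟩ := small_ex h (χ := fun ξ x => ¬ ap f ξ ∈ x) hα h2
  obtain ⟨x, hx, h4, h5⟩ := aa_above h h3 (hf.ap_mem hξ)
  exact h5 h4

theorem not_leq_pw {α : M} (hα : α ∈ κ) : ¬ Leq κ (pw α) := by
  rintro ⟨f, hf, hi⟩
  rw [hf.inj_iff] at hi
  have h1 : Aa U κ fun x => ∀ ξ ∈ α, (ξ ∈ ap f x ↔ Aa U κ fun y => ξ ∈ ap f y) := by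
    refine (h.aa_small (χ := fun ξ x => (ξ ∈ ap f x ↔ Aa U κ fun y => ξ ∈ ap f y)) hα).2
      fun ξ _ => ?_
    by_cases h2 : Aa U κ fun y => ξ ∈ ap f y
    · exact h.aa_mono h2 fun x _ h3 => iff_of_true h3 h2
    · exact h.aa_mono (h.aa_not.2 h2) fun x _ h3 => iff_of_false h3 h2
  obtain ⟨x, hx, y, hy, hxy, h2, h3⟩ := aa_two h h1
  have h4 : ap f x = ap f y := ext fun ξ => by
    have h5 := mem_pw.1 (hf.ap_mem hx)
    have h6 := mem_pw.1 (hf.ap_mem hy)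
    constructor
    · exact fun h7 => (h3 ξ (h5 ξ h7)).2 ((h2 ξ (h5 ξ h7)).1 h7)
    · exact fun h7 => (h2 ξ (h6 ξ h7)).2 ((h3 ξ (h6 ξ h7)).1 h7)
  have := hi x hx y hy h4
  exact mem_irrefl x (by rw [this] at hxy ⊢; exact hxy)

include hκ in
theorem isSLim : IsSLim κ :=
  ⟨hκ, fun _ hα => (card_mem_iff_not_leq hκ.1).2 (not_leq_pw h hα)⟩

include hκ ho in
theorem inac : IsInacc κ := ⟨isReg h hκ, ho, (isSLim h hκ).2⟩

include hκ in
theorem aa_lim : Aa U κ fun x => IsLim x := by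
  have hκo := hκ.isOrd
  by_contra h1
  have h2 := h.aa_and (h.aa_not.2 h1) (h.aa_fine (empty_mem_of_isLim hκ.isLim))
  have h3 : Aa U κ fun x => ∃ b ∈ x, x = sc b := h.aa_mono h2 fun x hx h4 => by
    rcases ord_cases (hκo.mem hx) with h5 | ⟨b, hb, h5⟩ | h5
    · exact absurd (h5 ▸ h4.2) (notMem_empty _)
    · exact ⟨b, h5 ▸ self_mem_sc b, h5⟩
    · exact absurd h5 h4.1
  obtain ⟨b, hb, h4⟩ := (h.aa_exists (χ := fun b x => x = sc b)).1 h3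
  obtain ⟨x, hx, y, hy, h5, h6, h7⟩ := aa_two h h4
  exact mem_irrefl x (by rw [h7, ← h6] at h5; exact h5)

include hκ in
theorem aa_reg : Aa U κ fun x => IsReg x := by
  have hκo := hκ.isOrd
  by_contra h1
  have h2 := h.aa_and (h.aa_not.2 h1) (aa_lim h hκ)
  have h3 : Aa U κ fun x => ∃ d ∈ x, IsLim x ∧ cof x = d := h.aa_mono h2 fun x hx h4 => by
    have hxo := hκo.mem hx
    have h5 := isReg_cof h4.2
    rcases ((cof_spec hxo).1.sub_iff hxo).1 (cof_spec hxo).2.1 with h6 | h6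
    · exact ⟨_, h6, h4.2, rfl⟩
    · exact absurd (h6 ▸ h5) h4.1
  obtain ⟨d, hd, h4⟩ := (h.aa_exists (χ := fun d x => IsLim x ∧ cof x = d)).1 h3
  -- cofinal maps
  obtain ⟨g, -, hgd, hg⟩ := exists_choice_cls (sep κ fun x => IsLim x ∧ cof x = d)
    (fun x f => Maps f d x ∧ ∀ b ∈ x, ∃ ξ ∈ d, b ⊆ ap f ξ) fun x hx => by
      obtain ⟨hx1, hx2, hx3⟩ := mem_sep.1 hx
      obtain ⟨f, hf1, hf2⟩ := (cof_spec hx2.1).2.2.1
      rw [hx3] at hf1 hf2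
      exact ⟨f, hf1, hf2⟩
  have hg' : ∀ x ∈ κ, IsLim x ∧ cof x = d → Maps (ap g x) d x ∧
      ∀ b ∈ x, ∃ ξ ∈ d, b ⊆ ap (ap g x) ξ := fun x hx hx' => hg x (mem_sep.2 ⟨hx, hx'⟩)
  have h5 : ∀ ξ ∈ d, ∃ c ∈ κ, Aa U κ fun x => ap (ap g x) ξ = c := fun ξ hξ => by
    have h6 : Aa U κ fun x => ∃ c ∈ x, ap (ap g x) ξ = c := h.aa_mono h4 fun x hx h7 =>
      ⟨_, (hg' x hx h7).1.ap_mem hξ, rfl⟩
    exact (h.aa_exists (χ := fun c x => ap (ap g x) ξ = c)).1 h6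
  obtain ⟨c, hc, hc'⟩ := exists_choice_rel d κ (fun ξ c => Aa U κ fun x => ap (ap g x) ξ = c) h5
  have h6 := (h.aa_small (χ := fun ξ x => ap (ap g x) ξ = ap c ξ) hd).2 hc'
  obtain ⟨x, hx, y, hy, hxy, h7, h8⟩ := aa_two h (h.aa_and h4 h6)
  obtain ⟨ξ, hξ, h9⟩ := (hg' y hy h8.1).2 x hxy
  have h10 := (hg' x hx h7.1).1.ap_mem hξ
  rw [h7.2 ξ hξ] at h10
  rw [h8.2 ξ hξ] at h9
  exact mem_irrefl _ (h9 _ h10)

include hκ ho in
/-- almost all ordinals are inaccessible -/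
theorem aa_inac : Aa U κ fun x => IsInacc x := by
  have hκo := hκ.isOrd
  have h1 := aa_reg h hκ
  have h2 := h.aa_fine ho
  have h3 : Aa U κ fun x => ∀ α ∈ x, pow2 α ∈ x := by
    refine (h.aa_all (χ := fun α x => pow2 α ∈ x)).2 fun α hα => ?_
    exact h.aa_fine ((isSLim h hκ).2 α hα)
  exact h.aa_mono (h.aa_and h1 (h.aa_and h2 h3)) fun x _ h4 =>
    ⟨h4.1, h4.2.1, h4.2.2⟩

include hκ in
/-- pressing down for functions into `V_ξ` -/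
theorem press (F : M → M) [hF : Dff fun γ : E0 M × M => F γ.2]
    (h1 : Aa U κ fun x => F x ∈ Vr x) : ∃ z ∈ Vr κ, Aa U κ fun x => F x = z := by
  have hκo := hκ.isOrd
  have hFc : DF1 F := ⟨hF⟩
  have h2 : Aa U κ fun x => ∃ b ∈ x, F x ∈ Vr b := by
    refine h.aa_mono (h.aa_and h1 (aa_lim h hκ)) fun x hx h3 => ?_
    have h4 := h3.1
    rw [Vr_lim h3.2] at h4
    exact mem_iU.1 h4
  obtain ⟨b, hb, h3⟩ := (h.aa_exists (χ := fun b x => F x ∈ Vr b)).1 h2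
  have h4 : Aa U κ fun x => ∃ z ∈ Vr b, F x = z := h.aa_mono h3 fun x _ h5 => ⟨_, h5, rfl⟩
  obtain ⟨z, hz, h5⟩ := card_ex h (χ := fun z x => F x = z)
    (card_Vr_mem (isReg h hκ) (isSLim h hκ) b hb) h4
  exact ⟨z, Vr_mono (hκo.sub_of_mem hb) z hz, h5⟩

end NMs

end Pool.Agent.IST
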