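import Pool.Agent.UG.SetPo
import Pool.Agent.UG.Inac

/-!
# The Easton product of the posets adding a subset of every inaccessible cardinal below `κ`

Conditions are small partial functions on the pairs `(a, e)`, `a` inaccessible, `l < a < κ`,
`e < a`, with values in `2`.  `q` is stronger than `p` if `p ⊆ q`.
-/

set_option synthInstance.maxSize 100000

namespace Pool.Agent.IST

open Pool.Agent.BVM

section

variable {M : Type} [SetModel M] {Γ : Type} [IsCtx Γ M]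

/-- the part of a condition on the coordinates `< η` -/
noncomputable def lo (η p : M) : M := sep p fun w => p1 (p1 w) ∈ η

/-- the part of a condition on the coordinates `≥ η` -/
noncomputable def hi (η p : M) : M := sep p fun w => η ⊆ p1 (p1 w)

instance lo.dff {f g : Γ → M} [Dff f] [Dff g] : Dff fun γ => lo (f γ) (g γ) := by
  unfold lo; infer_instance

instance hi.dff {f g : Γ → M} [Dff f] [Dff g] : Dff fun γ => hi (f γ) (g γ) := by
  unfold hi; infer_instance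

theorem mem_lo {η p w : M} : w ∈ lo η p ↔ w ∈ p ∧ p1 (p1 w) ∈ η := mem_sep

theorem mem_hi {η p w : M} : w ∈ hi η p ↔ w ∈ p ∧ η ⊆ p1 (p1 w) := mem_sep

theorem lo_sub {η p : M} : lo η p ⊆ p := fun _ h => (mem_lo.1 h).1

theorem hi_sub {η p : M} : hi η p ⊆ p := fun _ h => (mem_hi.1 h).1

theorem lo_mono {η p q : M} (h : p ⊆ q) : lo η p ⊆ lo η q := fun _ hw =>
  mem_lo.2 ⟨h _ (mem_lo.1 hw).1, (mem_lo.1 hw).2⟩

theorem hi_mono {η p q : M} (h : p ⊆ q) : hi η p ⊆ hi η q := fun _ hw =>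
  mem_hi.2 ⟨h _ (mem_hi.1 hw).1, (mem_hi.1 hw).2⟩

theorem lo_union {η p q : M} : lo η (p ∪ q) = lo η p ∪ lo η q := by
  apply ext; intro w
  simp only [mem_lo, mem_union]
  tauto

theorem hi_union {η p q : M} : hi η (p ∪ q) = hi η p ∪ hi η q := by
  apply ext; intro w
  simp only [mem_hi, mem_union]
  tauto

theorem lo_lo {η p : M} : lo η (lo η p) = lo η p := by
  apply ext; intro w
  simp only [mem_lo]
  tauto

theorem hi_hi {η p : M} : hi η (hi η p) = hi η p := by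
  apply ext; intro w
  simp only [mem_hi]
  tauto

theorem lo_hi {η p : M} : lo η (hi η p) = ∅ := by
  apply ext; intro w
  simp only [mem_lo, mem_hi, notMem_empty, iff_false]
  rintro ⟨⟨-, h1⟩, h2⟩
  exact mem_irrefl _ (h1 _ h2)

theorem lo_bigU {η F : M} : lo η (bigU F) = iU F fun p => lo η p := by
  apply ext; intro w
  rw [mem_lo, mem_iU, mem_bigU]
  constructor
  · rintro ⟨⟨p, hp, hw⟩, h4⟩
    exact ⟨p, hp, mem_lo.2 ⟨hw, h4⟩⟩
  · rintro ⟨p, hp, hw⟩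
    exact ⟨⟨p, hp, (mem_lo.1 hw).1⟩, (mem_lo.1 hw).2⟩

theorem hi_bigU {η F : M} : hi η (bigU F) = iU F fun p => hi η p := by
  apply ext; intro w
  rw [mem_hi, mem_iU, mem_bigU]
  constructor
  · rintro ⟨⟨p, hp, hw⟩, h4⟩
    exact ⟨p, hp, mem_hi.2 ⟨hw, h4⟩⟩
  · rintro ⟨p, hp, hw⟩
    exact ⟨⟨p, hp, (mem_hi.1 hw).1⟩, (mem_hi.1 hw).2⟩

theorem hi_lo {η p : M} : hi η (lo η p) = ∅ := by
  apply ext; intro w
  simp only [mem_lo, mem_hi, notMem_empty, iff_false]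
  rintro ⟨⟨-, h1⟩, h2⟩
  exact mem_irrefl _ (h2 _ h1)

/-- conditions -/
def UCnd (l κ p : M) : Prop :=
  IsFun p ∧ (∀ x ∈ dom p, ∃ a ∈ κ, l ∈ a ∧ IsInacc a ∧ ∃ e ∈ a, x = op a e) ∧
    (∀ x ∈ dom p, ap p x ∈ (two : M)) ∧
    (∀ b ∈ κ, l ∈ b → IsInacc b → card (lo (sc b) p) ∈ b) ∧ card p ∈ κ

instance UCnd.dfp {f g h : Γ → M} [Dff f] [Dff g] [Dff h] :
    Dfp fun γ => UCnd (f γ) (g γ) (h γ) := by
  unfold UCnd; infer_instance

/-- the set of the conditions -/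
noncomputable def PU (l κ : M) : M := sep (pw (prod (prod κ κ) two)) fun p => UCnd l κ p

instance PU.dff {f g : Γ → M} [Dff f] [Dff g] : Dff fun γ => PU (f γ) (g γ) := by
  unfold PU; infer_instance

theorem UCnd.mem_iff {l κ p w : M} (h : UCnd l κ p) (hw : w ∈ p) :
    ∃ a ∈ κ, l ∈ a ∧ IsInacc a ∧ ∃ e ∈ a, ∃ v ∈ (two : M), w = op (op a e) v ∧
      ap p (op a e) = v ∧ op a e ∈ dom p := by
  obtain ⟨x, hx, rfl⟩ := h.1.mem_iff.1 hw
  obtain ⟨a, ha, hla, hia, e, he, rfl⟩ := h.2.1 x hx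
  exact ⟨a, ha, hla, hia, e, he, _, h.2.2.1 _ hx, rfl, rfl, hx⟩

theorem mem_PU {l κ p : M} (hκ : IsOrd κ) : p ∈ PU l κ ↔ UCnd l κ p := by
  refine ⟨fun h => (mem_sep.1 h).2, fun h => mem_sep.2 ⟨mem_pw.2 fun w hw => ?_, h⟩⟩
  obtain ⟨a, ha, -, -, e, he, v, hv, rfl, -⟩ := h.mem_iff hw
  exact op_mem_prod.2 ⟨op_mem_prod.2 ⟨ha, hκ.trans he ha⟩, hv⟩

/-- a condition is the union of its two parts -/
theorem UCnd.lo_union_hi {l κ p η : M} (h : UCnd l κ p) (hη : IsOrd η) :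
    lo η p ∪ hi η p = p := by
  apply ext; intro w
  rw [mem_union, mem_lo, mem_hi]
  constructor
  · rintro (h | h) <;> exact h.1
  · intro hw
    obtain ⟨a, -, -, hia, e, -, v, -, rfl, -⟩ := h.mem_iff hw
    rw [p1_op, p1_op]
    rcases hη.total hia.isOrd with h1 | h1
    · exact Or.inr ⟨hw, h1⟩
    · exact Or.inl ⟨hw, h1⟩

/-- there are no coordinates `≤ l` -/
theorem UCnd.lo_eq_empty {l κ p : M} (h : UCnd l κ p) (hl : IsOrd l) : lo (sc l) p = ∅ := by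
  rw [eq_empty_iff]
  intro w hw
  obtain ⟨hw, h1⟩ := mem_lo.1 hw
  obtain ⟨a, -, hla, hia, e, -, v, -, rfl, -⟩ := h.mem_iff hw
  rw [p1_op, p1_op] at h1
  exact mem_irrefl _ ((hia.isOrd.mem_sc_iff hl).1 h1 _ hla)

section

variable {l κ : M} (hκ : IsInacc κ)

include hκ

theorem UCnd.sub {p q : M} (h : UCnd l κ p) (hq : q ⊆ p) : UCnd l κ q := by
  have hd : dom q ⊆ dom p := fun x hx => by
    obtain ⟨y, hy⟩ := mem_dom.1 hx
    exact mem_dom.2 ⟨y, hq _ hy⟩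
  have hf := h.1.mono hq
  refine ⟨hf, fun x hx => h.2.1 x (hd x hx), fun x hx => ?_, fun b hb hlb hib =>
    hib.card_sub (lo_mono hq) (h.2.2.2.1 b hb hlb hib), hκ.card_sub hq h.2.2.2.2⟩
  have h1 := hq _ (hf.op_ap_mem hx)
  rw [← h.1.ap_eq h1]
  exact h.2.2.1 x (hd x hx)

omit hκ in
theorem ucnd_dom_bigU {F : M} (hF : ∀ p ∈ F, IsFun p) (x : M) :
    x ∈ dom (bigU F) ↔ ∃ p ∈ F, x ∈ dom p := by
  rw [mem_dom]
  constructor
  · rintro ⟨y, hy⟩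
    obtain ⟨p, hp, h⟩ := mem_bigU.1 hy
    exact ⟨p, hp, mem_dom.2 ⟨y, h⟩⟩
  · rintro ⟨p, hp, hx⟩
    exact ⟨ap p x, mem_bigU.2 ⟨p, hp, (hF p hp).op_ap_mem hx⟩⟩

omit hκ in
theorem isFun_bigU {F : M} (hF : ∀ p ∈ F, ∀ q ∈ F, ∃ r, IsFun r ∧ p ⊆ r ∧ q ⊆ r) :
    IsFun (bigU F) := by
  refine ⟨fun w hw => ?_, fun x y y' h1 h2 => ?_⟩
  · obtain ⟨p, hp, hw⟩ := mem_bigU.1 hw
    obtain ⟨r, hr, h1, -⟩ := hF p hp p hp
    exact hr.1 w (h1 w hw)
  · obtain ⟨p, hp, h3⟩ := mem_bigU.1 h1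
    obtain ⟨q, hq, h4⟩ := mem_bigU.1 h2
    obtain ⟨r, hr, h5, h6⟩ := hF p hp q hq
    exact hr.2 x y y' (h5 _ h3) (h6 _ h4)

/-- unions of small families of conditions -/
theorem ucnd_bigU {F : M} (hF : ∀ p ∈ F, UCnd l κ p)
    (hc : ∀ p ∈ F, ∀ q ∈ F, ∃ r, IsFun r ∧ p ⊆ r ∧ q ⊆ r) (h1 : card F ∈ κ)
    (h2 : ∀ b ∈ κ, l ∈ b → IsInacc b → card F ∈ b ∨
      ∃ r, UCnd l κ r ∧ ∀ p ∈ F, lo (sc b) p ⊆ r) :
    UCnd l κ (bigU F) := by
  have hf : IsFun (bigU F) := isFun_bigU hc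
  have hd := ucnd_dom_bigU (F := F) fun p hp => (hF p hp).1
  refine ⟨hf, fun x hx => ?_, fun x hx => ?_, fun b hb hlb hib => ?_, ?_⟩
  · obtain ⟨p, hp, hx⟩ := (hd x).1 hx
    exact (hF p hp).2.1 x hx
  · obtain ⟨p, hp, hx⟩ := (hd x).1 hx
    rw [hf.ap_eq (mem_bigU.2 ⟨p, hp, (hF p hp).1.op_ap_mem hx⟩)]
    exact (hF p hp).2.2.1 x hx
  · rcases h2 b hb hlb hib with h3 | ⟨r, hr, h3⟩
    · rw [lo_bigU]
      exact hib.reg.card_iU _ h3 fun p hp => (hF p hp).2.2.2.1 b hb hlb hib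
    · refine hib.card_sub (y := lo (sc b) r) (fun w hw => ?_) (hr.2.2.2.1 b hb hlb hib)
      obtain ⟨hw, h4⟩ := mem_lo.1 hw
      obtain ⟨p, hp, hw⟩ := mem_bigU.1 hw
      exact mem_lo.2 ⟨h3 p hp _ (mem_lo.2 ⟨hw, h4⟩), h4⟩
  · exact hκ.reg.card_bigU h1 fun p hp => (hF p hp).2.2.2.2

theorem UCnd.union {p q : M} (hp : UCnd l κ p) (hq : UCnd l κ q) (h : IsFun (p ∪ q)) :
    UCnd l κ (p ∪ q) := by
  have e : p ∪ q = bigU (upair p q) := rfl
  rw [e]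
  refine ucnd_bigU hκ (fun r hr => ?_) (fun r hr r' hr' => ⟨p ∪ q, h, ?_, ?_⟩) hκ.card_upair
    fun b _ _ hib => Or.inl hib.card_upair
  · rcases mem_upair.1 hr with rfl | rfl
    · exact hp
    · exact hq
  · rcases mem_upair.1 hr with rfl | rfl
    · exact sub_union_left
    · exact sub_union_right
  · rcases mem_upair.1 hr' with rfl | rfl
    · exact sub_union_left
    · exact sub_union_right

theorem ucnd_empty : UCnd l κ (∅ : M) := by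
  have h : ∀ x : M, x ∉ dom (∅ : M) := fun x hx => by
    obtain ⟨y, hy⟩ := mem_dom.1 hx
    exact notMem_empty _ hy
  refine ⟨⟨fun p hp => absurd hp (notMem_empty _), fun x y y' h1 => absurd h1 (notMem_empty _)⟩,
    fun x hx => absurd hx (h x), fun x hx => absurd hx (h x), fun b _ _ hib => ?_,
    hκ.card_empty⟩
  exact hib.card_sub lo_sub hib.card_empty

omit hκ in
theorem isFun_glue {p q η : M} (hp : IsFun p) (hq : IsFun q) : IsFun (lo η p ∪ hi η q) := by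
  have h1 := hp.mono (lo_sub (η := η))
  have h2 := hq.mono (hi_sub (η := η))
  refine ⟨fun w hw => ?_, fun x y y' h3 h4 => ?_⟩
  · rcases mem_union.1 hw with hw | hw
    · exact h1.1 w hw
    · exact h2.1 w hw
  · rcases mem_union.1 h3 with h5 | h5 <;> rcases mem_union.1 h4 with h6 | h6
    · exact h1.2 x y y' h5 h6
    · have h7 := (mem_lo.1 h5).2
      have h8 := (mem_hi.1 h6).2
      rw [p1_op] at h7 h8
      exact absurd (h8 _ h7) (mem_irrefl _)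
    · have h7 := (mem_lo.1 h6).2
      have h8 := (mem_hi.1 h5).2
      rw [p1_op] at h7 h8
      exact absurd (h8 _ h7) (mem_irrefl _)
    · exact h2.2 x y y' h5 h6

/-- parts can be glued -/
theorem UCnd.glue {p q η : M} (hp : UCnd l κ p) (hq : UCnd l κ q) :
    UCnd l κ (lo η p ∪ hi η q) :=
  (hp.sub hκ lo_sub).union hκ (hq.sub hκ hi_sub) (isFun_glue hp.1 hq.1)

omit hκ in
/-- the part below an inaccessible cardinal is small -/
theorem UCnd.lo_mem_Vr {p ξ : M} (hp : UCnd l κ p) (hξ : ξ ∈ κ) (hl : l ∈ ξ) (hi : IsInacc ξ) :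
    lo ξ p ∈ Vr ξ := by
  refine mem_Vr_of_card hi.reg (fun w hw => ?_) ?_
  · obtain ⟨hw, h1⟩ := mem_lo.1 hw
    obtain ⟨a, -, -, hia, e, he, v, hv, rfl, -⟩ := hp.mem_iff hw
    rw [p1_op, p1_op] at h1
    have h2 := (ord_mem_Vr_iff hia.isOrd hi.isOrd).2 h1
    exact op_mem_Vr hi.lim (op_mem_Vr hi.lim h2 (isTrans_Vr _ _ h2 _ he))
      (isTrans_Vr _ _ hi.two_mem_Vr _ hv)
  · exact hi.card_sub (fun w hw => mem_lo.2 ⟨(mem_lo.1 hw).1, mem_sc.2 (Or.inl (mem_lo.1 hw).2)⟩)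
      (hp.2.2.2.1 ξ hξ hl hi)

/-- conditions are elements of `V_κ` -/
theorem UCnd.mem_Vr {p : M} (hp : UCnd l κ p) : p ∈ Vr κ := by
  refine mem_Vr_of_card hκ.reg (fun w hw => ?_) hp.2.2.2.2
  obtain ⟨a, ha, -, hia, e, he, v, hv, rfl, -⟩ := hp.mem_iff hw
  have h2 := (ord_mem_Vr_iff hia.isOrd hκ.isOrd).2 ha
  exact op_mem_Vr hκ.lim (op_mem_Vr hκ.lim h2 (isTrans_Vr _ _ h2 _ he))
    (isTrans_Vr _ _ hκ.two_mem_Vr _ hv)

/-- the conditions with coordinates `< η` -/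
noncomputable def PLo (l κ η : M) : M := sep (PU l κ) fun p => lo η p = p

omit hκ in
theorem mem_PLo {κ η p : M} (hκ : IsOrd κ) : p ∈ PLo l κ η ↔ UCnd l κ p ∧ lo η p = p := by
  unfold PLo
  rw [mem_sep, mem_PU hκ]

/-- there are few conditions with coordinates `< η` -/
theorem card_PLo {η b : M} (hη : η ∈ b) (hb : IsInacc b) : card (PLo l κ η) ∈ b := by
  refine hb.card_sub (y := pw (prod (prod η η) two)) (fun p hp => mem_pw.2 fun w hw => ?_)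
    (hb.card_pw (hb.card_prod (hb.card_prod (hb.card_mem hη) (hb.card_mem hη)) hb.card_two))
  obtain ⟨h1, h2⟩ := (mem_PLo hκ.isOrd).1 hp
  rw [← h2] at hw
  obtain ⟨hw, h3⟩ := mem_lo.1 hw
  obtain ⟨a, -, -, hia, e, he, v, hv, rfl, -⟩ := h1.mem_iff hw
  rw [p1_op, p1_op] at h3
  exact op_mem_prod.2 ⟨op_mem_prod.2 ⟨h3, (hb.isOrd.mem hη).trans he h3⟩, hv⟩

end

instance PLo.dff {f g h : Γ → M} [Dff f] [Dff g] [Dff h] :
    Dff fun γ => PLo (f γ) (g γ) (h γ) := by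
  unfold PLo; infer_instance

/-- the poset -/
noncomputable def UP (l κ : M) (hκ : IsInacc κ) : LPo M :=
  spo (PU l κ) (fun q p => p ⊆ q) ∅ inferInstance (fun p _ => Sub.refl p)
    (fun _ _ _ _ _ _ h h' => Sub.trans h' h)
    ((mem_PU hκ.isOrd).2 (ucnd_empty hκ)) fun p _ => empty_sub p

section

variable {l κ : M} {hκ : IsInacc κ}

theorem UP_cd {p : M} : (UP l κ hκ).Cd p ↔ UCnd l κ p := mem_PU hκ.isOrd

theorem UP_le {p q : M} : (UP l κ hκ).le q p ↔ UCnd l κ q ∧ UCnd l κ p ∧ p ⊆ q := by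
  change (q ∈ PU l κ ∧ p ∈ PU l κ ∧ p ⊆ q) ↔ _
  rw [mem_PU hκ.isOrd, mem_PU hκ.isOrd]

end

end

end Pool.Agent.IST
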