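import Pool.Agent.LP.Read
import Pool.Agent.LP.Basic
import Pool.Agent.UG.Pos
import Pool.Agent.UG.MsrN

/-!
# Weak compactness in the extension: the part in the generic extension

`wc_core`: a descending sequence `F` of length `κ` of functions into the conditions, which decides
a relation, gives a branch through the relation in the extension.
-/

set_option synthInstance.maxSize 100000

namespace Pool.Agent.IST

open Pool.Agent.BVM

namespace Gen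

variable {M : Type} [SetModel M] [GCh M] {P : LPo M} (G : Gen P)

/-- a relation of the extension is uniform on a set of size `κ`, up to fewer than `κ` many
indices -/
theorem wc_core {κ nf F q iv b : M} (hreg : IsReg (G.io κ))
    (hq : ∀ v ∈ κ, ap q v ∈ P.PP ∅)
    (hF : ∀ v ∈ κ, ∀ a ∈ dom (ap F v), a ∈ κ ∧ P.Cd (ap (ap F v) a))
    (hdesc : ∀ v ∈ κ, ∀ u ∈ v, ∀ a ∈ dom (ap F v),
      a ∈ dom (ap F u) ∧ P.le (ap (ap F v) a) (ap (ap F u) a))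
    (hd1 : ∀ i ∈ κ, ∀ p, P.Cd p → ∃ v ∈ κ, ap iv v = i ∧ P.le (ap q v) p)
    (hdec : ∀ v ∈ κ, ∀ a ∈ dom (ap F (sc v)), ∀ u, P.le u (ap q v) → P.le u (ap (ap F (sc v)) a) →
      (v ∈ b → P.Fm u (opN P (P.chk (ap iv v)) (P.chk a)) nf) ∧
        (v ∉ b → ¬ P.Fm u (opN P (P.chk (ap iv v)) (P.chk a)) nf))
    (hd2 : ∀ v ∈ κ, ∀ c ∈ κ, ∀ p, P.Cd p →
      ∃ a ∈ dom (ap F v), c ∈ a ∧ ∃ u, P.le u p ∧ P.le u (ap (ap F v) a)) :
    ∃ z, z ⊆ G.io κ ∧ ∀ β ∈ G.io κ,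
      card (sep (G.io κ) fun a => ∀ i ∈ β, (op i a ∈ G.nm nf ↔ i ∈ z)) = G.io κ := by
  have hκ : IsOrd κ := G.temb.isOrd.1 hreg.isOrd
  obtain ⟨g, hg⟩ := G.exists_filter (isOrd_empty (M := M))
  have hgm : ∀ r ∈ P.PP (∅ : M), (G.io r ∈ g ↔ G.G r) := by
    intro r hr
    rw [hg]
    constructor
    · rintro ⟨s, -, hs, e⟩
      rw [G.io_inj e]
      exact hs
    · intro h
      exact ⟨r, hr, h, rfl⟩
  -- the indices
  obtain ⟨vv, hvv, hvv'⟩ := exists_choice_rel (G.io κ) (G.io κ)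
    (fun i v => ap (G.io iv) v = i ∧ ap (G.io q) v ∈ g) fun i' hi' => by
      obtain ⟨i, hi, rfl⟩ := G.io_tr hi'
      obtain ⟨r, hr, v, hv, h1, h2⟩ := G.meets (fun r => ∃ v ∈ κ, ap iv v = i ∧ P.le r (ap q v))
        inferInstance fun r hr => by
          obtain ⟨v, hv, h1, h2⟩ := hd1 i hi r hr
          exact ⟨ap q v, h2, v, hv, h1, P.le_refl (P.left h2)⟩
      refine ⟨G.io v, G.io_mem.2 hv, ?_, ?_⟩
      · rw [← G.temb.ap', h1]
      · rw [← G.temb.ap', hgm _ (hq v hv)]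
        exact G.up hr h2
  refine ⟨sep (G.io κ) fun i => ap vv i ∈ G.io b, fun x hx => (mem_sep.1 hx).1, fun β' hβ' => ?_⟩
  -- a bound of the indices
  obtain ⟨v1', hv1', hb⟩ := hreg.bdd (card_mem_of_mem hreg.isCard hβ')
    (fun i => ap vv i) fun i hi => hvv.ap_mem (hreg.isOrd.trans hi hβ')
  obtain ⟨v1, hv1, rfl⟩ := G.io_tr hv1'
  refine hreg.card_unbounded (fun x hx => (mem_sep.1 hx).1) fun c' hc' => ?_
  obtain ⟨c, hc, rfl⟩ := G.io_tr hc'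
  obtain ⟨r, hr, a, ha, hca, hra⟩ := G.meets
    (fun r => ∃ a ∈ dom (ap F v1), c ∈ a ∧ P.le r (ap (ap F v1) a)) inferInstance fun r hr => by
      obtain ⟨a, ha, h1, u, h2, h3⟩ := hd2 v1 hv1 c hc r hr
      exact ⟨u, h2, a, ha, h1, h3⟩
  have haκ := (hF v1 hv1 a ha).1
  refine ⟨G.io a, mem_sep.2 ⟨G.io_mem.2 haκ, fun i' hi' => ?_⟩,
    (G.temb.isOrd.2 (hκ.mem haκ)).sub_of_mem (G.io_mem.2 hca)⟩
  have hiκ : i' ∈ G.io κ := hreg.isOrd.trans hi' hβ'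
  obtain ⟨h1, h2⟩ := hvv' i' hiκ
  have h3 := hb i' hi'
  obtain ⟨v, hv, h4⟩ := G.io_tr h3
  obtain ⟨i, hi, rfl⟩ := G.io_tr hiκ
  rw [h4, ← G.temb.ap'] at h1 h2
  have hvκ : v ∈ κ := hκ.trans hv hv1
  have h5 := G.io_inj h1
  rw [hgm _ (hq v hvκ)] at h2
  -- `F (sc v)` is above `F v1`
  have h6 : a ∈ dom (ap F (sc v)) ∧ G.G (ap (ap F (sc v)) a) := by
    rcases ((hκ.mem hvκ).sc.sub_iff (hκ.mem hv1)).1 ((hκ.mem hv1).sc_sub_iff.2 hv) with h7 | h7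
    · obtain ⟨h8, h9⟩ := hdesc v1 hv1 _ h7 a ha
      exact ⟨h8, G.up hr (P.le_trans hra h9)⟩
    · rw [h7]
      exact ⟨ha, G.up hr hra⟩
  obtain ⟨u, hu, h7, h8⟩ := G.dir h2 h6.2
  obtain ⟨h9, h10⟩ := hdec v hvκ a h6.1 u h7 h8
  rw [h5] at h9 h10
  have h11 : G.io i ∈ (sep (G.io κ) fun i => ap vv i ∈ G.io b) ↔ v ∈ b := by
    rw [mem_sep, h4, G.io_mem, G.io_mem]
    exact and_iff_right (G.io_mem.1 hiκ)
  rw [h11]
  constructor
  · intro h12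
    by_contra h13
    obtain ⟨s, hs, h14⟩ := G.mem_opN.1 h12
    obtain ⟨t, ht, h15, h16⟩ := G.dir hu hs
    refine ((hdec v hvκ a h6.1 t (P.le_trans h15 h7) (P.le_trans h15 h8)).2 h13) ?_
    rw [h5]
    exact h14.mono h16
  · intro h12
    exact G.mem_opN.2 ⟨u, hu, h9 h12⟩

end Gen

section

variable {M : Type} [SetModel M]

/-- sets in the measure are unbounded -/
theorem nfu_unb {κ U X : M} (h : Nfu κ κ κ U) (hX : X ∈ U) {c : M} (hc : c ∈ κ) :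
    ∃ a ∈ X, c ∈ a := by
  have h1 : Aa U κ fun x => x ∈ X := by
    have e : sep κ (fun x => x ∈ X) = X := ext fun z => by
      rw [mem_sep]
      exact ⟨fun h => h.2, fun hz => ⟨h.2.1 X hX z hz, hz⟩⟩
    unfold Aa
    rwa [e]
  obtain ⟨x, -, h2, h3⟩ := h.aa_ex (h.aa_and h1 (h.aa_fine hc))
  exact ⟨x, h2, h3⟩

variable {l κ : M} (hκ : IsInacc κ)

include hκ

/-- the coordinates of a condition are bounded -/
theorem UCnd.exists_bd {p : M} (h : UCnd l κ p) : ∃ d ∈ κ, ∀ w ∈ p, p1 (p1 w) ∈ d := by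
  refine hκ.reg.bdd h.2.2.2.2 (fun w => p1 (p1 w)) fun w hw => ?_
  obtain ⟨a, ha, -, -, e, -, v, -, rfl, -⟩ := h.mem_iff hw
  rwa [p1_op, p1_op]

/-- conditions with separated coordinates are compatible -/
theorem UCnd.union_sep {p q a : M} (hp : UCnd l κ p) (hq : UCnd l κ q)
    (h1 : ∀ w ∈ p, p1 (p1 w) ∈ a) (h2 : lo a q = ∅) : UCnd l κ (p ∪ q) := by
  refine hp.union hκ hq ⟨fun w hw => ?_, fun x y y' h3 h4 => ?_⟩
  · rcases mem_union.1 hw with hw | hw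
    · exact hp.1.1 w hw
    · exact hq.1.1 w hw
  · have h5 : ∀ x y y' : M, op x y ∈ p → op x y' ∈ q → False := fun x y y' h6 h7 => by
      have h8 := h1 _ h6
      have h9 : op x y' ∈ lo a q := mem_lo.2 ⟨h7, by rw [p1_op] at h8 ⊢; exact h8⟩
      rw [h2] at h9
      exact notMem_empty _ h9
    rcases mem_union.1 h3 with h6 | h6 <;> rcases mem_union.1 h4 with h7 | h7
    · exact hp.1.2 x y y' h6 h7
    · exact (h5 x y y' h6 h7).elim
    · exact (h5 x y' y h7 h6).elim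
    · exact hq.1.2 x y y' h6 h7

end

namespace Gen

variable {M : Type} [SetModel M] [GCh M] {l κ : M} {hκ : IsInacc κ} (G : Gen (UP l κ hκ))

/-- the facts about the sequence in the ground model which are used in the extension -/
structure WcSeq (P : LPo M) (l κ U nf F q iv b : M) : Prop where
  q_maps : Maps q κ (PU l κ)
  dom_mem : ∀ v ∈ κ, dom (ap F v) ∈ U
  cnd : ∀ v ∈ κ, ∀ a ∈ dom (ap F v), UCnd l κ (ap (ap F v) a) ∧ lo a (ap (ap F v) a) = ∅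
  desc : ∀ v ∈ κ, ∀ u ∈ v, ∀ a ∈ dom (ap F v),
    a ∈ dom (ap F u) ∧ ap (ap F u) a ⊆ ap (ap F v) a
  dense : ∀ i ∈ κ, ∀ p, UCnd l κ p → ∃ v ∈ κ, ap iv v = i ∧ p ⊆ ap q v
  dec : ∀ v ∈ κ, ∀ a ∈ dom (ap F (sc v)), ∀ u, UCnd l κ u → ap q v ⊆ u →
    ap (ap F (sc v)) a ⊆ u →
      (v ∈ b → P.Fm u (opN P (P.chk (ap iv v)) (P.chk a)) nf) ∧
        (v ∉ b → ¬ P.Fm u (opN P (P.chk (ap iv v)) (P.chk a)) nf)

/-- relations of the extension have uniform branches -/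
theorem wc_branch {U nf F q iv b : M} (hU : Nfu κ κ κ U) (hreg : IsReg (G.io κ))
    (h : WcSeq (UP l κ hκ) l κ U nf F q iv b) :
    ∃ z, z ⊆ G.io κ ∧ ∀ β ∈ G.io κ,
      card (sep (G.io κ) fun a => ∀ i ∈ β, (op i a ∈ G.nm nf ↔ i ∈ z)) = G.io κ := by
  refine G.wc_core hreg (F := F) (q := q) (iv := iv) (b := b) (fun v hv => h.q_maps.ap_mem hv)
    (fun v hv a ha => ⟨hU.2.1 _ (h.dom_mem v hv) a ha, UP_cd.2 (h.cnd v hv a ha).1⟩)
    (fun v hv u hu a ha => ?_) (fun i hi p hp => ?_) (fun v hv a ha u h1 h2 => ?_)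
    fun v hv c hc p hp => ?_
  · obtain ⟨h1, h2⟩ := h.desc v hv u hu a ha
    exact ⟨h1, UP_le.2 ⟨(h.cnd v hv a ha).1, (h.cnd u (hκ.isOrd.trans hu hv) a h1).1, h2⟩⟩
  · obtain ⟨v, hv, h1, h2⟩ := h.dense i hi p (UP_cd.1 hp)
    exact ⟨v, hv, h1, UP_le.2 ⟨(mem_PU hκ.isOrd).1 (h.q_maps.ap_mem hv), UP_cd.1 hp, h2⟩⟩
  · exact h.dec v hv a ha u (UP_le.1 h1).1 (UP_le.1 h1).2.2 (UP_le.1 h2).2.2
  · have hp' := UP_cd.1 hp
    obtain ⟨d, hd, h1⟩ := hp'.exists_bd hκ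
    obtain ⟨a, ha, h2⟩ := nfu_unb hU (h.dom_mem v hv) (hκ.isOrd.union_mem hc hd)
    have haκ : a ∈ κ := hU.2.1 _ (h.dom_mem v hv) a ha
    have hao := hκ.isOrd.mem haκ
    have hco := hκ.isOrd.mem hc
    have hdo := hκ.isOrd.mem hd
    have h3 := hao.sub_of_mem h2
    obtain ⟨h4, h5⟩ := h.cnd v hv a ha
    have hda : d ⊆ a := Sub.trans sub_union_right h3
    have h6 := hp'.union_sep hκ h4 (fun w hw => hda _ (h1 w hw)) h5
    refine ⟨a, ha, hco.mem_of_sub_of_mem hao sub_union_left h2, p ∪ ap (ap F v) a, ?_, ?_⟩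
    · exact UP_le.2 ⟨h6, hp', sub_union_left⟩
    · exact UP_le.2 ⟨h6, h4, sub_union_right⟩

end Gen

end Pool.Agent.IST
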