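import Pool.Agent.UG.WCa
import Pool.Agent.UG.WCb
import Pool.Agent.UG.WCc
import Pool.Agent.UG.Inacc

/-!
# `κ` is weakly compact in the extension
-/

set_option synthInstance.maxSize 100000

namespace Pool.Agent.IST

open Pool.Agent.BVM

namespace Gen

variable {M : Type} [SetModel M] [GCh M] {l κ : M} {hκ : IsInacc κ} (G : Gen (UP l κ hκ))

/-- the measurable cardinal `κ` of the ground model is weakly compact in the extension -/
theorem wcpt {U : M} (hU : Nfu κ κ κ U) (hl : l ∈ κ) : WCpt (G.io κ) := by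
  have hin := G.isInacc_k (hκ.isOrd.mem hl)
  refine WCpt.of_branch hin fun T => ?_
  obtain ⟨nf, rfl⟩ := G.exists_nm T
  obtain ⟨F, q, iv, b, h⟩ := exists_wcb hκ hU hl nf
  exact G.wc_branch hU hin.reg h

end Gen

end Pool.Agent.IST
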