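import Pool.Agent.UG.UlamG
import Pool.Agent.UG.DecL
import Pool.Agent.UG.EndL
import Pool.Agent.UG.StarF
import Pool.Agent.UG.Inacc
import Pool.Agent.UG.NIn
import Pool.Agent.UG.WCm

/-!
# The Ulam games and the game `G*` on a weakly compact cardinal: the internal statement
-/

set_option synthInstance.maxSize 100000

namespace Pool.Agent.IST

open Pool.Agent.BVM

/-- every countable model with a measurable cardinal has a generic extension in which player II wins
the Ulam games of length `≤ m` on a weakly compact cardinal `κ`, but does not win any game `G*_γ`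
and does not win the Welch games of length `> ω` -/
theorem exists_ulam_not_star {M : Type} [SetModel M] [GCh M] [Countable M] {κ m W : M}
    (hW : Kuf κ W) (hκ : InfCard κ) (ho : om ∈ κ) (hm : m ∈ κ) (him : IsInacc m) :
    ∃ (N : Type) (_ : SetModel N) (k l : N), WCpt k ∧ IsInacc l ∧ l ∈ k ∧
      (∀ γ ∈ sc l, UWin k γ) ∧ (∀ γ : N, IsOrd γ → om ⊆ γ → ¬ SWin k γ) ∧
      ∀ γ : N, IsOrd γ → om ∈ γ → ¬ WWin k γ := by
  obtain ⟨U, hU⟩ := hW.exists_normal hκ ho
  have hk : IsInacc κ := NMs.inac hU hκ ho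
  obtain ⟨G, -⟩ := Gen.exists_gen (UP m κ hk) (p := (UP m κ hk).one) (UP m κ hk).cd_one
  have hki := G.isInacc_k him.isOrd
  have hN : NotIneff (G.io κ) := G.notIneff hm
  refine ⟨G.Ext, inferInstance, G.io κ, G.io m, G.wcpt hU hm, G.isInacc_l hm him, G.io_mem.2 hm,
    fun γ hγ => G.uwin hU hm (decL hk hm hU) (endL hk hU) hki.reg hγ,
    fun γ hγ hoγ => not_SWin hki.reg hki.slim hki.om_mem hN hγ hoγ,
    fun γ hγ hoγ => not_WWin hki.reg hki.slim hki.om_mem hN hγ hoγ⟩

end Pool.Agent.IST
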