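import Pool.Agent.UG.BridgeG
import Pool.Agent.UG.LS
import Pool.Agent.UG.Main
import Pool.Agent.IST.GenV

/-!
# The final assembly
-/

set_option synthInstance.maxSize 100000

namespace Pool.Agent.UG

open Pool.Agent.BVM Pool.Agent.SCC Pool.Agent.IST

/-- what is proved about a model of set theory -/
def Good {N : Type} [SetModel N] (κ m : N) : Prop :=
  IsInacc κ ∧ WCpt κ ∧ IsInacc m ∧ m ∈ κ ∧ (∀ γ ∈ sc m, UWin κ γ) ∧
    (∀ γ, IsLim γ → ¬ SWin κ γ) ∧ ∀ γ, IsOrd γ → om ∈ γ → ¬ WWin κ γ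

/-- the result for countable models with a measurable cardinal -/
theorem exists_good' {M : Type} [SetModel M] [Countable M] [GCh M] {κ W m : M} (hκ : InfCard κ)
    (ho : om ∈ κ) (hW : Kuf κ W) (hmi : IsInacc m) (hm : m ∈ κ) :
    ∃ (N : Type) (_ : SetModel N) (κ' m' : N), Good κ' m' := by
  obtain ⟨N, SN, k, l, h1, h2, h3, h4, h5, h6⟩ := exists_ulam_not_star hW hκ ho hm hmi
  exact ⟨N, SN, k, l, h1.1, h1, h2, h3, h4, fun γ hγ => h5 γ hγ.1 (om_sub_of_isLim hγ), h6⟩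

/-- what is proved about a structure -/
def GoodE {N : Type} (E : N → N → Prop) : Prop :=
  ZFC E ∧ ∃ κ m, WeaklyCompact E κ ∧ Inaccessible E m ∧ E m κ ∧
    (∀ γ, Limit E γ → (γ = m ∨ E γ m) → UlamWin E κ γ ∧ BigUlamWin E κ γ) ∧
    (∀ γ, Limit E γ → ¬ StarWin E κ γ) ∧
    ∀ γ w, Ordl E γ → Omega E w → E w γ → ¬ WelchWin E κ γ

theorem Good.goodE {N : Type} [SetModel N] {κ m : N} (h : Good κ m) :
    GoodE (SetModel.E : N → N → Prop) := by
  obtain ⟨h1, h2, h3, h4, h5, h6, h7⟩ := h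
  refine ⟨SetModel.zfc.zfc, κ, m, weaklyCompact_iff.2 h2, inaccessible_iff.2 h3, h4,
    fun γ hγ hm => ?_, fun γ hγ => ?_, fun γ w hγ hw hwγ => ?_⟩
  · rw [limit_iff] at hγ
    have h8 : UWin κ γ := h5 γ (mem_sc.2 hm.symm)
    exact ⟨ulamWin_of h1.inf hγ.1 h8, bigUlamWin_of h1.inf hγ.1 h8⟩
  · rw [limit_iff] at hγ
    exact fun h8 => h6 γ hγ (sWin_of h1.inf hγ.1 h8)
  · rw [omega_iff] at hw
    rw [ordl_iff] at hγ
    subst hw
    exact fun h8 => h7 γ hγ hwγ (wWin_of h1.inf hγ h8)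

theorem exists_good {M : Type} [S : SetModel M] [Countable M] {κ : M}
    (hκ : Measurable (SetModel.E : M → M → Prop) κ) :
    ∃ (M' : Type) (E' : M' → M' → Prop), GoodE E' := by
  obtain ⟨U', hU, hG, -⟩ := exists_class κ κ
  let S' : SetModel M := ⟨S.E, U', hU⟩
  have _ := hG
  obtain ⟨h1, ho, W, hW⟩ := (@measurable_iff M S' κ).1 hκ
  have hi : InfCard κ := ⟨h1, h1.isOrd.sub_of_mem ho⟩
  obtain ⟨U, hN⟩ := hW.exists_normal hi ho
  obtain ⟨m, hm, hm'⟩ := hN.aa_ex (NMs.aa_inac hN hi ho)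
  obtain ⟨N, SN, κ', m', h⟩ := exists_good' hi ho hW hm' hm
  exact ⟨N, SN.E, h.goodE⟩

universe u

/-- **Main theorem** -/
theorem main {M : Type u} (E : M → M → Prop) (hE : ZFC E)
    (hs : ∃ κ, Measurable E κ) :
    ∃ (M' : Type) (E' : M' → M' → Prop), GoodE E' := by
  obtain ⟨M₁, hc, E₁, h1, κ₁, h2⟩ := exists_countable_measurable hE hs
  let _ : SetModel M₁ := ⟨E₁, fun _ => False, h1.zfcU⟩
  exact exists_good h2

end Pool.Agent.UG
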