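import Pool.Agent.UG.Pos

/-!
# Meeting few dense sets with small changes below `ξ`
-/

set_option synthInstance.maxSize 100000

namespace Pool.Agent.IST

open Pool.Agent.BVM

section

variable {M : Type} [SetModel M] {Γ : Type} [IsCtx Γ M]

/-- `E` is smaller than all inaccessible `b ≤ κ` above `l` and `ξ` -/
def Sm (l κ ξ E : M) : Prop := card E ∈ κ ∧ ∀ b ∈ κ, l ∈ b → ξ ∈ b → IsInacc b → card E ∈ b

instance Sm.dfp {f g h k : Γ → M} [Dff f] [Dff g] [Dff h] [Dff k] :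
    Dfp fun γ => Sm (f γ) (g γ) (h γ) (k γ) := by
  unfold Sm; infer_instance

/-- sets of size at most `|ξ|` -/
theorem sm_of_leq {l κ ξ E : M} (hκ : IsInacc κ) (hξ : ξ ∈ κ) (h : Leq E ξ) : Sm l κ ξ E :=
  ⟨hκ.card_leq h (hκ.card_mem hξ), fun _ _ _ hξb hib => hib.card_leq h (hib.card_mem hξb)⟩

theorem Sm.leq {l κ ξ E F : M} (hκ : IsInacc κ) (h : Sm l κ ξ E) (h' : Leq F E) : Sm l κ ξ F :=
  ⟨hκ.card_leq h' h.1, fun b hb hl hξ hib => hib.card_leq h' (h.2 b hb hl hξ hib)⟩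

theorem Sm.prod {l κ ξ E F : M} (hκ : IsInacc κ) (h : Sm l κ ξ E) (h' : Sm l κ ξ F) :
    Sm l κ ξ (prod E F) :=
  ⟨hκ.card_prod h.1 h'.1, fun b hb hl hξ hib => hib.card_prod (h.2 b hb hl hξ hib)
    (h'.2 b hb hl hξ hib)⟩

theorem sm_PLo {l κ ξ : M} (hκ : IsInacc κ) (hξ : ξ ∈ κ) : Sm l κ ξ (PLo l κ (sc ξ)) :=
  ⟨card_PLo hκ (hκ.lim.2.2 ξ hξ) hκ, fun _ _ _ hξb hib => card_PLo hκ (hib.lim.2.2 ξ hξb) hib⟩

/-- the sequence of the conditions `q_i` in the proof of the lemma below -/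
noncomputable def meetQ (c q₀ i : M) : M :=
  erec (fun i f => q₀ ∪ bigU (img i fun j => ap c (op j (ap f j)))) i

instance meetQ.dff {f g h : Γ → M} [Dff f] [Dff g] [Dff h] :
    Dff fun γ => meetQ (f γ) (g γ) (h γ) := by
  unfold meetQ
  exact erec.dff (G := fun (γ : Γ) i k => g γ ∪ bigU (img i fun j => ap (f γ) (op j (ap k j))))

theorem meetQ_eq (c q₀ i : M) :
    meetQ c q₀ i = q₀ ∪ bigU (img i fun j => ap c (op j (meetQ c q₀ j))) := by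
  have h : Dff fun γ : (E0 M × M) × M =>
      q₀ ∪ bigU (img γ.1.2 fun j => ap c (op j (ap γ.2 j))) := inferInstance
  have h1 : meetQ c q₀ i = q₀ ∪ bigU (img i fun j =>
      ap c (op j (ap (lam i fun y => meetQ c q₀ y) j))) :=
    erec_eq (G := fun i f => q₀ ∪ bigU (img i fun j => ap c (op j (ap f j)))) i
  rw [h1]
  congr 2
  apply ext; intro z
  rw [mem_img, mem_img]
  constructor
  · rintro ⟨j, hj, rfl⟩
    exact ⟨j, hj, by rw [ap_lam hj]⟩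
  · rintro ⟨j, hj, rfl⟩
    exact ⟨j, hj, by rw [ap_lam hj]⟩

/-- **closed posets**: tasks indexed by an ordinal `θ` can be done one after the other if unions of
increasing sequences of length at most `θ` exist -/
theorem exists_tasks {θ Q q₀ : M} (hθ : IsOrd θ) (hq₀ : q₀ ∈ Q) (T : M → M → Prop)
    [hT : Dfp fun γ : (E0 M × M) × M => T γ.1.2 γ.2]
    (hcl : ∀ F, F ⊆ Q → q₀ ∈ F → (∀ p ∈ F, ∀ q ∈ F, p ⊆ q ∨ q ⊆ p) → Leq F (sc θ) → bigU F ∈ Q)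
    (ho : ∀ i ∈ θ, ∀ p ∈ Q, ∀ q ∈ Q, p ⊆ q → T i p → T i q)
    (hd : ∀ i ∈ θ, ∀ p ∈ Q, q₀ ⊆ p → ∃ q ∈ Q, p ⊆ q ∧ T i q) :
    ∃ q ∈ Q, q₀ ⊆ q ∧ ∀ i ∈ θ, T i q := by
  have hT' : Dfp fun γ : (E0 M × M) × M => p2 γ.1.2 ⊆ γ.2 ∧ T (p1 γ.1.2) γ.2 := by
    have : ∀ {Δ : Type} [IsCtx Δ M] {a b : Δ → M} [Dff a] [Dff b],
        Dfp fun δ => T (a δ) (b δ) := fun {_ _ _ _ _ _} => Dfp.use2 hT
    infer_instance
  let Q' : M := sep Q fun p => q₀ ⊆ p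
  obtain ⟨c, hc, hc'⟩ := exists_choice_rel (prod θ Q') Q (fun t q => p2 t ⊆ q ∧ T (p1 t) q)
    fun t ht => by
      obtain ⟨i, hi, p, hp, rfl⟩ := mem_prod.1 ht
      obtain ⟨hp1, hp2⟩ := mem_sep.1 hp
      obtain ⟨q, hq, h1, h2⟩ := hd i hi p hp1 hp2
      exact ⟨q, hq, by rw [p2_op]; exact h1, by rw [p1_op]; exact h2⟩
  have hc1 : ∀ i ∈ θ, ∀ p ∈ Q', ap c (op i p) ∈ Q ∧ p ⊆ ap c (op i p) ∧ T i (ap c (op i p)) := by
    intro i hi p hp
    have h1 := hc' _ (op_mem_prod.2 ⟨hi, hp⟩)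
    rw [p1_op, p2_op] at h1
    exact ⟨hc.ap_mem (op_mem_prod.2 ⟨hi, hp⟩), h1⟩
  -- the sequence is increasing and in `Q'`
  have h0 : ∀ i, q₀ ⊆ meetQ c q₀ i := fun i => by
    rw [meetQ_eq]
    exact sub_union_left
  have hstep : ∀ i, ∀ j ∈ i, ap c (op j (meetQ c q₀ j)) ⊆ meetQ c q₀ i := fun i j hj => by
    rw [meetQ_eq c q₀ i]
    exact Sub.trans (sub_bigU (mem_img.2 ⟨j, hj, rfl⟩)) sub_union_right
  have key : ∀ i, IsOrd i → i ⊆ θ → meetQ c q₀ i ∈ Q' := by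
    refine ord_ind (fun i => i ⊆ θ → meetQ c q₀ i ∈ Q') fun i hio ih hi => ?_
    have ih' : ∀ j ∈ i, meetQ c q₀ j ∈ Q' := fun j hj => ih j hj (Sub.trans (hio.sub_of_mem hj) hi)
    have h1 : ∀ j ∈ i, ∀ k ∈ j, ap c (op k (meetQ c q₀ k)) ⊆ ap c (op j (meetQ c q₀ j)) :=
      fun j hj k hk => Sub.trans (hstep j k hk) (hc1 j (hi j hj) _ (ih' j hj)).2.1
    have e : meetQ c q₀ i = bigU (sing q₀ ∪ img i fun j => ap c (op j (meetQ c q₀ j))) := by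
      rw [meetQ_eq]
      apply ext; intro z
      rw [mem_union, mem_bigU, mem_bigU]
      constructor
      · rintro (h | ⟨y, hy, hz⟩)
        · exact ⟨q₀, mem_union.2 (Or.inl (mem_sing.2 rfl)), h⟩
        · exact ⟨y, mem_union.2 (Or.inr hy), hz⟩
      · rintro ⟨y, hy, hz⟩
        rcases mem_union.1 hy with hy | hy
        · rw [mem_sing.1 hy] at hz
          exact Or.inl hz
        · exact Or.inr ⟨y, hy, hz⟩
    refine mem_sep.2 ⟨?_, h0 i⟩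
    rw [e]
    refine hcl _ (fun y hy => ?_) (mem_union.2 (Or.inl (mem_sing.2 rfl))) (fun p hp q hq => ?_) ?_
    · rcases mem_union.1 hy with hy | hy
      · rw [mem_sing.1 hy]
        exact hq₀
      · obtain ⟨j, hj, rfl⟩ := mem_img.1 hy
        exact (hc1 j (hi j hj) _ (ih' j hj)).1
    · rcases mem_union.1 hp with hp | hp <;> rcases mem_union.1 hq with hq | hq
      · rw [mem_sing.1 hp, mem_sing.1 hq]
        exact Or.inl (Sub.refl _)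
      · obtain ⟨j, hj, rfl⟩ := mem_img.1 hq
        rw [mem_sing.1 hp]
        exact Or.inl (Sub.trans (h0 j) (hc1 j (hi j hj) _ (ih' j hj)).2.1)
      · obtain ⟨j, hj, rfl⟩ := mem_img.1 hp
        rw [mem_sing.1 hq]
        exact Or.inr (Sub.trans (h0 j) (hc1 j (hi j hj) _ (ih' j hj)).2.1)
      · obtain ⟨j, hj, rfl⟩ := mem_img.1 hp
        obtain ⟨k, hk, rfl⟩ := mem_img.1 hq
        rcases (hio.mem hj).cmp (hio.mem hk) with h | rfl | h
        · exact Or.inl (h1 k hk j h)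
        · exact Or.inl (Sub.refl _)
        · exact Or.inr (h1 j hj k h)
    · classical
      refine leq_of_surj (fun j => if j = θ then q₀ else ap c (op j (meetQ c q₀ j)))
        fun y hy => ?_
      rcases mem_union.1 hy with hy | hy
      · exact ⟨θ, self_mem_sc θ, by rw [if_pos rfl, mem_sing.1 hy]⟩
      · obtain ⟨j, hj, rfl⟩ := mem_img.1 hy
        refine ⟨j, mem_sc.2 (Or.inl (hi j hj)), ?_⟩
        rw [if_neg]
        rintro rfl
        exact mem_irrefl _ (hi _ hj)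
  refine ⟨meetQ c q₀ θ, (mem_sep.1 (key θ hθ (Sub.refl θ))).1, h0 θ, fun i hi => ?_⟩
  have h1 := key i (hθ.mem hi) (hθ.sub_of_mem hi)
  have h2 := hc1 i hi _ h1
  exact ho i hi _ h2.1 _ (mem_sep.1 (key θ hθ (Sub.refl θ))).1 (hstep θ i hi) h2.2.2

/-- **reading**: few open dense sets are met by changing the part above `ξ` once and for all, and
the part below `ξ` in few ways -/
theorem ucnd_exists_meet {l κ ξ E p : M} (hκ : IsInacc κ) (hξ : ξ ∈ κ) (hE : Sm l κ ξ E)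
    (D : M → M → Prop) [hD : Dfp fun γ : (E0 M × M) × M => D γ.1.2 γ.2]
    (ho : ∀ e ∈ E, ∀ p q, UCnd l κ p → UCnd l κ q → p ⊆ q → D e p → D e q)
    (hd : ∀ e ∈ E, ∀ p, UCnd l κ p → ∃ q, UCnd l κ q ∧ p ⊆ q ∧ D e q) (hp : UCnd l κ p) :
    ∃ q, UCnd l κ q ∧ p ⊆ q ∧ lo (sc ξ) q = lo (sc ξ) p ∧
      ∀ e ∈ E, ∀ r, UCnd l κ r → lo (sc ξ) r = r → lo (sc ξ) p ⊆ r →
        ∃ r', UCnd l κ r' ∧ lo (sc ξ) r' = r' ∧ r ⊆ r' ∧ D e (r' ∪ hi (sc ξ) q) := by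
  have hξo : IsOrd ξ := hκ.isOrd.mem hξ
  have hDg : ∀ {Δ : Type} [IsCtx Δ M] {a b : Δ → M} [Dff a] [Dff b],
      Dfp fun δ => D (a δ) (b δ) := fun {_ _ _ _ _ _} => Dfp.use2 hD
  let Q : M := sep (PU l κ) fun q => hi (sc ξ) q = q
  have hQ : ∀ q, q ∈ Q ↔ UCnd l κ q ∧ hi (sc ξ) q = q := fun q => by
    simp only [Q]
    rw [mem_sep, mem_PU hκ.isOrd]
  let T : M := prod E (PLo l κ (sc ξ))
  have hT : Sm l κ ξ T := hE.prod hκ (sm_PLo hκ hξ)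
  obtain ⟨b, hb⟩ := (eqn_card T).symm
  have hglue : ∀ r q, UCnd l κ r → lo (sc ξ) r = r → UCnd l κ q → hi (sc ξ) q = q →
      UCnd l κ (r ∪ q) := by
    intro r q h1 h2 h3 h4
    have h5 := h1.glue hκ h3 (η := sc ξ)
    rwa [h2, h4] at h5
  obtain ⟨q, hq, hq0, hq1⟩ := exists_tasks (θ := card T) (Q := Q) (q₀ := hi (sc ξ) p)
    (isOrd_card T) ((hQ _).2 ⟨hp.sub hκ hi_sub, hi_hi⟩)
    (fun i q => lo (sc ξ) p ⊆ p2 (ap b i) → ∃ r' ∈ PLo l κ (sc ξ), p2 (ap b i) ⊆ r' ∧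
      D (p1 (ap b i)) (r' ∪ q))
    (fun F hF _ hch hle => by
      have hFc : ∀ c, IsInacc c → card T ∈ c → card F ∈ c := fun c hc h1 =>
        hc.card_leq hle (hc.card_mem (hc.lim.2.2 _ h1))
      have hu : UCnd l κ (bigU F) := by
        refine ucnd_bigU hκ (fun r hr => ((hQ r).1 (hF r hr)).1) (fun r hr r' hr' => ?_)
          (hFc κ hκ hT.1) fun c hc hlc hic => ?_
        · rcases hch r hr r' hr' with h | h
          · exact ⟨r', ((hQ r').1 (hF r' hr')).1.1, h, Sub.refl _⟩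
          · exact ⟨r, ((hQ r).1 (hF r hr)).1.1, Sub.refl _, h⟩
        · rcases hic.isOrd.total hξo with h | h
          · refine Or.inr ⟨∅, ucnd_empty hκ, fun r hr w hw => ?_⟩
            obtain ⟨hw, h1⟩ := mem_lo.1 hw
            rw [← ((hQ r).1 (hF r hr)).2] at hw
            obtain ⟨hw, h2⟩ := mem_hi.1 hw
            have h3 := h2 _ (self_mem_sc ξ)
            rcases mem_sc.1 h1 with h4 | h4
            · exact absurd (h _ h4) (mem_asymm h3)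
            · rw [h4] at h3
              exact absurd (h _ h3) (mem_irrefl _)
          · exact Or.inl (hFc c hic (hT.2 c hc hlc h hic))
      refine (hQ _).2 ⟨hu, ?_⟩
      rw [hi_bigU]
      apply ext; intro w
      rw [mem_iU, mem_bigU]
      constructor
      · rintro ⟨r, hr, hw⟩
        exact ⟨r, hr, (mem_hi.1 hw).1⟩
      · rintro ⟨r, hr, hw⟩
        exact ⟨r, hr, by rwa [((hQ r).1 (hF r hr)).2]⟩)
    (fun i hi' q hq q' hq' hqq' h h1 => by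
      obtain ⟨hq1, hq2⟩ := (hQ q).1 hq
      obtain ⟨hq1', hq2'⟩ := (hQ q').1 hq'
      obtain ⟨r', hr', h2, h3⟩ := h h1
      obtain ⟨hr1, hr2⟩ := (mem_PLo hκ.isOrd).1 hr'
      obtain ⟨e, he, r, hr, e1⟩ := mem_prod.1 (hb.maps.ap_mem hi')
      refine ⟨r', hr', h2, ?_⟩
      rw [e1, p1_op] at h3 ⊢
      exact ho e he _ _ (hglue r' q hr1 hr2 hq1 hq2) (hglue r' q' hr1 hr2 hq1' hq2')
        (union_sub sub_union_left (Sub.trans hqq' sub_union_right)) h3)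
    (fun i hi' q hq _ => by
      obtain ⟨hq1, hq2⟩ := (hQ q).1 hq
      obtain ⟨e, he, r, hr, e1⟩ := mem_prod.1 (hb.maps.ap_mem hi')
      obtain ⟨hr1, hr2⟩ := (mem_PLo hκ.isOrd).1 hr
      obtain ⟨s, hs, h1, h2⟩ := hd e he _ (hglue r q hr1 hr2 hq1 hq2)
      refine ⟨hi (sc ξ) s, (hQ _).2 ⟨hs.sub hκ hi_sub, hi_hi⟩, ?_, fun _ =>
        ⟨lo (sc ξ) s, (mem_PLo hκ.isOrd).2 ⟨hs.sub hκ lo_sub, lo_lo⟩, ?_, ?_⟩⟩
      · rw [← hq2]
        exact hi_mono (Sub.trans sub_union_right h1)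
      · rw [e1, p2_op, ← hr2]
        exact lo_mono (Sub.trans sub_union_left h1)
      · rw [e1, p1_op, hs.lo_union_hi hξo.sc]
        exact h2)
  obtain ⟨hqc, hqh⟩ := (hQ q).1 hq
  refine ⟨lo (sc ξ) p ∪ q, hglue _ _ (hp.sub hκ lo_sub) lo_lo hqc hqh, ?_, ?_, ?_⟩
  · refine Sub.trans (y := lo (sc ξ) p ∪ hi (sc ξ) p) ?_
      (union_sub sub_union_left (Sub.trans hq0 sub_union_right))
    rw [hp.lo_union_hi hξo.sc]
    exact Sub.refl _
  · rw [lo_union, lo_lo, ← hqh, lo_hi]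
    apply ext; intro z; simp
  · intro e he r hr1 hr2 hr3
    have e2 : hi (sc ξ) (lo (sc ξ) p ∪ q) = q := by
      rw [hi_union, hi_lo, hqh]
      apply ext; intro z; simp
    obtain ⟨i, hi', e1⟩ := hb.surj (op_mem_prod.2 ⟨he, (mem_PLo hκ.isOrd).2 ⟨hr1, hr2⟩⟩ :
      op e r ∈ T)
    have h1 := hq1 i hi'
    rw [e1, p1_op, p2_op] at h1
    obtain ⟨r', hr', h2, h3⟩ := h1 hr3
    obtain ⟨h4, h5⟩ := (mem_PLo hκ.isOrd).1 hr'
    exact ⟨r', h4, h5, h2, by rw [e2]; exact h3⟩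

end

end Pool.Agent.IST
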