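import Pool.Agent.UG.Alg

/-!
# Minimal unbounded functions modulo a uniform complete ultrafilter
-/

set_option synthInstance.maxSize 100000

namespace Pool.Agent.IST

open Pool.Agent.BVM

section

variable {M : Type} [SetModel M] {Γ : Type} [IsCtx Γ M]

/-- `f` is unbounded modulo `W` -/
def Unb (κ W f : M) : Prop := ∀ x ∈ κ, Aa W κ fun a => x ∈ ap f a

instance Unb.dfp {f g h : Γ → M} [Dff f] [Dff g] [Dff h] :
    Dfp fun γ => Unb (f γ) (g γ) (h γ) := by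
  unfold Unb; infer_instance

/-- `{a : x ∈ f(a)}` is in the algebra -/
theorem IsAlg.mem_ap {κ A f x : M} (hA : IsAlg κ A) (hκ : IsReg κ) (hf : Maps f κ κ) (hx : x ∈ κ)
    (h2 : ∀ y ∈ κ, Aa A κ fun a => ap f a = y) : Aa A κ fun a => x ∈ ap f a := by
  have hsc : sc x ∈ κ := hκ.infCard.isLim.2.2 x hx
  have h3 : Aa A κ fun a => ∃ y ∈ sc x, ap f a = y :=
    hA.bex (χ := fun y a => ap f a = y) (card_mem_of_mem hκ.isCard hsc) hκ.isOrd fun y hy =>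
      h2 y (hκ.isOrd.trans hy hsc)
  refine (UltOn.congr fun a ha => ?_).1 (hA.compl h3)
  have h4 := hκ.isOrd.mem (hf.ap_mem ha)
  have h5 := hκ.isOrd.mem hx
  constructor
  · intro h6
    by_contra h7
    exact h6 ⟨_, (h4.mem_sc_iff h5).2 ((h5.not_mem h4).1 h7), rfl⟩
  · rintro h6 ⟨y, hy, rfl⟩
    rcases mem_sc.1 hy with h7 | h7
    · exact mem_asymm h6 h7
    · rw [h7] at h6
      exact mem_irrefl _ h6

/-- a bounded function is constant modulo `W` -/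
theorem UltOn.const_of_bdd {κ A W g b : M} (h : UltOn κ A W) (hA : IsAlg κ A) (hκ : IsReg κ)
    (hb : b ∈ κ) (h2 : ∀ y ∈ κ, Aa A κ fun a => ap g a = y)
    (h3 : Aa W κ fun a => ap g a ∈ b) : ∃ x ∈ κ, Aa W κ fun a => ap g a = x := by
  by_contra h4
  push Not at h4
  have h5 : Aa W κ fun a => ∀ y ∈ b, ¬ ap g a = y :=
    h.ball hκ.infCard hA (χ := fun y a => ¬ ap g a = y) (card_mem_of_mem hκ.isCard hb)
      fun y hy => by
        have hy' := hκ.isOrd.trans hy hb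
        exact (h.not_iff (h2 y hy')).2 (h4 y hy')
  obtain ⟨a, -, h6, h7⟩ := h.ex hκ.infCard (h.and hκ.infCard h3 h5)
  exact h7 _ h6 rfl

/-- **minimal unbounded functions** -/
theorem UltOn.exists_min_unb {κ A W F : M} (h : UltOn κ A W) (hA : IsAlg κ A) (hκ : IsReg κ)
    (ho : om ∈ κ) (hF : F ⊆ fns κ κ) (h0 : ∃ f ∈ F, Unb κ W f)
    (h2 : ∀ f ∈ F, ∀ x ∈ κ, Aa A κ fun a => ap f a = x) :
    ∃ f ∈ F, Unb κ W f ∧ ∀ g ∈ F, (Aa W κ fun a => ap g a ∈ ap f a) →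
      ∃ x ∈ κ, Aa W κ fun a => ap g a = x := by
  obtain ⟨f0, hf0, hu0⟩ := h0
  have hmin : ∃ f ∈ F, Unb κ W f ∧ ∀ g ∈ F, Unb κ W g → ¬ Aa W κ fun a => ap g a ∈ ap f a := by
    by_contra hc
    push Not at hc
    obtain ⟨s, hs, -, hs'⟩ := exists_dc (sep F fun f => Unb κ W f) f0 (mem_sep.2 ⟨hf0, hu0⟩)
      (fun _ x y => Aa W κ fun a => ap y a ∈ ap x a) fun _ _ x hx => by
        obtain ⟨g, hg, hg1, hg2⟩ := hc x (mem_sep.1 hx).1 (mem_sep.1 hx).2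
        exact ⟨g, mem_sep.2 ⟨hg, hg1⟩, hg2⟩
    have h3 : Aa W κ fun a => ∀ n ∈ (om : M), ap (ap s (sc n)) a ∈ ap (ap s n) a :=
      h.ball hκ.infCard hA (χ := fun n a => ap (ap s (sc n)) a ∈ ap (ap s n) a)
        (by rw [isCard_om.card_eq]; exact ho) fun n hn => hs' n hn
    obtain ⟨a, -, ha⟩ := h.ex hκ.infCard h3
    obtain ⟨y, hy, hy'⟩ := found (x := img om fun n => ap (ap s n) a)
      (ne_empty_iff.2 ⟨_, mem_img.2 ⟨∅, mem_om.2 isNat_empty, rfl⟩⟩)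
    obtain ⟨n, hn, rfl⟩ := mem_img.1 hy
    exact hy' _ (ha n hn) (mem_img.2 ⟨sc n, mem_om.2 (mem_om.1 hn).sc, rfl⟩)
  obtain ⟨f, hf, hu, hm⟩ := hmin
  refine ⟨f, hf, hu, fun g hg hgf => ?_⟩
  have h3 : ¬ Unb κ W g := fun h4 => hm g hg h4 hgf
  have h3' : ∃ x ∈ κ, ¬ Aa W κ fun a => x ∈ ap g a := by
    by_contra h4
    push Not at h4
    exact h3 h4
  obtain ⟨x, hx, h4⟩ := h3'
  have hg' := mem_fns.1 (hF g hg)
  have h5 := (h.not_iff (hA.mem_ap hκ hg' hx (h2 g hg))).2 h4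
  have hsc : sc x ∈ κ := hκ.infCard.isLim.2.2 x hx
  refine h.const_of_bdd hA hκ hsc (h2 g hg) ?_
  refine (UltOn.congr fun a ha => ?_).1 h5
  have h6 := hκ.isOrd.mem (hg'.ap_mem ha)
  have h7 := hκ.isOrd.mem hx
  rw [h6.mem_sc_iff h7]
  exact h7.not_mem h6

/-- the identity is unbounded -/
theorem UltOn.unb_idf {κ A W : M} (h : UltOn κ A W) (hA : IsAlg κ A) (hκ : IsReg κ)
    (h2 : ∀ y ∈ κ, sing y ∈ A) : Unb κ W (idf κ) := by
  have hid : Maps (idf κ) κ κ := (bij_idf κ).1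
  have hap : ∀ a ∈ κ, ap (idf κ) a = a := fun a ha => ap_lam ha
  have h3 : ∀ y ∈ κ, Aa A κ fun a => ap (idf κ) a = y := fun y hy => by
    have e : (sep κ fun a => ap (idf κ) a = y) = sing y := by
      apply ext; intro a
      rw [mem_sep, mem_sing]
      constructor
      · rintro ⟨ha, h4⟩
        rwa [hap a ha] at h4
      · rintro rfl
        exact ⟨hy, hap a hy⟩
    unfold Aa
    rw [e]
    exact h2 y hy
  intro x hx
  by_contra h4
  have h5 := (h.not_iff (hA.mem_ap hκ hid hx h3)).2 h4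
  have h6 := h.2.2.2.2 _ h5
  have hsc : sc x ∈ κ := hκ.infCard.isLim.2.2 x hx
  have h7 : (sep κ fun a => ¬ x ∈ ap (idf κ) a) ⊆ sc x := fun a ha => by
    obtain ⟨h8, h9⟩ := mem_sep.1 ha
    rw [hap a h8] at h9
    exact ((hκ.isOrd.mem h8).mem_sc_iff (hκ.isOrd.mem hx)).2
      (((hκ.isOrd.mem hx).not_mem (hκ.isOrd.mem h8)).1 h9)
  have h8 := (isOrd_card _).mem_of_sub_of_mem hκ.isOrd (card_mono h7)
    (card_mem_of_mem hκ.isCard hsc)
  rw [h6] at h8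
  exact mem_irrefl _ h8

end

end Pool.Agent.IST
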