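import Pool.Agent.UG.Meet
import Pool.Agent.LP.VZ
import Pool.Agent.LP.CV

/-!
# Reading functions of the generic extension by the Easton product
-/

set_option synthInstance.maxSize 100000

namespace Pool.Agent.IST

open Pool.Agent.BVM

namespace Gen

variable {M : Type} [SetModel M] {Γ : Type} [IsCtx Γ M] {l κ : M} {hκ : IsInacc κ}

section

variable (G : Gen (UP l κ hκ))

theorem ucnd {p : M} (h : G.G p) : UCnd l κ p := UP_cd.1 (G.cd h)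

theorem g_sub {p q : M} (h : G.G p) (hq : q ⊆ p) : G.G q :=
  G.up h (UP_le.2 ⟨G.ucnd h, (G.ucnd h).sub hκ hq, hq⟩)

theorem g_union {p q : M} (hp : G.G p) (hq : G.G q) : G.G (p ∪ q) := by
  obtain ⟨s, hs, h1, h2⟩ := G.dir hp hq
  exact G.g_sub hs (union_sub (UP_le.1 h1).2.2 (UP_le.1 h2).2.2)

/-- reading: open dense sets `D e` (`e ∈ E`) are met by the small parts of the filter -/
theorem g_dec (_hl : IsOrd l) {ξ E : M} (hξ : ξ ∈ κ) (hE : Sm l κ ξ E) (D : M → M → Prop)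
    [hD : Dfp fun γ : (E0 M × M) × M => D γ.1.2 γ.2]
    (ho : ∀ e ∈ E, ∀ p q, UCnd l κ p → UCnd l κ q → p ⊆ q → D e p → D e q)
    (hd : ∀ e ∈ E, ∀ p, UCnd l κ p → ∃ q, UCnd l κ q ∧ p ⊆ q ∧ D e q) :
    ∃ q, G.G q ∧ ∀ e ∈ E, ∃ r, G.G r ∧ lo (sc ξ) r = r ∧ D e (r ∪ hi (sc ξ) q) := by
  have hξo : IsOrd ξ := hκ.isOrd.mem hξ
  have hDg : ∀ {Δ : Type} [IsCtx Δ M] {a b : Δ → M} [Dff a] [Dff b],
      Dfp fun δ => D (a δ) (b δ) := fun {_ _ _ _ _ _} => Dfp.use2 hD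
  obtain ⟨q, hq, hq1⟩ := G.meets (fun q => ∀ e ∈ E, ∀ r, UCnd l κ r → lo (sc ξ) r = r →
      lo (sc ξ) q ⊆ r → ∃ r', UCnd l κ r' ∧ lo (sc ξ) r' = r' ∧ r ⊆ r' ∧ D e (r' ∪ hi (sc ξ) q))
    inferInstance fun p hp => by
      have hp' := UP_cd.1 hp
      obtain ⟨q, h1, h2, h3, h4⟩ := ucnd_exists_meet hκ hξ hE D ho hd hp'
      exact ⟨q, UP_le.2 ⟨h1, hp', h2⟩, by rw [h3]; exact h4⟩
  refine ⟨q, hq, fun e he => ?_⟩
  obtain ⟨s, hs, hsq, h1⟩ := G.meets_below hq (fun s => D e (lo (sc ξ) s ∪ hi (sc ξ) q))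
    fun s hs => by
      obtain ⟨hsc, hqc, hqs⟩ := UP_le.1 hs
      obtain ⟨r', h1, h2, h3, h4⟩ := hq1 e he (lo (sc ξ) s) (hsc.sub hκ lo_sub) lo_lo (lo_mono hqs)
      have h5 := h1.glue hκ hsc (η := sc ξ)
      rw [h2] at h5
      refine ⟨r' ∪ hi (sc ξ) s, UP_le.2 ⟨h5, hsc, ?_⟩, ?_⟩
      · refine Sub.trans (y := lo (sc ξ) s ∪ hi (sc ξ) s) ?_
          (union_sub (Sub.trans h3 sub_union_left) sub_union_right)
        rw [hsc.lo_union_hi hξo.sc]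
        exact Sub.refl _
      · have e1 : lo (sc ξ) (r' ∪ hi (sc ξ) s) = r' := by
          rw [lo_union, h2, lo_hi]
          apply ext; intro z; simp
        rw [e1]
        exact h4
  exact ⟨lo (sc ξ) s, G.g_sub hs lo_sub, lo_lo, h1⟩

end

section

variable [GCh M] (G : Gen (UP l κ hκ))

/-- subsets of small sets of the ground model are read by the small parts of the filter -/
theorem read_set (hl : IsOrd l) {ξ E : M} (hξ : ξ ∈ κ) (hE : Sm l κ ξ E) {X : G.Ext} :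
    ∃ R : M, R ⊆ prod (PLo l κ (sc ξ)) E ∧
      ∀ e ∈ E, G.io e ∈ X ↔ ∃ r, G.G r ∧ op r e ∈ R := by
  obtain ⟨x, rfl⟩ := G.exists_nm X
  let P := UP l κ hκ
  obtain ⟨q, hq, h⟩ := G.g_dec hl hξ hE (fun e u => P.Fm u (P.chk e) x ∨
      ∀ u', P.le u' u → ¬ P.Fm u' (P.chk e) x)
    (fun e _ p q hp hq hpq h => by
      have hle : P.le q p := UP_le.2 ⟨hq, hp, hpq⟩
      exact h.imp (fun h => h.mono hle) fun h u' hu' => h u' (P.le_trans hu' hle))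
    (fun e _ p hp => by
      by_cases h1 : ∃ u', P.le u' p ∧ P.Fm u' (P.chk e) x
      · obtain ⟨u', hu', h2⟩ := h1
        obtain ⟨h3, -, h4⟩ := UP_le.1 hu'
        exact ⟨u', h3, h4, Or.inl h2⟩
      · exact ⟨p, hp, Sub.refl p, Or.inr fun u' hu' h2 => h1 ⟨u', hu', h2⟩⟩)
  refine ⟨sep (prod (PLo l κ (sc ξ)) E) fun t => P.Fm (p1 t ∪ hi (sc ξ) q) (P.chk (p2 t)) x,
    fun t ht => (mem_sep.1 ht).1, fun e he => ⟨fun h1 => ?_, fun ⟨r, hr, h1⟩ => ?_⟩⟩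
  · obtain ⟨t, ht, h2⟩ := G.mem_nm.1 h1
    obtain ⟨r, hr, hr', h3⟩ := h e he
    refine ⟨r, hr, mem_sep.2 ⟨op_mem_prod.2 ⟨(mem_PLo hκ.isOrd).2 ⟨G.ucnd hr, hr'⟩, he⟩, ?_⟩⟩
    rw [p1_op, p2_op]
    rcases h3 with h3 | h3
    · exact h3
    · obtain ⟨s, -, h4, h5⟩ := G.dir (G.g_union hr (G.g_sub hq hi_sub)) ht
      exact absurd (h2.mono h5) (h3 s h4)
  · have h2 := (mem_sep.1 h1).2
    rw [p1_op, p2_op] at h2
    exact G.mem_nm.2 ⟨_, G.g_union hr (G.g_sub hq hi_sub), h2⟩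

/-- functions are read by the small parts of the filter -/
theorem g_read (hl : IsOrd l) {ξ E c : M} (hξ : ξ ∈ κ) (hE : Sm l κ ξ E) {f : G.Ext}
    (hf : Maps f (G.io E) (G.io c)) :
    ∃ R : M, R ⊆ prod (prod (PLo l κ (sc ξ)) E) c ∧
      (∀ r e v v', op (op r e) v ∈ R → op (op r e) v' ∈ R → v = v') ∧
      ∀ e ∈ E, ∀ v ∈ c, ap f (G.io e) = G.io v ↔ ∃ r, G.G r ∧ op (op r e) v ∈ R := by
  obtain ⟨nf, rfl⟩ := G.exists_nm f
  let P := UP l κ hκ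
  obtain ⟨q, hq, h⟩ := G.g_dec hl hξ hE
    (fun e u => (∃ v, P.Fm u (opN P (P.chk e) (P.chk v)) nf) ∨
      ∀ u', P.le u' u → ∀ v, ¬ P.Fm u' (opN P (P.chk e) (P.chk v)) nf)
    (fun e _ p q hp hq hpq h => by
      have hle : P.le q p := UP_le.2 ⟨hq, hp, hpq⟩
      exact h.imp (fun ⟨v, h⟩ => ⟨v, h.mono hle⟩) fun h u' hu' => h u' (P.le_trans hu' hle))
    (fun e _ p hp => by
      by_cases h1 : ∃ u', P.le u' p ∧ ∃ v, P.Fm u' (opN P (P.chk e) (P.chk v)) nf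
      · obtain ⟨u', hu', h2⟩ := h1
        obtain ⟨h3, -, h4⟩ := UP_le.1 hu'
        exact ⟨u', h3, h4, Or.inl h2⟩
      · exact ⟨p, hp, Sub.refl p, Or.inr fun u' hu' v h2 => h1 ⟨u', hu', v, h2⟩⟩)
  let V : M → M := fun t => pick fun v => P.Fm (p1 t ∪ hi (sc ξ) q)
    (opN P (P.chk (p2 t)) (P.chk v)) nf
  have hV : Dff fun γ : E0 M × M => V γ.2 := by
    simp only [V]; infer_instance
  let S : M := sep (prod (prod (PLo l κ (sc ξ)) E) c) fun t => p2 t = V (p1 t) ∧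
    P.Fm (p1 (p1 t) ∪ hi (sc ξ) q) (opN P (P.chk (p2 (p1 t))) (P.chk (p2 t))) nf
  have hS : ∀ r e v, op (op r e) v ∈ S ↔ ((r ∈ PLo l κ (sc ξ) ∧ e ∈ E) ∧ v ∈ c) ∧
      v = V (op r e) ∧ P.Fm (r ∪ hi (sc ξ) q) (opN P (P.chk e) (P.chk v)) nf := by
    intro r e v
    have hV' : Dff fun γ : E0 M × M => V (p1 γ.2) :=
      Dff.use1 hV
    simp only [S]
    rw [mem_sep, op_mem_prod, op_mem_prod, p1_op, p2_op, p1_op, p2_op]
  refine ⟨S, fun t ht => ?_, fun r e v v' h1 h2 => ?_, fun e he v hv => ⟨fun h1 => ?_, ?_⟩⟩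
  · have hV' : Dff fun γ : E0 M × M => V (p1 γ.2) := Dff.use1 hV
    exact (mem_sep.1 ht).1
  · rw [((hS r e v).1 h1).2.1, ((hS r e v').1 h2).2.1]
  · have h0 : op (G.io e) (G.io v) ∈ G.nm nf := by
      rw [← h1]
      exact hf.1.op_ap_mem (hf.2.1 ▸ G.io_mem.2 he)
    obtain ⟨t, ht, h2⟩ := G.mem_opN.1 h0
    obtain ⟨r, hr, hr', h3⟩ := h e he
    have hrq := G.g_union hr (G.g_sub hq (hi_sub (η := sc ξ)))
    rcases h3 with h3 | h3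
    · have h4 : P.Fm (r ∪ hi (sc ξ) q) (opN P (P.chk e) (P.chk (V (op r e)))) nf := by
        simp only [V]
        rw [p1_op, p2_op]
        exact pick_spec (P := fun v => P.Fm (r ∪ hi (sc ξ) q) (opN P (P.chk e) (P.chk v)) nf) h3
      have h5 : op (G.io e) (G.io (V (op r e))) ∈ G.nm nf := G.mem_opN.2 ⟨_, hrq, h4⟩
      have h6 := hf.1.ap_eq h5
      rw [h1] at h6
      have h7 := G.io_inj h6
      exact ⟨r, hr, (hS r e v).2 ⟨⟨⟨(mem_PLo hκ.isOrd).2 ⟨G.ucnd hr, hr'⟩, he⟩, hv⟩, h7, by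
        rw [h7]; exact h4⟩⟩
    · obtain ⟨s, -, h4, h5⟩ := G.dir hrq ht
      exact absurd (h2.mono h5) (h3 s h4 v)
  · rintro ⟨r, hr, h1⟩
    obtain ⟨-, -, h2⟩ := (hS r e v).1 h1
    exact hf.1.ap_eq (G.mem_opN.2 ⟨_, G.g_union hr (G.g_sub hq hi_sub), h2⟩)

/-- the values of a function are in a small set of the ground model -/
theorem cover_fun (hl : IsOrd l) {ξ E c : M} (hξ : ξ ∈ κ) (hE : Sm l κ ξ E) {f : G.Ext}
    (hf : Maps f (G.io E) (G.io c)) :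
    ∃ B : M, B ⊆ c ∧ Sm l κ ξ B ∧ ∀ e ∈ E, ∃ v ∈ B, ap f (G.io e) = G.io v := by
  obtain ⟨R, h1, h2, h3⟩ := G.g_read hl hξ hE hf
  have hR : IsFun R := by
    refine ⟨fun w hw => ?_, fun x y y' h4 h5 => ?_⟩
    · obtain ⟨t, -, v, -, rfl⟩ := mem_prod.1 (h1 w hw)
      exact ⟨t, v, rfl⟩
    · obtain ⟨r, -, e, -, rfl⟩ := mem_prod.1 (op_mem_prod.1 (h1 _ h4)).1
      exact h2 r e y y' h4 h5
  refine ⟨ran R, fun v hv => ?_, ?_, fun e he => ?_⟩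
  · obtain ⟨x, hx⟩ := mem_ran.1 hv
    exact (op_mem_prod.1 (h1 _ hx)).2
  · refine ((sm_PLo hκ hξ).prod hκ hE).leq hκ ((leq_ran hR).trans (leq_of_sub fun x hx => ?_))
    obtain ⟨y, hy⟩ := mem_dom.1 hx
    exact (op_mem_prod.1 (h1 _ hy)).1
  · obtain ⟨v, hv, e1⟩ := G.io_tr (hf.ap_mem (G.io_mem.2 he))
    obtain ⟨r, -, h4⟩ := (h3 e he v hv).1 e1
    exact ⟨v, mem_ran.2 ⟨_, h4⟩, e1⟩

/-- no new functions on sets of size at most `l` -/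
theorem no_new (hl : l ∈ κ) {E c : M} (hE : Sm l κ l E) {f : G.Ext}
    (hf : Maps f (G.io E) (G.io c)) : ∃ f₀ : M, Maps f₀ E c ∧ f = G.io f₀ := by
  have hlo : IsOrd l := hκ.isOrd.mem hl
  obtain ⟨R, h1, h2, h3⟩ := G.g_read hlo hl hE hf
  have h0 : ∀ r, G.G r → ∀ e v, op (op r e) v ∈ R → r = ∅ := fun r hr e v h => by
    obtain ⟨h4, h5⟩ := (mem_PLo hκ.isOrd).1 (op_mem_prod.1 (op_mem_prod.1 (h1 _ h)).1).1
    rw [← h5]
    exact h4.lo_eq_empty hlo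
  have h4 : ∀ e ∈ E, ∃ v ∈ c, ap f (G.io e) = G.io v ∧ op (op ∅ e) v ∈ R := fun e he => by
    obtain ⟨v, hv, e1⟩ := G.io_tr (hf.ap_mem (G.io_mem.2 he))
    obtain ⟨r, hr, h5⟩ := (h3 e he v hv).1 e1
    have := h0 r hr e v h5
    subst this
    exact ⟨v, hv, e1, h5⟩
  have h5 : ∀ e ∈ E, ∀ v, op (op ∅ e) v ∈ R → (the fun v => op (op ∅ e) v ∈ R) = v :=
    fun e _ v hv => the_eq hv fun v' hv' => h2 _ _ _ _ hv' hv
  have h6 : Maps (lam E fun e => the fun v => op (op ∅ e) v ∈ R) E c := maps_lam fun e he => by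
    obtain ⟨v, hv, -, h7⟩ := h4 e he
    rw [h5 e he v h7]
    exact hv
  refine ⟨_, h6, hf.ext (G.temb.maps.2 h6) fun x hx => ?_⟩
  obtain ⟨e, he, rfl⟩ := G.io_tr hx
  obtain ⟨v, hv, e1, h7⟩ := h4 e he
  rw [← G.temb.ap', ap_lam he, h5 e he v h7]
  exact e1

end

end Gen

end Pool.Agent.IST
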