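import Pool.Agent.LP.Basic
import Pool.Agent.IST.Reg

/-!
# Set posets are levelled posets with trivial levels

`spo C R one`: the set `C` ordered by the definable relation `R` (`R q p`: `q` is stronger), as a
levelled poset: all conditions are of level `i` for all `i`.
-/

set_option synthInstance.maxSize 100000

namespace Pool.Agent.IST

open Pool.Agent.BVM

section

variable {M : Type} [SetModel M] {Γ : Type} [IsCtx Γ M]

/-- regular cardinals above the cardinality of `C` -/
noncomputable def spAl (C i : M) : M :=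
  erec (fun _ f => scard (bigU (sing (card (C ∪ om)) ∪ ran f))) i

instance spAl.dff {f g : Γ → M} [Dff f] [Dff g] : Dff fun γ => spAl (f γ) (g γ) := by
  unfold spAl
  exact erec.dff (G := fun (γ : Γ) _ h => scard (bigU (sing (card (f γ ∪ om)) ∪ ran h)))

theorem spAl_eq (C i : M) :
    spAl C i = scard (bigU (sing (card (C ∪ om)) ∪ img i fun j => spAl C j)) := by
  unfold spAl
  rw [erec_eq, ran_lam]

theorem infCard_spBase (C : M) : InfCard (card (C ∪ om)) := by
  refine ⟨isCard_card _, ?_⟩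
  have h : Leq (om : M) (C ∪ om) := leq_of_sub fun x hx => mem_union.2 (Or.inr hx)
  have h1 := card_sub_iff.2 h
  rwa [isCard_om.card_eq] at h1

theorem infCard_spU (C i : M) (h : ∀ j ∈ i, InfCard (spAl C j)) :
    InfCard (bigU (sing (card (C ∪ om)) ∪ img i fun j => spAl C j)) := by
  have hb := infCard_spBase C
  refine ⟨isCard_bigU fun x hx => ?_, fun x hx => ?_⟩
  · rcases mem_union.1 hx with h1 | h1
    · rw [mem_sing.1 h1]
      exact hb.1
    · obtain ⟨j, hj, rfl⟩ := mem_img.1 h1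
      exact (h j hj).1
  · exact mem_bigU.2 ⟨_, mem_union.2 (Or.inl (mem_sing.2 rfl)), hb.2 x hx⟩

theorem isReg_spAl (C i : M) : IsReg (spAl C i) := by
  refine mem_ind (fun i => IsReg (spAl C i)) (fun i ih => ?_) i
  rw [spAl_eq]
  exact isReg_scard (infCard_spU C i fun j hj => (ih j hj).infCard)

theorem infCard_spU' (C i : M) :
    InfCard (bigU (sing (card (C ∪ om)) ∪ img i fun j => spAl C j)) :=
  infCard_spU C i fun j _ => (isReg_spAl C j).infCard

theorem spAl_mem (C : M) {i j : M} (h : i ∈ j) : spAl C i ∈ spAl C j := by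
  have h1 := infCard_spU' C j
  have h2 : spAl C i ⊆ bigU (sing (card (C ∪ om)) ∪ img j fun j => spAl C j) :=
    sub_bigU (mem_union.2 (Or.inr (mem_img.2 ⟨i, h, rfl⟩)))
  rw [spAl_eq C j]
  exact (isReg_spAl C i).isOrd.mem_of_sub_of_mem (isCard_scard h1.isOrd).isOrd h2
    (mem_scard_self h1.isOrd)

theorem card_mem_spAl (C i : M) : card C ∈ spAl C i := by
  have h1 := infCard_spU' C i
  have h2 : card C ⊆ bigU (sing (card (C ∪ om)) ∪ img i fun j => spAl C j) := by
    have h3 : card C ⊆ card (C ∪ om) :=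
      card_sub_iff.2 (leq_of_sub fun x hx => mem_union.2 (Or.inl hx))
    exact Sub.trans h3 (sub_bigU (mem_union.2 (Or.inl (mem_sing.2 rfl))))
  rw [spAl_eq C i]
  exact (isOrd_card C).mem_of_sub_of_mem (isCard_scard h1.isOrd).isOrd h2
    (mem_scard_self h1.isOrd)

/-- a set poset as a levelled poset -/
noncomputable def spo (C : M) (R : M → M → Prop) (one : M)
    (hR : Dfp fun γ : (E0 M × M) × M => R γ.1.2 γ.2)
    (refl : ∀ p ∈ C, R p p)
    (trans : ∀ r ∈ C, ∀ q ∈ C, ∀ p ∈ C, R r q → R q p → R r p)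
    (h1 : one ∈ C) (h2 : ∀ p ∈ C, R p one) : LPo M where
  Cd p := p ∈ C
  le q p := q ∈ C ∧ p ∈ C ∧ R q p
  one := one
  PP _ := C
  rs _ p := p
  gl _ r _ := r
  al i := spAl C i
  cd_def := inferInstance
  le_def := by
    have := hR
    infer_instance
  pp_def := inferInstance
  rs_def := inferInstance
  gl_def := inferInstance
  al_def := inferInstance
  le_refl := fun h => ⟨h, h, refl _ h⟩
  le_trans := fun h h' => ⟨h.1, h'.2.1, trans _ h.1 _ h.2.1 _ h'.2.1 h.2.2 h'.2.2⟩
  left := fun h => h.1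
  right := fun h => h.2.1
  cd_one := h1
  le_one := fun h => ⟨h, h1, h2 _ h⟩
  mem_PP := fun _ => ⟨fun h => ⟨h, rfl⟩, fun h => h.1⟩
  exists_level := fun h => ⟨∅, isOrd_empty, h⟩
  mono_PP := fun _ _ _ => Sub.refl C
  one_mem := fun _ => h1
  rs_mem := fun _ h => h
  le_rs := fun _ h => ⟨h, h, refl _ h⟩
  rs_mono := fun _ h => h
  rs_rs := fun _ _ _ _ => rfl
  gl_le := fun _ _ _ h => h
  gl_le_left := fun _ _ h _ => ⟨h, h, refl _ h⟩
  rs_gl := fun _ _ _ _ => rfl
  le_gl := fun _ _ _ _ h _ => h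
  gl_mem := fun _ _ _ _ h _ => h
  loc := fun _ _ _ h _ => h
  amal := fun {_ _ _ _ b} _ _ _ _ _ _ hb _ _ => ⟨b, hb, rfl, fun _ _ _ _ _ h => h⟩
  reg_al := fun _ => isReg_spAl C _
  al_mem := fun _ h => spAl_mem C h
  card_PP := fun _ => card_mem_spAl C _

end

end Pool.Agent.IST
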