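import Pool.Agent.UG.Clo
import Pool.Agent.IST.ChoiceA

/-!
# Regressive functions on the non-inaccessible ordinals
-/

set_option synthInstance.maxSize 100000

namespace Pool.Agent.IST

open Pool.Agent.BVM

section

variable {M : Type} [SetModel M] {Γ : Type} [IsCtx Γ M]

/-- all functions from a power set `pw l`, `l ∈ a`, to `a` are bounded -/
def Ina (a : M) : Prop := ∀ l ∈ a, ∀ e, Maps e (pw l) a → ∃ b ∈ a, ∀ x ∈ pw l, ap e x ∈ b

instance Ina.dfp {f : Γ → M} [Dff f] : Dfp fun γ => Ina (f γ) := by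
  unfold Ina; infer_instance

/-- `e` is a map from `pw l` to `a` with unbounded range -/
def Cfn (e l a : M) : Prop := Maps e (pw l) a ∧ ∀ b ∈ a, ∃ x ∈ pw l, b ⊆ ap e x

instance Cfn.dfp {f g h : Γ → M} [Dff f] [Dff g] [Dff h] :
    Dfp fun γ => Cfn (f γ) (g γ) (h γ) := by
  unfold Cfn; infer_instance

theorem exists_cfn_self {a : M} (ha : IsOrd a) (h0 : a ≠ ∅) : ∃ e, Cfn e a a := by
  classical
  refine ⟨lam (pw a) fun x => if x ∈ a then x else ∅, maps_lam fun x _ => ?_, fun b hb => ?_⟩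
  · split_ifs with h
    · exact h
    · exact empty_mem_of_ne ha h0
  · have h1 : b ∈ pw a := mem_pw.2 (ha.sub_of_mem hb)
    refine ⟨b, h1, ?_⟩
    rw [ap_lam h1, if_pos hb]
    exact Sub.refl b

theorem ina_of_not_cfn {a : M} (ha : IsOrd a) (h : ∀ l ∈ a, ¬ ∃ e, Cfn e l a) : Ina a := by
  intro l hl e he
  have h1 := h l hl
  by_contra hc
  refine h1 ⟨e, he, fun b hb => ?_⟩
  by_contra hc'
  refine hc ⟨b, hb, fun x hx => ?_⟩
  rcases (ha.mem hb).total (ha.mem (he.ap_mem hx)) with h2 | h2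
  · exact absurd ⟨x, hx, h2⟩ hc'
  · exact h2

/-- cofinal functions from the least possible power set -/
theorem exists_lm {k : M} (hk : IsOrd k) : ∃ Lm E : M, IsFun Lm ∧ IsFun E ∧
    (∀ a ∈ k, ap Lm a ⊆ a ∧ (∀ x, ap (ap E a) x ∈ k) ∧
      (a ≠ ∅ → Cfn (ap E a) (ap Lm a) a ∧ (ap Lm a = a → Ina a))) ∧
    ∀ a ∈ k, IsOrd (ap Lm a) := by
  have h1 : ∀ a ∈ k, ∃ w : M, IsOrd (p1 w) ∧ p1 w ⊆ a ∧ (a = ∅ → p2 w = ∅) ∧
      (a ≠ ∅ → Cfn (p2 w) (p1 w) a ∧ (p1 w = a → Ina a)) := by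
    intro a hak
    have ha := hk.mem hak
    by_cases h0 : a = ∅
    · refine ⟨op ∅ ∅, ?_⟩
      rw [p1_op, p2_op]
      exact ⟨isOrd_empty, empty_sub _, fun _ => rfl, fun h => absurd h0 h⟩
    · obtain ⟨l, hl, ⟨hl1, e, he⟩, hl2⟩ := exists_min (fun l : M => l ⊆ a ∧ ∃ e, Cfn e l a) ha
        ⟨Sub.refl a, exists_cfn_self ha h0⟩
      refine ⟨op l e, ?_⟩
      rw [p1_op, p2_op]
      refine ⟨hl, hl1, fun h => absurd h h0, fun _ => ⟨he, fun hla => ?_⟩⟩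
      subst hla
      exact ina_of_not_cfn ha fun m hm hm' => hl2 m hm ⟨ha.sub_of_mem hm, hm'⟩
  obtain ⟨w, -, -, hw⟩ := exists_choice_cls k (fun a w => IsOrd (p1 w) ∧ p1 w ⊆ a ∧
    (a = ∅ → p2 w = ∅) ∧ (a ≠ ∅ → Cfn (p2 w) (p1 w) a ∧ (p1 w = a → Ina a))) h1
  refine ⟨lam k fun a => p1 (ap w a), lam k fun a => p2 (ap w a), isFun_lam, isFun_lam,
    fun a hak => ?_, fun a hak => by rw [ap_lam hak]; exact (hw a hak).1⟩
  rw [ap_lam hak, ap_lam hak]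
  obtain ⟨h2, h3, h4, h5⟩ := hw a hak
  refine ⟨h3, fun x => ?_, h5⟩
  have hek : (∅ : M) ∈ k := empty_mem_of_ne hk (ne_empty_iff.2 ⟨a, hak⟩)
  by_cases h0 : a = ∅
  · rw [h4 h0, ap_of_notMem]
    · exact hek
    · rw [mem_dom]
      rintro ⟨y, hy⟩
      exact notMem_empty _ hy
  · obtain ⟨h6, h7⟩ := (h5 h0).1
    by_cases hx : x ∈ pw (p1 (ap w a))
    · exact hk.trans (h6.ap_mem hx) hak
    · rw [ap_of_notMem (by rw [h6.dom_eq]; exact hx)]
      exact hek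

end

end Pool.Agent.IST
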