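import Pool.Agent.UG.StarA

/-!
# The functions played by Player I
-/

set_option synthInstance.maxSize 100000

namespace Pool.Agent.IST

open Pool.Agent.BVM

section

variable {M : Type} [SetModel M] {Γ : Type} [IsCtx Γ M]

/-- `s` does not guess `g` at the inaccessibles closed under `h` -/
def NGs (k s g h : M) : Prop :=
  ∀ a ∈ k, om ∈ a → Ina a → (∀ e ∈ a, ap h e ∈ a) → ap s a ≠ g ∩ a

instance NGs.dfp {a b c d : Γ → M} [Dff a] [Dff b] [Dff c] [Dff d] :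
    Dfp fun γ => NGs (a γ) (b γ) (c γ) (d γ) := by
  unfold NGs; infer_instance

/-- `s` is a sequence of subsets which is not guessed by any `g ⊆ k` on a club of inaccessibles -/
def NIneff (k s : M) : Prop := (∀ a ∈ k, ap s a ⊆ a) ∧ ∀ g, g ⊆ k → ∃ h, Maps h k k ∧ NGs k s g h

instance NIneff.dfp {f g : Γ → M} [Dff f] [Dff g] : Dfp fun γ => NIneff (f γ) (g γ) := by
  unfold NIneff; infer_instance

/-- the regressive functions derived from `NIneff` -/
theorem exists_rr {k s : M} (hk : IsOrd k) (h0 : k ≠ ∅) (hN : NIneff k s) : ∃ H R : M,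
    ∀ g, g ⊆ k → Maps (ap H g) k k ∧ ∀ a ∈ k, ap R (op g a) ∈ k ∧ (om ∈ a → Ina a →
      ap R (op g a) ∈ a ∧ (a ⊆ ap (ap H g) (ap R (op g a)) ∨
        (ap R (op g a) ∈ ap s a ↔ ap R (op g a) ∉ g))) := by
  obtain ⟨H, hH, hH'⟩ := exists_choice_rel (pw k) (fns k k) (fun g h => NGs k s g h) fun g hg => by
      obtain ⟨h, h1, h2⟩ := hN.2 g (mem_pw.1 hg)
      exact ⟨h, mem_fns.2 h1, h2⟩
  obtain ⟨R, hR, hR'⟩ := exists_choice_rel (prod (pw k) k) k (fun w e =>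
    (∃ d ∈ p2 w, p2 w ⊆ ap (ap H (p1 w)) d ∨ (d ∈ ap s (p2 w) ↔ d ∉ p1 w)) →
      e ∈ p2 w ∧ (p2 w ⊆ ap (ap H (p1 w)) e ∨ (e ∈ ap s (p2 w) ↔ e ∉ p1 w))) fun w hw => by
      obtain ⟨g, hg, a, ha, rfl⟩ := mem_prod.1 hw
      rw [p1_op, p2_op]
      by_cases hc : ∃ d ∈ a, a ⊆ ap (ap H g) d ∨ (d ∈ ap s a ↔ d ∉ g)
      · obtain ⟨d, hd, h⟩ := hc
        exact ⟨d, hk.trans hd ha, fun _ => ⟨hd, h⟩⟩
      · exact ⟨∅, empty_mem_of_ne hk h0, fun h => absurd h hc⟩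
  refine ⟨H, R, fun g hg => ?_⟩
  have hg' := mem_pw.2 hg
  have h1 := mem_fns.1 (hH.ap_mem hg')
  refine ⟨h1, fun a ha => ?_⟩
  have h2 : op g a ∈ prod (pw k) k := op_mem_prod.2 ⟨hg', ha⟩
  refine ⟨hR.ap_mem h2, fun hom hina => ?_⟩
  have h3 := hR' _ h2
  rw [p1_op, p2_op] at h3
  refine h3 ?_
  by_contra hc
  push Not at hc
  have hao := hk.mem ha
  refine hH' g hg' a ha hom hina (fun e he => ?_) ?_
  · have h4 := (hc e he).1
    have h5 := hk.mem (h1.ap_mem (hk.trans he ha))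
    rcases hao.total h5 with h6 | h6
    · exact absurd h6 h4
    · exact h6
  · apply ext
    intro d
    rw [mem_inter]
    constructor
    · intro hd
      have hda := hN.1 a ha d hd
      rcases (hc d hda).2 with h4 | h4
      · exact ⟨h4.2, hda⟩
      · exact absurd hd h4.1
    · rintro ⟨h4, h5⟩
      rcases (hc d h5).2 with h6 | h6
      · exact h6.1
      · exact absurd h4 h6.2

/-! ### the operations on functions -/

/-- `x ↦ Lm (f x)` -/
noncomputable def LF (k Lm f : M) : M := lam k fun ξ => ap Lm (ap f ξ)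

/-- `ξ ↦ E (f ξ) x` -/
noncomputable def EF (k E x f : M) : M := lam k fun ξ => ap (ap E (ap f ξ)) x

/-- `ξ ↦ R (g, f ξ)` -/
noncomputable def sRF (k R g f : M) : M := lam k fun ξ => ap R (op g (ap f ξ))

/-- the set `{e : {ξ : e ∈ s (f ξ)} ∈ U}` -/
noncomputable def gg (k s U f : M) : M := sep k fun e => (sep k fun ξ => e ∈ ap s (ap f ξ)) ∈ U

instance LF.dff {a b c : Γ → M} [Dff a] [Dff b] [Dff c] : Dff fun γ => LF (a γ) (b γ) (c γ) := by
  unfold LF; infer_instance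

instance EF.dff {a b c d : Γ → M} [Dff a] [Dff b] [Dff c] [Dff d] :
    Dff fun γ => EF (a γ) (b γ) (c γ) (d γ) := by
  unfold EF; infer_instance

instance sRF.dff {a b c d : Γ → M} [Dff a] [Dff b] [Dff c] [Dff d] :
    Dff fun γ => sRF (a γ) (b γ) (c γ) (d γ) := by
  unfold sRF; infer_instance

instance gg.dff {a b c d : Γ → M} [Dff a] [Dff b] [Dff c] [Dff d] :
    Dff fun γ => gg (a γ) (b γ) (c γ) (d γ) := by
  unfold gg; infer_instance

theorem gg_sub {k s U f : M} : gg k s U f ⊆ k := fun _ h => (mem_sep.1 h).1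

/-- the next family of functions -/
noncomputable def NF (k s Lm E R F U : M) : M :=
  (F ∪ img F fun f => LF k Lm f) ∪
    ((iU (iU k fun l => pw l) fun x => img F fun f => EF k E x f) ∪
      img F fun f => sRF k R (gg k s U f) f)

instance NF.dff {a b c d e f g : Γ → M} [Dff a] [Dff b] [Dff c] [Dff d] [Dff e] [Dff f] [Dff g] :
    Dff fun γ => NF (a γ) (b γ) (c γ) (d γ) (e γ) (f γ) (g γ) := by
  unfold NF; infer_instance

section

variable {k s Lm E R F U : M}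

theorem sub_NF : F ⊆ NF k s Lm E R F U := fun _ h => mem_union.2 (Or.inl (mem_union.2 (Or.inl h)))

theorem LF_mem_NF {f : M} (h : f ∈ F) : LF k Lm f ∈ NF k s Lm E R F U :=
  mem_union.2 (Or.inl (mem_union.2 (Or.inr (mem_img.2 ⟨f, h, rfl⟩))))

theorem EF_mem_NF {f x l : M} (h : f ∈ F) (hl : l ∈ k) (hx : x ∈ pw l) :
    EF k E x f ∈ NF k s Lm E R F U :=
  mem_union.2 (Or.inr (mem_union.2 (Or.inl (mem_iU.2 ⟨x, mem_iU.2 ⟨l, hl, hx⟩,
    mem_img.2 ⟨f, h, rfl⟩⟩))))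

theorem sRF_mem_NF {f : M} (h : f ∈ F) : sRF k R (gg k s U f) f ∈ NF k s Lm E R F U :=
  mem_union.2 (Or.inr (mem_union.2 (Or.inr (mem_img.2 ⟨f, h, rfl⟩))))

theorem leq_NF (hs : IsSLim k) (hF : Leq F k) : Leq (NF k s Lm E R F U) k := by
  have hi := hs.1
  have h1 : Leq (iU k fun l : M => pw l) k :=
    leq_iU hi _ (Leq.refl k) fun l hl => leq_of_card_mem hi.isOrd (hs.2 l hl)
  refine leq_union hi (leq_union hi hF ((leq_img _ _).trans hF)) (leq_union hi ?_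
    ((leq_img _ _).trans hF))
  exact leq_iU hi _ h1 fun x _ => (leq_img _ _).trans hF

theorem NF_sub (hL : ∀ a ∈ k, ap Lm a ∈ k) (hE : ∀ a ∈ k, ∀ x, ap (ap E a) x ∈ k)
    (hR : ∀ g, g ⊆ k → ∀ a ∈ k, ap R (op g a) ∈ k) (hF : F ⊆ fns k k) :
    NF k s Lm E R F U ⊆ fns k k := by
  intro z hz
  unfold NF at hz
  rw [mem_union, mem_union, mem_union] at hz
  rcases hz with (h | h) | h | h
  · exact hF z h
  · obtain ⟨f, hf, rfl⟩ := mem_img.1 h
    exact mem_fns.2 (maps_lam fun ξ hξ => hL _ ((mem_fns.1 (hF f hf)).ap_mem hξ))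
  · obtain ⟨x, -, h⟩ := mem_iU.1 h
    obtain ⟨f, hf, rfl⟩ := mem_img.1 h
    exact mem_fns.2 (maps_lam fun ξ hξ => hE _ ((mem_fns.1 (hF f hf)).ap_mem hξ) x)
  · obtain ⟨f, hf, rfl⟩ := mem_img.1 h
    exact mem_fns.2 (maps_lam fun ξ hξ => hR _ gg_sub _ ((mem_fns.1 (hF f hf)).ap_mem hξ))

end

/-- the sets defined from a family of functions -/
noncomputable def gens (k s F : M) : M :=
  ((img k fun x => sing x) ∪ iU F fun f => img F fun g => sep k fun ξ => ap f ξ ∈ ap g ξ) ∪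
    ((iU F fun f => img k fun e => sep k fun ξ => ap f ξ = e) ∪
      iU F fun f => img k fun e => sep k fun ξ => e ∈ ap s (ap f ξ))

instance gens.dff {a b c : Γ → M} [Dff a] [Dff b] [Dff c] :
    Dff fun γ => gens (a γ) (b γ) (c γ) := by
  unfold gens; infer_instance

section

variable {k s F : M}

theorem sing_mem_gens {x : M} (h : x ∈ k) : sing x ∈ gens k s F :=
  mem_union.2 (Or.inl (mem_union.2 (Or.inl (mem_img.2 ⟨x, h, rfl⟩))))

theorem lt_mem_gens {f g : M} (hf : f ∈ F) (hg : g ∈ F) :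
    (sep k fun ξ => ap f ξ ∈ ap g ξ) ∈ gens k s F :=
  mem_union.2 (Or.inl (mem_union.2 (Or.inr (mem_iU.2 ⟨f, hf, mem_img.2 ⟨g, hg, rfl⟩⟩))))

theorem eq_mem_gens {f e : M} (hf : f ∈ F) (he : e ∈ k) :
    (sep k fun ξ => ap f ξ = e) ∈ gens k s F :=
  mem_union.2 (Or.inr (mem_union.2 (Or.inl (mem_iU.2 ⟨f, hf, mem_img.2 ⟨e, he, rfl⟩⟩))))

theorem mem_mem_gens {f e : M} (hf : f ∈ F) (he : e ∈ k) :
    (sep k fun ξ => e ∈ ap s (ap f ξ)) ∈ gens k s F :=
  mem_union.2 (Or.inr (mem_union.2 (Or.inr (mem_iU.2 ⟨f, hf, mem_img.2 ⟨e, he, rfl⟩⟩))))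

theorem gens_mono {G : M} (h : F ⊆ G) : gens k s F ⊆ gens k s G := by
  intro z hz
  unfold gens at hz
  rw [mem_union, mem_union, mem_union] at hz
  rcases hz with (h1 | h1) | h1 | h1
  · exact mem_union.2 (Or.inl (mem_union.2 (Or.inl h1)))
  · obtain ⟨f, hf, h2⟩ := mem_iU.1 h1
    obtain ⟨g, hg, rfl⟩ := mem_img.1 h2
    exact lt_mem_gens (h f hf) (h g hg)
  · obtain ⟨f, hf, h2⟩ := mem_iU.1 h1
    obtain ⟨e, he, rfl⟩ := mem_img.1 h2
    exact eq_mem_gens (h f hf) he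
  · obtain ⟨f, hf, h2⟩ := mem_iU.1 h1
    obtain ⟨e, he, rfl⟩ := mem_img.1 h2
    exact mem_mem_gens (h f hf) he

theorem gens_sub : gens k s F ⊆ pw k := by
  intro z hz
  unfold gens at hz
  rw [mem_union, mem_union, mem_union] at hz
  rw [mem_pw]
  rcases hz with (h1 | h1) | h1 | h1
  · obtain ⟨x, hx, rfl⟩ := mem_img.1 h1
    intro y hy
    rw [mem_sing.1 hy]
    exact hx
  · obtain ⟨f, hf, h2⟩ := mem_iU.1 h1
    obtain ⟨g, hg, rfl⟩ := mem_img.1 h2
    exact fun y hy => (mem_sep.1 hy).1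
  · obtain ⟨f, hf, h2⟩ := mem_iU.1 h1
    obtain ⟨e, he, rfl⟩ := mem_img.1 h2
    exact fun y hy => (mem_sep.1 hy).1
  · obtain ⟨f, hf, h2⟩ := mem_iU.1 h1
    obtain ⟨e, he, rfl⟩ := mem_img.1 h2
    exact fun y hy => (mem_sep.1 hy).1

theorem leq_gens (hi : InfCard k) (hF : Leq F k) : Leq (gens k s F) k := by
  refine leq_union hi (leq_union hi (leq_img _ _) ?_) (leq_union hi ?_ ?_)
  · exact leq_iU hi _ hF fun f _ => (leq_img _ _).trans hF
  · exact leq_iU hi _ hF fun f _ => leq_img _ _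
  · exact leq_iU hi _ hF fun f _ => leq_img _ _

end

end

end Pool.Agent.IST
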