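import Pool.Agent.UG.StarB
import Pool.Agent.UG.MinU

/-!
# No ultrafilter on an algebra closed under the derived functions
-/

set_option synthInstance.maxSize 100000

namespace Pool.Agent.IST

open Pool.Agent.BVM

section

variable {M : Type} [SetModel M] {Γ : Type} [IsCtx Γ M]

theorem no_ult {k s Lm E H R F A D : M} (hr : IsReg k) (hs : IsSLim k) (ho : om ∈ k)
    (hLE : ∀ a ∈ k, ap Lm a ⊆ a ∧ (∀ x, ap (ap E a) x ∈ k) ∧
      (a ≠ ∅ → Cfn (ap E a) (ap Lm a) a ∧ (ap Lm a = a → Ina a)))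
    (hLo : ∀ a ∈ k, IsOrd (ap Lm a))
    (hHR : ∀ g, g ⊆ k → Maps (ap H g) k k ∧ ∀ a ∈ k, ap R (op g a) ∈ k ∧ (om ∈ a → Ina a →
      ap R (op g a) ∈ a ∧ (a ⊆ ap (ap H g) (ap R (op g a)) ∨
        (ap R (op g a) ∈ ap s a ↔ ap R (op g a) ∉ g))))
    (hF : F ⊆ fns k k) (hid : idf k ∈ F) (hL : ∀ f ∈ F, LF k Lm f ∈ F)
    (hE : ∀ f ∈ F, ∀ l ∈ k, ∀ x ∈ pw l, EF k E x f ∈ F)
    (hRF : ∀ f ∈ F, sRF k R (gg k s D f) f ∈ F) (hA : IsAlg k A) (hg : gens k s F ⊆ A)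
    (hD : UltOn k A D) : False := by
  have hi := hr.infCard
  have h2 : ∀ f ∈ F, ∀ x ∈ k, Aa A k fun a => ap f a = x := fun f hf x hx =>
    hg _ (eq_mem_gens hf hx)
  obtain ⟨f, hf, hu, hm⟩ := hD.exists_min_unb hA hr ho hF ⟨idf k, hid,
    hD.unb_idf hA hr fun y hy => hg _ (sing_mem_gens hy)⟩ h2
  have hf' := mem_fns.1 (hF f hf)
  have hfo : ∀ ξ ∈ k, IsOrd (ap f ξ) := fun ξ hξ => hr.isOrd.mem (hf'.ap_mem hξ)
  have h0k : (∅ : M) ∈ k := empty_mem_of_isLim hi.isLim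
  by_cases c1 : Aa D k fun ξ => ap (LF k Lm f) ξ ∈ ap f ξ
  · obtain ⟨l, hl, hl'⟩ := hm (LF k Lm f) (hL f hf) c1
    have hcf : ∀ ξ ∈ k, ap (LF k Lm f) ξ = l → ∅ ∈ ap f ξ → Cfn (ap E (ap f ξ)) l (ap f ξ) := by
      intro ξ hξ h3 h4
      unfold LF at h3
      rw [ap_lam hξ] at h3
      rw [← h3]
      exact ((hLE _ (hf'.ap_mem hξ)).2.2 (ne_empty_iff.2 ⟨_, h4⟩)).1
    have h3 : ∀ x ∈ pw l, ∃ b ∈ k, Aa D k fun ξ => ap (EF k E x f) ξ = b := by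
      intro x hx
      refine hm _ (hE f hf l hl x hx) ?_
      refine hD.mono (hD.and hi hl' (hu ∅ h0k)) (hg _ (lt_mem_gens (hE f hf l hl x hx) hf)) ?_
      rintro ξ hξ ⟨h4, h5⟩
      unfold EF
      rw [ap_lam hξ]
      exact (hcf ξ hξ h4 h5).1.ap_mem hx
    obtain ⟨B, hB, hB'⟩ := exists_choice_rel (pw l) k
      (fun x b => Aa D k fun ξ => ap (EF k E x f) ξ = b) h3
    obtain ⟨β, hβ, h4⟩ := hr.bdd (hs.2 l hl) (fun x => ap B x) fun x hx => hB.ap_mem hx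
    have h5 : Aa D k fun ξ => ∀ x ∈ pw l, ap (EF k E x f) ξ = ap B x :=
      hD.ball hi hA (χ := fun x ξ => ap (EF k E x f) ξ = ap B x) (hs.2 l hl) hB'
    obtain ⟨ξ, hξ, ⟨⟨h6, h7⟩, h8⟩, h9⟩ := hD.ex hi
      (hD.and hi (hD.and hi (hD.and hi hl' (hu ∅ h0k)) (hu β hβ)) h5)
    obtain ⟨x, hx, h10⟩ := (hcf ξ hξ h6 h7).2 β h8
    have h11 := h9 x hx
    unfold EF at h11
    rw [ap_lam hξ] at h11
    rw [h11] at h10
    exact mem_irrefl _ (h10 _ (h4 x hx))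
  · have c2 := (hD.not_iff (hg _ (lt_mem_gens (hL f hf) hf))).2 c1
    have hgk : gg k s D f ⊆ k := gg_sub
    obtain ⟨h3, h4⟩ := hHR _ hgk
    have key : ∀ ξ ∈ k, ¬ ap (LF k Lm f) ξ ∈ ap f ξ → om ∈ ap f ξ →
        ap R (op (gg k s D f) (ap f ξ)) ∈ ap f ξ ∧
          (ap f ξ ⊆ ap (ap H (gg k s D f)) (ap R (op (gg k s D f) (ap f ξ))) ∨
            (ap R (op (gg k s D f) (ap f ξ)) ∈ ap s (ap f ξ) ↔
              ap R (op (gg k s D f) (ap f ξ)) ∉ gg k s D f)) := by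
      intro ξ hξ h5 h6
      have h7 := hf'.ap_mem hξ
      obtain ⟨h8, -, h9⟩ := hLE _ h7
      have h10 := (h9 (ne_empty_iff.2 ⟨_, h6⟩)).2
      unfold LF at h5
      rw [ap_lam hξ] at h5
      have h11 : ap Lm (ap f ξ) = ap f ξ := by
        rcases ((hLo _ h7).sub_iff (hfo ξ hξ)).1 h8 with h12 | h12
        · exact absurd h12 h5
        · exact h12
      exact (h4 _ h7).2 h6 (h10 h11)
    obtain ⟨e, he, he'⟩ := hm _ (hRF f hf) (hD.mono (hD.and hi c2 (hu om ho))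
      (hg _ (lt_mem_gens (hRF f hf) hf)) (by
        rintro ξ hξ ⟨h5, h6⟩
        unfold sRF
        rw [ap_lam hξ]
        exact (key ξ hξ h5 h6).1))
    have h5 : ∀ ξ ∈ k, (¬ ap (LF k Lm f) ξ ∈ ap f ξ) ∧ om ∈ ap f ξ →
        ap (sRF k R (gg k s D f) f) ξ = e → ap (ap H (gg k s D f)) e ∈ ap f ξ →
        (e ∈ ap s (ap f ξ) ↔ e ∉ gg k s D f) := by
      rintro ξ hξ ⟨h5, h6⟩ h7 h8
      unfold sRF at h7
      rw [ap_lam hξ] at h7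
      have h9 := (key ξ hξ h5 h6).2
      rw [h7] at h9
      rcases h9 with h10 | h10
      · exact absurd (h10 _ h8) (mem_irrefl _)
      · exact h10
    have h6 := hD.and hi (hD.and hi (hD.and hi c2 (hu om ho)) he') (hu _ (h3.ap_mem he))
    have hmem : e ∈ gg k s D f ↔ Aa D k fun ξ => e ∈ ap s (ap f ξ) := by
      unfold gg
      rw [mem_sep]
      exact ⟨fun h => h.2, fun h => ⟨he, h⟩⟩
    by_cases c3 : e ∈ gg k s D f
    · obtain ⟨ξ, hξ, ⟨⟨h7, h8⟩, h9⟩, h10⟩ := hD.ex hi (hD.and hi h6 (hmem.1 c3))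
      exact (h5 ξ hξ h7 h8 h9).1 h10 c3
    · have c4 : ¬ Aa D k fun ξ => e ∈ ap s (ap f ξ) := fun h => c3 (hmem.2 h)
      have c5 := (hD.not_iff (hg _ (mem_mem_gens hf he))).2 c4
      obtain ⟨ξ, hξ, ⟨⟨h7, h8⟩, h9⟩, h10⟩ := hD.ex hi (hD.and hi h6 c5)
      exact h10 ((h5 ξ hξ h7 h8 h9).2 c3)

end

end Pool.Agent.IST
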