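import Pool.Agent.UG.StarC

/-!
# Player II has no winning strategy in the games `G*` and in the long Welch games
-/

set_option synthInstance.maxSize 100000

namespace Pool.Agent.IST

open Pool.Agent.BVM

section

variable {M : Type} [SetModel M] {Γ : Type} [IsCtx Γ M]

/-- the algebra played for a family of functions -/
noncomputable def GA (k s F : M) : M := gen k (gens k s F)

instance GA.dff {a b c : Γ → M} [Dff a] [Dff b] [Dff c] :
    Dff fun γ => GA (a γ) (b γ) (c γ) := by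
  unfold GA; infer_instance

/-- the families of functions against the strategy `σ` -/
noncomputable def FF (k s Lm E R σ n : M) : M :=
  erec (fun n h => sing (idf k) ∪ iU n fun m =>
    NF k s Lm E R (ap h m) (ap σ (lam (sc m) fun j => GA k s (ap h j)))) n

instance FF.dff {k s Lm E R σ n : Γ → M} [Dff k] [Dff s] [Dff Lm] [Dff E] [Dff R] [Dff σ]
    [Dff n] : Dff fun γ => FF (k γ) (s γ) (Lm γ) (E γ) (R γ) (σ γ) (n γ) := by
  unfold FF
  exact erec.dff (G := fun (γ : Γ) n h => sing (idf (k γ)) ∪ iU n fun m =>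
    NF (k γ) (s γ) (Lm γ) (E γ) (R γ) (ap h m) (ap (σ γ) (lam (sc m) fun j => GA (k γ) (s γ) (ap h j))))

variable {k s Lm E H R σ : M}

/-- the response of II in the play -/
noncomputable def UU (k s Lm E R σ m : M) : M :=
  ap σ (lam (sc m) fun j => GA k s (FF k s Lm E R σ j))

instance UU.dff {k s Lm E R σ n : Γ → M} [Dff k] [Dff s] [Dff Lm] [Dff E] [Dff R] [Dff σ]
    [Dff n] : Dff fun γ => UU (k γ) (s γ) (Lm γ) (E γ) (R γ) (σ γ) (n γ) := by
  unfold UU; infer_instance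

theorem FF_eq {n : M} (hn : IsOrd n) : FF k s Lm E R σ n = sing (idf k) ∪ iU n fun m =>
    NF k s Lm E R (FF k s Lm E R σ m) (UU k s Lm E R σ m) := by
  conv_lhs => unfold FF
  rw [erec_ord hn]
  congr 1
  refine iU_congr fun m hm => ?_
  have h1 : ap (lam n fun y => FF k s Lm E R σ y) m = FF k s Lm E R σ m := ap_lam hm
  have h2 : (lam (sc m) fun j => GA k s (ap (lam n fun y => FF k s Lm E R σ y) j)) =
      lam (sc m) fun j => GA k s (FF k s Lm E R σ j) := by
    refine lam_congr fun j hj => ?_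
    have hjn : j ∈ n := by
      rcases mem_sc.1 hj with h3 | rfl
      · exact hn.trans h3 hm
      · exact hm
    rw [ap_lam hjn]
  have h3 : NF k s Lm E R (ap (lam n fun y => FF k s Lm E R σ y) m)
      (ap σ (lam (sc m) fun j => GA k s (ap (lam n fun y => FF k s Lm E R σ y) j))) =
      NF k s Lm E R (FF k s Lm E R σ m) (UU k s Lm E R σ m) := by
    rw [h1, h2]
    rfl
  exact h3

theorem idf_mem_FF {n : M} (hn : IsOrd n) : idf k ∈ FF k s Lm E R σ n := by
  rw [FF_eq hn]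
  exact mem_union.2 (Or.inl (mem_sing.2 rfl))

theorem NF_sub_FF {n m : M} (hn : IsOrd n) (hm : m ∈ n) :
    NF k s Lm E R (FF k s Lm E R σ m) (UU k s Lm E R σ m) ⊆ FF k s Lm E R σ n := by
  rw [FF_eq hn]
  exact fun z hz => mem_union.2 (Or.inr (mem_iU.2 ⟨m, hm, hz⟩))

theorem FF_mono {n m : M} (hn : IsOrd n) (hm : m ∈ n) :
    FF k s Lm E R σ m ⊆ FF k s Lm E R σ n :=
  Sub.trans sub_NF (NF_sub_FF hn hm)

theorem leq_FF (hr : IsReg k) (hs : IsSLim k) {n : M} (hn : n ∈ (om : M)) :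
    Leq (FF k s Lm E R σ n) k := by
  have key : ∀ n : M, IsOrd n → n ∈ (om : M) → Leq (FF k s Lm E R σ n) k := by
    refine ord_ind (fun n => n ∈ (om : M) → Leq (FF k s Lm E R σ n) k) fun n ho ih hn => ?_
    rw [FF_eq ho]
    refine leq_union hr.infCard (leq_sing hr.infCard.ne_empty) ?_
    refine leq_iU hr.infCard _ (leq_of_sub (Sub.trans (isOrd_om.sub_of_mem hn) hr.infCard.2))
      fun m hm => ?_
    exact leq_NF hs (ih m hm (isOrd_om.trans hm hn))
  exact key n (isOrd_om.mem hn) hn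

theorem FF_sub (hL : ∀ a ∈ k, ap Lm a ∈ k) (hE : ∀ a ∈ k, ∀ x, ap (ap E a) x ∈ k)
    (hR : ∀ g, g ⊆ k → ∀ a ∈ k, ap R (op g a) ∈ k) {n : M} (hn : IsOrd n) :
    FF k s Lm E R σ n ⊆ fns k k := by
  have key : ∀ n : M, IsOrd n → FF k s Lm E R σ n ⊆ fns k k := by
    refine ord_ind (fun n => FF k s Lm E R σ n ⊆ fns k k) fun n ho ih => ?_
    rw [FF_eq ho]
    refine union_sub (fun z hz => ?_) fun z hz => ?_
    · rw [mem_sing.1 hz]
      exact mem_fns.2 (bij_idf k).1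
    · obtain ⟨m, hm, hz⟩ := mem_iU.1 hz
      exact NF_sub hL hE hR (ih m hm) z hz
  exact key n hn

/-- legal moves of Player I in the Welch games, of length `γ` -/
def ILeg (k γ a : M) : Prop := IsFun a ∧ dom a = γ ∧
  (∀ i ∈ γ, IsAlg k (ap a i) ∧ card (ap a i) = k ∧ ∀ x ∈ k, sing x ∈ ap a i) ∧
  ∀ i ∈ γ, ∀ j ∈ i, ap a j ⊆ ap a i

instance ILeg.dfp {f g h : Γ → M} [Dff f] [Dff g] [Dff h] :
    Dfp fun γ => ILeg (f γ) (g γ) (h γ) := by
  unfold ILeg; infer_instance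

theorem card_GA {F : M} (hr : IsReg k) (hs : IsSLim k) (hF : Leq F k) : card (GA k s F) = k := by
  have h1 : Leq (GA k s F) k := leq_gen hr hs gens_sub (leq_gens hr.infCard hF)
  have h2 : Leq k (GA k s F) := by
    have h3 : (img k fun x => sing x) ⊆ GA k s F := fun z hz => by
      obtain ⟨x, hx, rfl⟩ := mem_img.1 hz
      exact sub_gen gens_sub _ (sing_mem_gens hx)
    refine Leq.trans ?_ (leq_of_sub h3)
    exact (eqn_img fun x _ y _ e => sing_inj.1 e).leq
  refine Sub.antisymm (card_sub_of_leq hr.isCard h1) ?_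
  have h4 := card_sub_iff.2 h2
  rwa [hr.isCard.card_eq] at h4

/-- the core: there is no strategy whose responses always extend to an ultrafilter after `ω` moves -/
theorem no_strategy (hr : IsReg k) (hs : IsSLim k) (ho : om ∈ k) (hN : NIneff k s)
    (hP : ∀ a, ILeg k om a → (∀ n ∈ (om : M), UltOn k (ap a n) (ap σ (res a (sc n)))) ∧
      ∃ A D, IsAlg k A ∧ (∀ n ∈ (om : M), ap a n ⊆ A) ∧ UltOn k A D ∧
        ∀ n ∈ (om : M), ap σ (res a (sc n)) ⊆ D) : False := by
  have hk0 := hr.infCard.ne_empty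
  obtain ⟨Lm, E, -, -, hLE, hLo⟩ := exists_lm hr.isOrd
  obtain ⟨H, R, hHR⟩ := exists_rr hr.isOrd hk0 hN
  have hL : ∀ a ∈ k, ap Lm a ∈ k := fun a ha =>
    (hLo a ha).mem_of_sub_of_mem hr.isOrd (hLE a ha).1 ha
  have hFs : ∀ n, IsOrd n → FF k s Lm E R σ n ⊆ fns k k := fun n hn =>
    FF_sub hL (fun a ha => (hLE a ha).2.1) (fun g hg a ha => ((hHR g hg).2 a ha).1) hn
  have hoo : ∀ n ∈ (om : M), IsOrd n := fun n hn => isOrd_om.mem hn
  have hsc : ∀ n ∈ (om : M), sc n ∈ (om : M) := fun n hn => isLim_om.2.2 n hn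
  set a : M := lam om fun n => GA k s (FF k s Lm E R σ n) with hadef
  have haf : IsFun a := isFun_lam
  have hap : ∀ n ∈ (om : M), ap a n = GA k s (FF k s Lm E R σ n) := fun n hn => ap_lam hn
  have hres : ∀ n ∈ (om : M), ap σ (res a (sc n)) = UU k s Lm E R σ n := by
    intro n hn
    have h1 : res a (sc n) = lam (sc n) fun j => GA k s (FF k s Lm E R σ j) := by
      refine haf.res.ext isFun_lam ?_ fun j hj => ?_
      · rw [dom_res, dom_lam, dom_lam]
        apply ext; intro z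
        rw [mem_inter]
        exact ⟨fun h => h.2, fun h => ⟨isOrd_om.trans h (hsc n hn), h⟩⟩
      · rw [dom_res, mem_inter] at hj
        rw [haf.ap_res hj.2, ap_lam hj.2, hap j (isOrd_om.trans hj.2 (hsc n hn))]
    rw [h1]
    rfl
  have hGm : ∀ {F G : M}, F ⊆ G → GA k s F ⊆ GA k s G := fun h =>
    gen_sub (isAlg_gen _ _) (Sub.trans (gens_mono h) (sub_gen gens_sub))
  have hleg : ILeg k om a := by
    refine ⟨haf, dom_lam, fun n hn => ?_, fun n hn m hm => ?_⟩
    · rw [hap n hn]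
      exact ⟨isAlg_gen _ _, card_GA hr hs (leq_FF hr hs hn), fun x hx =>
        sub_gen gens_sub _ (sing_mem_gens hx)⟩
    · rw [hap n hn, hap m (isOrd_om.trans hm hn)]
      exact hGm (FF_mono (hoo n hn) hm)
  obtain ⟨hU, A, D, hA, hAn, hD, hUD⟩ := hP a hleg
  have hgn : ∀ n ∈ (om : M), gens k s (FF k s Lm E R σ n) ⊆ A := fun n hn => by
    have h1 := hAn n hn
    rw [hap n hn] at h1
    exact Sub.trans (sub_gen gens_sub) h1
  refine no_ult (F := iU om fun n => FF k s Lm E R σ n) hr hs ho hLE hLo hHR ?_ ?_ ?_ ?_ ?_ hA ?_ hD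
  · intro f hf
    obtain ⟨n, hn, hf⟩ := mem_iU.1 hf
    exact hFs n (hoo n hn) f hf
  · exact mem_iU.2 ⟨∅, mem_om.2 isNat_empty, idf_mem_FF isOrd_empty⟩
  · intro f hf
    obtain ⟨n, hn, hf⟩ := mem_iU.1 hf
    exact mem_iU.2 ⟨sc n, hsc n hn, NF_sub_FF (hoo n hn).sc (self_mem_sc n) _ (LF_mem_NF hf)⟩
  · intro f hf l hl x hx
    obtain ⟨n, hn, hf⟩ := mem_iU.1 hf
    exact mem_iU.2 ⟨sc n, hsc n hn, NF_sub_FF (hoo n hn).sc (self_mem_sc n) _ (EF_mem_NF hf hl hx)⟩
  · intro f hf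
    obtain ⟨n, hn, hf⟩ := mem_iU.1 hf
    have h1 : gg k s D f = gg k s (UU k s Lm E R σ n) f := by
      unfold gg
      apply ext
      intro e
      rw [mem_sep, mem_sep]
      refine and_congr_right fun he => ?_
      have h2 : (sep k fun ξ => e ∈ ap s (ap f ξ)) ∈ gens k s (FF k s Lm E R σ n) :=
        mem_mem_gens hf he
      have h3 := hUD n hn
      have h4 := hU n hn
      rw [hres n hn] at h3 h4
      rw [hap n hn] at h4
      refine ⟨fun h5 => ?_, fun h5 => h3 _ h5⟩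
      by_contra h6
      have h7 := (h4.2.1 _ (sub_gen gens_sub _ h2)).2 h6
      exact (hD.2.1 _ (hgn n hn _ h2)).1 (h3 _ h7) h5
    rw [h1]
    exact mem_iU.2 ⟨sc n, hsc n hn, NF_sub_FF (hoo n hn).sc (self_mem_sc n) _ (sRF_mem_NF hf)⟩
  · intro z hz
    unfold gens at hz
    rw [mem_union, mem_union, mem_union] at hz
    rcases hz with (h1 | h1) | h1 | h1
    · obtain ⟨x, hx, rfl⟩ := mem_img.1 h1
      exact hgn ∅ (mem_om.2 isNat_empty) _ (sing_mem_gens hx)
    · obtain ⟨f, hf, h2⟩ := mem_iU.1 h1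
      obtain ⟨g, hg, rfl⟩ := mem_img.1 h2
      obtain ⟨n, hn, hf⟩ := mem_iU.1 hf
      obtain ⟨m, hm, hg⟩ := mem_iU.1 hg
      rcases (hoo n hn).cmp (hoo m hm) with h3 | rfl | h3
      · exact hgn m hm _ (lt_mem_gens (FF_mono (hoo m hm) h3 _ hf) hg)
      · exact hgn n hn _ (lt_mem_gens hf hg)
      · exact hgn n hn _ (lt_mem_gens hf (FF_mono (hoo n hn) h3 _ hg))
    · obtain ⟨f, hf, h2⟩ := mem_iU.1 h1
      obtain ⟨e, he, rfl⟩ := mem_img.1 h2
      obtain ⟨n, hn, hf⟩ := mem_iU.1 hf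
      exact hgn n hn _ (eq_mem_gens hf he)
    · obtain ⟨f, hf, h2⟩ := mem_iU.1 h1
      obtain ⟨e, he, rfl⟩ := mem_img.1 h2
      obtain ⟨n, hn, hf⟩ := mem_iU.1 hf
      exact hgn n hn _ (mem_mem_gens hf he)

end

end Pool.Agent.IST
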