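import Pool.Agent.UG.StarD

/-!
# Player II has no winning strategy in the games `G*` and in the long Welch games
-/

set_option synthInstance.maxSize 100000

namespace Pool.Agent.IST

open Pool.Agent.BVM

section

variable {M : Type} [SetModel M] {Γ : Type} [IsCtx Γ M]

/-- `σ` is a winning strategy of Player II in the Welch game of length `γ` on `k`: `σ` answers the
sequence `(A_j)_{j ≤ i}` by an ultrafilter on `A_i` -/
def WelchWin (k γ σ : M) : Prop := ∀ a, ILeg k γ a → ∀ i ∈ γ,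
  UltOn k (ap a i) (ap σ (res a (sc i))) ∧ ∀ j ∈ i, ap σ (res a (sc j)) ⊆ ap σ (res a (sc i))

instance WelchWin.dfp {f g h : Γ → M} [Dff f] [Dff g] [Dff h] :
    Dfp fun γ => WelchWin (f γ) (g γ) (h γ) := by
  unfold WelchWin; infer_instance

/-- `σ` is a winning strategy of Player II in `G*_γ` on `k` -/
def StarWin (k γ σ : M) : Prop := WelchWin k γ σ ∧ ∀ a, ILeg k γ a →
  ∃ D, UltOn k (gen k (iU γ fun i => ap a i)) D ∧ ∀ i ∈ γ, ap σ (res a (sc i)) ⊆ D

instance StarWin.dfp {f g h : Γ → M} [Dff f] [Dff g] [Dff h] :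
    Dfp fun γ => StarWin (f γ) (g γ) (h γ) := by
  unfold StarWin; infer_instance

variable {k s σ γ : M}

theorem isAlg_card_gen {X : M} (hr : IsReg k) (hs : IsSLim k) (hX : X ⊆ pw k) (hc : Leq X k)
    (h1 : ∀ x ∈ k, sing x ∈ X) : card (gen k X) = k := by
  have h2 : Leq k (gen k X) := by
    have h3 : (img k fun x => sing x) ⊆ gen k X := fun z hz => by
      obtain ⟨x, hx, rfl⟩ := mem_img.1 hz
      exact sub_gen hX _ (h1 x hx)
    refine Leq.trans ?_ (leq_of_sub h3)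
    exact (eqn_img fun x _ y _ e => sing_inj.1 e).leq
  refine Sub.antisymm (card_sub_of_leq hr.isCard (leq_gen hr hs hX hc)) ?_
  have h4 := card_sub_iff.2 h2
  rwa [hr.isCard.card_eq] at h4

theorem ext_play (hr : IsReg k) (hs : IsSLim k) (hγ : IsOrd γ) (hoγ : om ⊆ γ) {a : M}
    (ha : ILeg k om a) : ∃ b, ILeg k γ b ∧
      (∀ n ∈ (om : M), ap b n = ap a n ∧ res b (sc n) = res a (sc n)) ∧
      ∀ i ∈ γ, i ∉ (om : M) → ap b i = gen k (iU om fun n => ap a n) := by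
  classical
  obtain ⟨h1, h2, h3, h4⟩ := ha
  have hX : (iU om fun n => ap a n) ⊆ pw k := fun z hz => by
    obtain ⟨n, hn, hz⟩ := mem_iU.1 hz
    exact (h3 n hn).1.1 z hz
  have hc : Leq (iU om fun n => ap a n) k := by
    refine leq_iU hr.infCard _ (leq_of_sub hr.infCard.2) fun n hn => ?_
    exact leq_of_card_sub (by rw [(h3 n hn).2.1]; exact Sub.refl k)
  have h0 : (∅ : M) ∈ (om : M) := mem_om.2 isNat_empty
  have hsub : ∀ n ∈ (om : M), ap a n ⊆ gen k (iU om fun n => ap a n) := fun n hn z hz =>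
    sub_gen hX _ (mem_iU.2 ⟨n, hn, hz⟩)
  have hb1 : ∀ n ∈ (om : M), ap (lam γ fun i => if i ∈ (om : M) then ap a i else
      gen k (iU om fun n => ap a n)) n = ap a n := fun n hn => by
    rw [ap_lam (hoγ n hn), if_pos hn]
  have hb2 : ∀ i ∈ γ, i ∉ (om : M) → ap (lam γ fun i => if i ∈ (om : M) then ap a i else
      gen k (iU om fun n => ap a n)) i = gen k (iU om fun n => ap a n) := fun i hi hi' => by
    rw [ap_lam hi, if_neg hi']
  refine ⟨lam γ fun i => if i ∈ (om : M) then ap a i else gen k (iU om fun n => ap a n),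
    ⟨isFun_lam, dom_lam, fun i hi => ?_, fun i hi j hj => ?_⟩, fun n hn => ⟨hb1 n hn, ?_⟩, hb2⟩
  · by_cases hio : i ∈ (om : M)
    · rw [hb1 i hio]
      exact h3 i hio
    · rw [hb2 i hi hio]
      exact ⟨isAlg_gen _ _, isAlg_card_gen hr hs hX hc fun x hx =>
        mem_iU.2 ⟨∅, h0, (h3 ∅ h0).2.2 x hx⟩, fun x hx => hsub ∅ h0 _ ((h3 ∅ h0).2.2 x hx)⟩
  · have hjγ := hγ.trans hj hi
    by_cases hio : i ∈ (om : M)
    · have hjo := isOrd_om.trans hj hio
      rw [hb1 i hio, hb1 j hjo]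
      exact h4 i hio j hj
    · rw [hb2 i hi hio]
      by_cases hjo : j ∈ (om : M)
      · rw [hb1 j hjo]
        exact hsub j hjo
      · rw [hb2 j hjγ hjo]
        exact Sub.refl _
  · have hn' : sc n ∈ (om : M) := isLim_om.2.2 n hn
    have hfb : IsFun (lam γ fun i => if i ∈ (om : M) then ap a i else
      gen k (iU om fun n => ap a n)) := isFun_lam
    refine hfb.res.ext h1.res ?_ fun j hj => ?_
    · rw [dom_res, dom_lam, dom_res, h2]
      apply ext; intro z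
      rw [mem_inter, mem_inter]
      exact ⟨fun h => ⟨isOrd_om.trans h.2 hn', h.2⟩, fun h => ⟨hoγ z h.1, h.2⟩⟩
    · rw [dom_res, mem_inter] at hj
      rw [hfb.ap_res hj.2, h1.ap_res hj.2]
      exact hb1 j (isOrd_om.trans hj.2 hn')

/-- Player II has no winning strategy in the Welch game of length `γ > ω` -/
theorem not_welchWin (hr : IsReg k) (hs : IsSLim k) (ho : om ∈ k) (hN : NIneff k s)
    (hγ : IsOrd γ) (hoγ : om ∈ γ) : ¬ WelchWin k γ σ := by
  intro hW
  refine no_strategy (σ := σ) hr hs ho hN fun a ha => ?_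
  obtain ⟨b, hb, hb1, hb2⟩ := ext_play hr hs hγ (hγ.sub_of_mem hoγ) ha
  have h1 := hW b hb
  refine ⟨fun n hn => ?_, gen k (iU om fun n => ap a n), ap σ (res b (sc om)), isAlg_gen _ _,
    fun n hn => ?_, ?_, fun n hn => ?_⟩
  · have h2 := (h1 n (hγ.trans hn hoγ)).1
    rwa [(hb1 n hn).1, (hb1 n hn).2] at h2
  · refine Sub.trans (fun z hz => mem_iU.2 ⟨n, hn, hz⟩) (sub_gen fun z hz => ?_)
    obtain ⟨m, hm, hz⟩ := mem_iU.1 hz
    exact (ha.2.2.1 m hm).1.1 z hz
  · have h2 := (h1 om hoγ).1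
    rwa [hb2 om hoγ (mem_irrefl _)] at h2
  · have h2 := (h1 om hoγ).2 n hn
    rwa [(hb1 n hn).2] at h2

/-- Player II has no winning strategy in `G*_γ` -/
theorem not_starWin (hr : IsReg k) (hs : IsSLim k) (ho : om ∈ k) (hN : NIneff k s)
    (hγ : IsOrd γ) (hoγ : om ⊆ γ) : ¬ StarWin k γ σ := by
  intro hW
  refine no_strategy (σ := σ) hr hs ho hN fun a ha => ?_
  obtain ⟨b, hb, hb1, hb2⟩ := ext_play hr hs hγ hoγ ha
  have h1 := hW.1 b hb
  obtain ⟨D, hD, hD'⟩ := hW.2 b hb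
  refine ⟨fun n hn => ?_, gen k (iU γ fun n => ap b n), D, isAlg_gen _ _, fun n hn => ?_, hD,
    fun n hn => ?_⟩
  · have h2 := (h1 n (hoγ n hn)).1
    rwa [(hb1 n hn).1, (hb1 n hn).2] at h2
  · rw [← (hb1 n hn).1]
    refine Sub.trans (fun z hz => mem_iU.2 ⟨n, hoγ n hn, hz⟩) (sub_gen fun z hz => ?_)
    obtain ⟨m, hm, hz⟩ := mem_iU.1 hz
    exact (hb.2.2.1 m hm).1.1 z hz
  · rw [← (hb1 n hn).2]
    exact hD' n (hoγ n hn)

end

end Pool.Agent.IST
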