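import Pool.Agent.UG.Game

/-!
# A winning strategy in the Ulam game from a set of states

`S` is a set of states, `le t s`: the state `t` is stronger than `s`; `T s X`: the state `s`
guarantees the set `X`.
-/

set_option synthInstance.maxSize 100000

namespace Pool.Agent.IST

open Pool.Agent.BVM

section

variable {M : Type} [SetModel M] {Γ : Type} [IsCtx Γ M]

/-- the state after stage `α` of the play `a`; `c` chooses stronger states, `L` lower bounds -/
noncomputable def utS (c L a α : M) : M :=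
  erec (fun α f => ap c (op (ap L f) (p1 (ap a α)))) α

instance utS.dff {f g h k : Γ → M} [Dff f] [Dff g] [Dff h] [Dff k] :
    Dff fun γ => utS (f γ) (g γ) (h γ) (k γ) := by
  unfold utS
  exact erec.dff (G := fun (γ : Γ) α u => ap (f γ) (op (ap (g γ) u) (p1 (ap (h γ) α))))

theorem utS_eq (c L a α : M) :
    utS c L a α = ap c (op (ap L (lam α fun β => utS c L a β)) (p1 (ap a α))) := by
  unfold utS
  rw [erec_eq]

theorem utS_res {c L a δ : M} (ha : IsFun a) (hδ : IsOrd δ) :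
    ∀ α, IsOrd α → α ∈ δ → utS c L (res a δ) α = utS c L a α := by
  refine ord_ind (fun α => α ∈ δ → utS c L (res a δ) α = utS c L a α) fun α hα ih hαδ => ?_
  rw [utS_eq, utS_eq c L a α, ha.ap_res hαδ]
  congr 3
  exact lam_congr fun β hβ => ih β hβ (hδ.trans hβ hαδ)

/-- the answer at the last stage of `h` -/
noncomputable def uAns (T : M → M → Prop) (c L h : M) : M := by
  classical
  exact if T (utS c L h (bigU (dom h))) (p1 (ap h (bigU (dom h)))) then
    p1 (ap h (bigU (dom h))) else p2 (ap h (bigU (dom h)))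

theorem uAns_dff (T : M → M → Prop) [hT : DP2 T] (c L : M) :
    Dff fun γ : E0 M × M => uAns T c L γ.2 := by
  classical
  unfold uAns
  infer_instance

/-- a winning strategy in the Ulam game from a set of states -/
theorem uwin_of_states {κ γ S s0 : M} (hκ : InfCard κ) (hγ : IsOrd γ) (hs0 : s0 ∈ S)
    (le T : M → M → Prop) [hle : DP2 le] [hT : DP2 T]
    (trans : ∀ s t u, le s t → le t u → le s u)
    (mono : ∀ s t X, le t s → T s X → T t X)
    (step : ∀ s ∈ S, ∀ X, X ⊆ κ → ∃ t ∈ S, le t s ∧ (T t X ∨ T t (κ \ X)))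
    (lim : ∀ δ ∈ sc γ, ∀ f, Maps f δ S → (∀ α ∈ δ, ∀ β ∈ α, le (ap f α) (ap f β)) →
      ∃ s ∈ S, ∀ α ∈ δ, le s (ap f α))
    (fin : ∀ δ ∈ sc γ, ∀ s ∈ S, ∀ F, IsFun F → dom F = δ → (∀ β ∈ δ, ap F β ⊆ κ) →
      (∀ β ∈ δ, T s (ap F β)) → card (sep κ fun x => ∀ β ∈ δ, x ∈ ap F β) = κ) :
    UWin κ γ := by
  classical
  have hsγ := hγ.sc
  -- the choice functions
  obtain ⟨c, hc, hc'⟩ := exists_choice_rel (prod S (pw κ)) S
    (fun w t => le t (p1 w) ∧ (T t (p2 w) ∨ T t (κ \ p2 w))) fun w hw => by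
      obtain ⟨s, hs, X, hX, rfl⟩ := mem_prod.1 hw
      rw [p1_op, p2_op]
      exact step s hs X (mem_pw.1 hX)
  have hdl : Dfp fun γ' : (E0 M × M) × M => (∃ δ ∈ sc γ, Maps γ'.1.2 δ S ∧
      ∀ α ∈ δ, ∀ β ∈ α, le (ap γ'.1.2 α) (ap γ'.1.2 β)) → ∀ α ∈ dom γ'.1.2,
        le γ'.2 (ap γ'.1.2 α) := inferInstance
  obtain ⟨L, hL, hL'⟩ := exists_choice_rel (seqs (sc γ) S) S
    (fun f s => (∃ δ ∈ sc γ, Maps f δ S ∧ ∀ α ∈ δ, ∀ β ∈ α, le (ap f α) (ap f β)) →
      ∀ α ∈ dom f, le s (ap f α)) fun f _ => by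
      by_cases h1 : ∃ δ ∈ sc γ, Maps f δ S ∧ ∀ α ∈ δ, ∀ β ∈ α, le (ap f α) (ap f β)
      · obtain ⟨δ, hδ, h2, h3⟩ := h1
        obtain ⟨s, hs, h4⟩ := lim δ hδ f h2 h3
        exact ⟨s, hs, fun _ α hα => h4 α (h2.dom_eq ▸ hα)⟩
      · exact ⟨s0, hs0, fun h => absurd h h1⟩
  have hans := uAns_dff T c L
  set H := seqs (sc γ) (prod (pw κ) (pw κ)) with hH
  set σ := lam H fun h => uAns T c L h with hσ
  refine ⟨σ, fun δ hδ a ha => ?_⟩
  obtain ⟨haf, had, ham⟩ := ha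
  have hδo : IsOrd δ := hsγ.mem hδ
  have hδγ : δ ⊆ γ := (hδo.mem_sc_iff hγ).1 hδ
  have hcap : ∀ α ∈ δ, ∃ X Y, ap a α = op X Y ∧ X ⊆ κ ∧ Y ⊆ κ := by
    intro α hα
    obtain ⟨X, Y, h1, h2, -⟩ := ham α hα
    have h3 : uCap κ σ a α ⊆ κ := fun x hx => (mem_sep.1 hx).1
    exact ⟨X, Y, h1, fun x hx => h3 x (h2 ▸ mem_union.2 (Or.inl hx)),
      fun x hx => h3 x (h2 ▸ mem_union.2 (Or.inr hx))⟩
  have hpw : ∀ α ∈ δ, ap a α ∈ prod (pw κ) (pw κ) := by
    intro α hα
    obtain ⟨X, Y, h1, h2, h3⟩ := hcap α hα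
    rw [h1]
    exact op_mem_prod.2 ⟨mem_pw.2 h2, mem_pw.2 h3⟩
  -- the answers of the strategy
  have hA : ∀ α ∈ δ, gAns σ a α = if T (utS c L a α) (p1 (ap a α)) then p1 (ap a α)
      else p2 (ap a α) := by
    intro α hα
    have hαo := hδo.mem hα
    have hscα : sc α ⊆ δ := hδo.sc_sub_iff.2 hα
    have hdr : dom (res a (sc α)) = sc α := by
      rw [dom_res, had]
      apply ext
      intro z
      rw [mem_inter]
      exact ⟨fun h => h.2, fun h => ⟨hscα z h, h⟩⟩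
    have hmem : res a (sc α) ∈ H := by
      rw [hH, mem_seqs]
      refine ⟨sc α, ?_, haf.res, hdr, fun z hz => ?_⟩
      · exact (hαo.sc.mem_sc_iff hγ).2 (Sub.trans hscα hδγ)
      · rw [haf.ap_res hz]
        exact hpw z (hscα z hz)
    unfold gAns
    rw [hσ, ap_lam hmem]
    unfold uAns
    rw [hdr, bigU_sc hαo, haf.ap_res (self_mem_sc α),
      utS_res haf hαo.sc α hαo (self_mem_sc α)]
  -- the states
  have hS : ∀ α, IsOrd α → α ∈ δ → utS c L a α ∈ S ∧ (∀ β ∈ α, le (utS c L a α) (utS c L a β)) ∧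
      (T (utS c L a α) (p1 (ap a α)) ∨ T (utS c L a α) (κ \ p1 (ap a α))) := by
    refine ord_ind (fun α => α ∈ δ → utS c L a α ∈ S ∧
      (∀ β ∈ α, le (utS c L a α) (utS c L a β)) ∧
      (T (utS c L a α) (p1 (ap a α)) ∨ T (utS c L a α) (κ \ p1 (ap a α)))) fun α hα ih hαδ => ?_
    have hαγ : α ∈ sc γ := (hα.mem_sc_iff hγ).2 (Sub.trans (hδo.sub_of_mem hαδ) hδγ)
    have h1 : Maps (lam α fun β => utS c L a β) α S :=
      maps_lam fun β hβ => (ih β hβ (hδo.trans hβ hαδ)).1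
    have h2 : ∀ x ∈ α, ∀ β ∈ x, le (ap (lam α fun β => utS c L a β) x)
        (ap (lam α fun β => utS c L a β) β) := by
      intro x hx β hβ
      rw [ap_lam hx, ap_lam (hα.trans hβ hx)]
      exact (ih x hx (hδo.trans hx hαδ)).2.1 β hβ
    have h3 : (lam α fun β => utS c L a β) ∈ seqs (sc γ) S := mem_seqs.2 ⟨α, hαγ, h1⟩
    have h4 := hL.ap_mem h3
    have h5 := hL' _ h3 ⟨α, hαγ, h1, h2⟩
    obtain ⟨X, Y, h6, h7, -⟩ := hcap α hαδ
    have hX : p1 (ap a α) ∈ pw κ := by rw [h6, p1_op]; exact mem_pw.2 h7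
    have h8 : op (ap L (lam α fun β => utS c L a β)) (p1 (ap a α)) ∈ prod S (pw κ) :=
      op_mem_prod.2 ⟨h4, hX⟩
    have h9 := hc.ap_mem h8
    have h10 := hc' _ h8
    rw [p1_op, p2_op, ← utS_eq] at h10
    rw [← utS_eq] at h9
    refine ⟨h9, fun β hβ => ?_, h10.2⟩
    have h11 := h5 β (by rw [dom_lam]; exact hβ)
    rw [ap_lam hβ] at h11
    exact trans _ _ _ h10.1 h11
  refine ⟨fun α hα => ?_, ?_⟩
  · rw [hA α hα]
    split_ifs
    · exact Or.inl rfl
    · exact Or.inr rfl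
  · -- the intersection
    have hF : Dff fun γ' : E0 M × M => if T (utS c L a γ'.2) (p1 (ap a γ'.2)) then p1 (ap a γ'.2)
        else κ \ p1 (ap a γ'.2) := inferInstance
    obtain ⟨F, hFf, hFd, hF'⟩ : ∃ F : M, IsFun F ∧ dom F = δ ∧ ∀ β ∈ δ, ap F β =
        if T (utS c L a β) (p1 (ap a β)) then p1 (ap a β) else κ \ p1 (ap a β) :=
      ⟨lam δ fun β => if T (utS c L a β) (p1 (ap a β)) then p1 (ap a β) else κ \ p1 (ap a β),
        isFun_lam, dom_lam, fun β hβ => ap_lam hβ⟩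
    obtain ⟨s, hs, hs'⟩ := lim δ hδ (lam δ fun β => utS c L a β)
      (maps_lam fun β hβ => (hS β (hδo.mem hβ) hβ).1) (by
        intro x hx β hβ
        rw [ap_lam hx, ap_lam (hδo.trans hβ hx)]
        exact (hS x (hδo.mem hx) hx).2.1 β hβ)
    have h1 := fin δ hδ s hs F hFf hFd (by
      intro β hβ
      rw [hF' β hβ]
      split_ifs
      · obtain ⟨X, Y, h6, h7, -⟩ := hcap β hβ
        rw [h6, p1_op]
        exact h7
      · exact fun x hx => (mem_diff.1 hx).1) (by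
      intro β hβ
      have h2 := hs' β hβ
      rw [ap_lam hβ] at h2
      refine mono _ _ _ h2 ?_
      rw [hF' β hβ]
      split_ifs with h3
      · exact h3
      · exact (hS β (hδo.mem hβ) hβ).2.2.resolve_left h3)
    have h2 : (sep κ fun x => ∀ β ∈ δ, x ∈ ap F β) ⊆ uCap κ σ a δ := by
      intro x hx
      obtain ⟨hxκ, hx⟩ := mem_sep.1 hx
      refine mem_sep.2 ⟨hxκ, fun β hβ => ?_⟩
      have key : ∀ β, IsOrd β → β ∈ δ → x ∈ gAns σ a β := by
        refine ord_ind (fun β => β ∈ δ → x ∈ gAns σ a β) fun β hβo ih hβ => ?_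
        have h3 : x ∈ uCap κ σ a β := mem_sep.2 ⟨hxκ, fun η hη => ih η hη (hδo.trans hη hβ)⟩
        obtain ⟨X, Y, h4, h5, -⟩ := ham β hβ
        have h6 := hx β hβ
        rw [hF' β hβ] at h6
        rw [hA β hβ]
        rw [← h5] at h3
        rw [h4, p1_op] at h6 ⊢
        rw [p2_op]
        split_ifs at h6 ⊢
        · exact h6
        · rcases mem_union.1 h3 with h7 | h7
          · exact absurd h7 (mem_diff.1 h6).2
          · exact h7
      exact key β (hδo.mem hβ) hβ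
    have h3 : uCap κ σ a δ ⊆ κ := fun x hx => (mem_sep.1 hx).1
    refine Sub.antisymm ?_ ?_
    · have := card_mono h3
      rwa [hκ.1.card_eq] at this
    · have h4 := card_mono h2
      rwa [h1] at h4

end

end Pool.Agent.IST
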