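import Pool.Agent.UG.Read
import Pool.Agent.UG.Ulam
import Pool.Agent.UG.MsrN

/-!
# The Ulam game in the generic extension

`RR m κ` is the set of the functions `f` on `κ` such that `f a` is a condition with coordinates
`≥ a`.
-/

set_option synthInstance.maxSize 100000

namespace Pool.Agent.IST

open Pool.Agent.BVM

section

variable {M : Type} [SetModel M] {Γ : Type} [IsCtx Γ M]

/-- functions `f` on `κ` such that `f a` is a condition with coordinates `≥ a` -/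
noncomputable def RR (m κ : M) : M := sep (fns κ (PU m κ)) fun f => ∀ a ∈ κ, lo a (ap f a) = ∅

instance RR.dff {f g : Γ → M} [Dff f] [Dff g] : Dff fun γ => RR (f γ) (g γ) := by
  unfold RR; infer_instance

theorem mem_RR {m κ f : M} : f ∈ RR m κ ↔ Maps f κ (PU m κ) ∧ ∀ a ∈ κ, lo a (ap f a) = ∅ := by
  unfold RR
  rw [mem_sep, mem_fns]

/-- the deciding lemma -/
def DecL (m κ U : M) (hκ : IsInacc κ) : Prop := ∀ f ∈ RR m κ, ∀ u, UCnd m κ u → ∀ nf : M,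
  ∃ u', UCnd m κ u' ∧ u ⊆ u' ∧ ∃ f' ∈ RR m κ, (∀ a ∈ κ, ap f a ⊆ ap f' a) ∧ ∃ Z ∈ U,
    (∀ a ∈ Z, ∀ w, UCnd m κ w → u' ⊆ w → ap f' a ⊆ w → (UP m κ hκ).Fm w ((UP m κ hκ).chk a) nf) ∨
    (∀ a ∈ Z, ∀ w, UCnd m κ w → u' ⊆ w → ap f' a ⊆ w →
      ¬ (UP m κ hκ).Fm w ((UP m κ hκ).chk a) nf)

/-- conditions are compatible with values of `f` -/
def EndL (m κ U : M) : Prop := ∀ f ∈ RR m κ, ∀ Z ∈ U, ∀ b ∈ κ, ∀ u, UCnd m κ u →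
  ∃ a ∈ Z, b ∈ a ∧ ∃ w, UCnd m κ w ∧ u ⊆ w ∧ ap f a ⊆ w

/-- lower bounds of short sequences in `RR` -/
theorem exists_lower {m κ : M} (hκ : IsInacc κ) (hm : m ∈ κ) {δ F : M} (hδ : δ ∈ sc m)
    (hF : Maps F δ (RR m κ))
    (hd : ∀ α ∈ δ, ∀ β ∈ α, ∀ a ∈ κ, ap (ap F β) a ⊆ ap (ap F α) a) :
    ∃ s ∈ RR m κ, ∀ α ∈ δ, ∀ a ∈ κ, ap (ap F α) a ⊆ ap s a := by
  have hmo := hκ.isOrd.mem hm
  have hδo := hmo.sc.mem hδ
  have hδm : δ ⊆ m := (hδo.mem_sc_iff hmo).1 hδ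
  have hc : ∀ a ∈ κ, UCnd m κ (iU δ fun α => ap (ap F α) a) := by
    intro a ha
    have e : (iU δ fun α => ap (ap F α) a) = bigU (img δ fun α => ap (ap F α) a) := rfl
    rw [e]
    have h1 : ∀ b : M, IsInacc b → m ∈ b → card (img δ fun α => ap (ap F α) a) ∈ b :=
      fun b hb hmb => hb.card_leq ((leq_img _ _).trans (leq_of_sub hδm)) (hb.card_mem hmb)
    refine ucnd_bigU hκ (fun p hp => ?_) (fun p hp q hq => ?_) (h1 κ hκ hm)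
      fun b _ hmb hib => Or.inl (h1 b hib hmb)
    · obtain ⟨α, hα, rfl⟩ := mem_img.1 hp
      exact (mem_PU hκ.isOrd).1 ((mem_RR.1 (hF.ap_mem hα)).1.ap_mem ha)
    · obtain ⟨α, hα, rfl⟩ := mem_img.1 hp
      obtain ⟨β, hβ, rfl⟩ := mem_img.1 hq
      have hα' := (mem_PU hκ.isOrd).1 ((mem_RR.1 (hF.ap_mem hα)).1.ap_mem ha)
      have hβ' := (mem_PU hκ.isOrd).1 ((mem_RR.1 (hF.ap_mem hβ)).1.ap_mem ha)
      rcases (hδo.mem hα).cmp (hδo.mem hβ) with h | h | h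
      · exact ⟨_, hβ'.1, hd β hβ α h a ha, Sub.refl _⟩
      · rw [h]
        exact ⟨_, hβ'.1, Sub.refl _, Sub.refl _⟩
      · exact ⟨_, hα'.1, Sub.refl _, hd α hα β h a ha⟩
  refine ⟨lam κ fun a => iU δ fun α => ap (ap F α) a, mem_RR.2 ⟨maps_lam fun a ha =>
    (mem_PU hκ.isOrd).2 (hc a ha), fun a ha => ?_⟩, fun α hα a ha => ?_⟩
  · rw [ap_lam ha, eq_empty_iff]
    intro w hw
    obtain ⟨hw, h1⟩ := mem_lo.1 hw
    obtain ⟨α, hα, hw⟩ := mem_iU.1 hw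
    have h2 := (mem_RR.1 (hF.ap_mem hα)).2 a ha
    exact eq_empty_iff.1 h2 w (mem_lo.2 ⟨hw, h1⟩)
  · rw [ap_lam ha]
    exact fun w hw => mem_iU.2 ⟨α, hα, hw⟩

end

namespace Gen

variable {M : Type} [SetModel M] [GCh M] {m κ U : M} {hκ : IsInacc κ} (G : Gen (UP m κ hκ))

/-- player II wins the Ulam games of length `≤ m` in the generic extension -/
theorem uwin (hU : Nfu κ κ κ U) (hm : m ∈ κ) (hdec : DecL m κ U hκ) (hend : EndL m κ U)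
    (hreg : IsReg (G.io κ)) {γ : G.Ext} (hγ : γ ∈ sc (G.io m)) : UWin (G.io κ) γ := by
  have hmo := hκ.isOrd.mem hm
  obtain ⟨γ0, hγ0, rfl⟩ : ∃ γ0 ∈ sc m, γ = G.io γ0 := by
    rw [← G.temb.sc] at hγ
    obtain ⟨γ0, h1, h2⟩ := G.io_tr hγ
    exact ⟨γ0, h1, h2⟩
  have hγo := hmo.sc.mem hγ0
  have hγm : γ0 ⊆ m := (hγo.mem_sc_iff hmo).1 hγ0
  -- the generic filter
  obtain ⟨gg, hgg'⟩ := G.exists_filter isOrd_empty
  have hgg : ∀ p, UCnd m κ p → (G.io p ∈ gg ↔ G.G p) := by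
    intro p hp
    rw [hgg']
    constructor
    · rintro ⟨r, -, h1, h2⟩
      rw [G.io_inj h2]
      exact h1
    · intro h
      exact ⟨p, (mem_PU hκ.isOrd).2 hp, h, rfl⟩
  -- initial segments
  have hseg : ∀ δ ∈ sc (G.io γ0), ∃ δ0, δ0 ∈ sc m ∧ Sm m κ m δ0 ∧ δ = G.io δ0 := by
    intro δ hδ
    rw [← G.temb.sc] at hδ
    obtain ⟨δ0, h1, h2⟩ := G.io_tr hδ
    have h3 := hγo.sc.mem h1
    have h4 : δ0 ⊆ m := Sub.trans ((h3.mem_sc_iff hγo).1 h1) hγm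
    exact ⟨δ0, (h3.mem_sc_iff hmo).2 h4, sm_of_leq hκ hm (leq_of_sub h4), h2⟩
  have hS : ∀ s ∈ G.io (RR m κ), ∃ f ∈ RR m κ, s = G.io f := fun s hs => G.io_tr hs
  have hap : ∀ f ∈ RR m κ, ∀ a ∈ κ, UCnd m κ (ap f a) := fun f hf a ha =>
    (mem_PU hκ.isOrd).1 ((mem_RR.1 hf).1.ap_mem ha)
  have hs0 : (lam κ fun _ => ∅) ∈ RR m κ := by
    refine mem_RR.2 ⟨maps_lam fun a _ => (mem_PU hκ.isOrd).2 (ucnd_empty hκ), fun a ha => ?_⟩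
    rw [ap_lam ha]
    exact eq_empty_iff.2 fun w hw => notMem_empty w (lo_sub w hw)
  refine uwin_of_states (S := G.io (RR m κ)) (s0 := G.io (lam κ fun _ => ∅)) hreg.infCard
    (G.temb.isOrd.2 hγo) (G.temb.mem.2 hs0)
    (fun t s => t ∈ G.io (RR m κ) ∧ s ∈ G.io (RR m κ) ∧ ∀ a ∈ G.io κ, ap s a ⊆ ap t a)
    (fun s X => ∃ Z ∈ G.io U, ∀ a ∈ Z, ap s a ∈ gg → a ∈ X) (hle := ⟨inferInstance⟩)
    (hT := ⟨inferInstance⟩) ?_ ?_ ?_ ?_ ?_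
  · rintro s t u ⟨h1, h2, h3⟩ ⟨-, h4, h5⟩
    exact ⟨h1, h4, fun a ha => Sub.trans (h5 a ha) (h3 a ha)⟩
  · rintro s t X ⟨h1, h2, h3⟩ ⟨Z, hZ, h4⟩
    refine ⟨Z, hZ, fun a ha h5 => h4 a ha ?_⟩
    obtain ⟨f, hf, rfl⟩ := hS t h1
    obtain ⟨g, hg, rfl⟩ := hS s h2
    obtain ⟨Z0, hZ0, rfl⟩ := G.io_tr hZ
    obtain ⟨a0, ha0, rfl⟩ := G.io_tr ha
    have ha0κ : a0 ∈ κ := hU.2.1 _ hZ0 _ ha0
    have h6 := h3 _ (G.io_mem.2 ha0κ)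
    rw [← G.temb.ap', ← G.temb.ap', G.temb.sub] at h6
    rw [← G.temb.ap', hgg _ (hap _ hf _ ha0κ)] at h5
    rw [← G.temb.ap', hgg _ (hap _ hg _ ha0κ)]
    exact G.g_sub h5 h6
  · -- one step
    intro s hs X hX
    obtain ⟨f, hf, rfl⟩ := hS s hs
    obtain ⟨nf, rfl⟩ := G.exists_nm X
    obtain ⟨u, hu, f', hf', hff', Z, hZ, h1⟩ := G.meets (fun u => ∃ f' ∈ RR m κ,
      (∀ a ∈ κ, ap f a ⊆ ap f' a) ∧ ∃ Z ∈ U,
      ((∀ a ∈ Z, ∀ w, UCnd m κ w → u ⊆ w → ap f' a ⊆ w →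
        (UP m κ hκ).Fm w ((UP m κ hκ).chk a) nf) ∨
      (∀ a ∈ Z, ∀ w, UCnd m κ w → u ⊆ w → ap f' a ⊆ w →
        ¬ (UP m κ hκ).Fm w ((UP m κ hκ).chk a) nf))) inferInstance (by
      intro r hr
      obtain ⟨u', h1, h2, f', h3, h4, Z, h5, h6⟩ := hdec f hf r (UP_cd.1 hr) nf
      exact ⟨u', UP_le.2 ⟨h1, UP_cd.1 hr, h2⟩, f', h3, h4, Z, h5, h6⟩)
    refine ⟨G.io f', G.io_mem.2 hf', ⟨G.io_mem.2 hf', G.io_mem.2 hf, fun a ha => ?_⟩, ?_⟩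
    · obtain ⟨a0, ha0, rfl⟩ := G.io_tr ha
      rw [← G.temb.ap', ← G.temb.ap', G.temb.sub]
      exact hff' a0 ha0
    rcases h1 with h1 | h1
    · refine Or.inl ⟨G.io Z, G.io_mem.2 hZ, fun a ha h2 => ?_⟩
      obtain ⟨a0, ha0, rfl⟩ := G.io_tr ha
      have ha0κ : a0 ∈ κ := hU.2.1 _ hZ _ ha0
      rw [← G.temb.ap', hgg _ (hap _ hf' _ ha0κ)] at h2
      have h3 := G.g_union hu h2
      exact G.mem_nm.2 ⟨_, h3, h1 a0 ha0 _ (G.ucnd h3) sub_union_left sub_union_right⟩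
    · refine Or.inr ⟨G.io Z, G.io_mem.2 hZ, fun a ha h2 => ?_⟩
      obtain ⟨a0, ha0, rfl⟩ := G.io_tr ha
      have ha0κ : a0 ∈ κ := hU.2.1 _ hZ _ ha0
      refine mem_diff.2 ⟨G.io_mem.2 ha0κ, fun h4 => ?_⟩
      rw [← G.temb.ap', hgg _ (hap _ hf' _ ha0κ)] at h2
      obtain ⟨r, hr, h5⟩ := G.mem_nm.1 h4
      have h3 := G.g_union (G.g_union hu h2) hr
      refine h1 a0 ha0 _ (G.ucnd h3) (Sub.trans sub_union_left sub_union_left)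
        (Sub.trans sub_union_right sub_union_left) (h5.mono ?_)
      exact UP_le.2 ⟨G.ucnd h3, G.ucnd hr, sub_union_right⟩
  · -- lower bounds
    intro δ hδ F hF hd
    obtain ⟨δ0, hδ0, hsm, rfl⟩ := hseg δ hδ
    obtain ⟨F0, hF0, rfl⟩ := G.no_new hm hsm hF
    obtain ⟨s, hs, h1⟩ := exists_lower hκ hm hδ0 hF0 (by
      intro α hα β hβ a ha
      have h2 := (hd _ (G.io_mem.2 hα) _ (G.io_mem.2 hβ)).2.2 _ (G.io_mem.2 ha)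
      rwa [← G.temb.ap', ← G.temb.ap', ← G.temb.ap', ← G.temb.ap', G.temb.sub] at h2)
    refine ⟨G.io s, G.io_mem.2 hs, fun α hα => ?_⟩
    obtain ⟨α0, hα0, rfl⟩ := G.io_tr hα
    refine ⟨G.io_mem.2 hs, ?_, fun a ha => ?_⟩
    · rw [← G.temb.ap']
      exact G.io_mem.2 (hF0.ap_mem hα0)
    · obtain ⟨a0, ha0, rfl⟩ := G.io_tr ha
      rw [← G.temb.ap', ← G.temb.ap', ← G.temb.ap', G.temb.sub]
      exact h1 α0 hα0 a0 ha0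
  · -- the end
    intro δ hδ s hs F hF hFd hFκ hT
    obtain ⟨δ0, hδ0, hsm, rfl⟩ := hseg δ hδ
    obtain ⟨f, hf, rfl⟩ := hS s hs
    have hδo := hmo.sc.mem hδ0
    have hδκ : δ0 ∈ κ := hδo.mem_of_sub_of_mem hκ.isOrd ((hδo.mem_sc_iff hmo).1 hδ0) hm
    obtain ⟨Zs, hZs, hZs'⟩ := exists_choice_rel (G.io δ0) (G.io U)
      (fun β Z => ∀ a ∈ Z, ap (G.io f) a ∈ gg → a ∈ ap F β) hT
    obtain ⟨Z0, hZ0, rfl⟩ := G.no_new hm hsm hZs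
    have h1 : Aa U κ fun a => ∀ β ∈ δ0, a ∈ ap Z0 β := by
      refine (hU.aa_small (χ := fun β a => a ∈ ap Z0 β) hδκ).2 fun β hβ => ?_
      exact hU.up (hZ0.ap_mem hβ) (fun x hx => mem_sep.2 ⟨hU.2.1 _ (hZ0.ap_mem hβ) _ hx, hx⟩)
        fun x hx => (mem_sep.1 hx).1
    refine hreg.card_unbounded (fun x hx => (mem_sep.1 hx).1) fun b hb => ?_
    obtain ⟨b0, hb0, rfl⟩ := G.io_tr hb
    obtain ⟨u, hu, a, ha, hba, hau⟩ := G.meets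
      (fun u => ∃ a ∈ sep κ (fun a => ∀ β ∈ δ0, a ∈ ap Z0 β), b0 ∈ a ∧ ap f a ⊆ u)
      inferInstance (by
        intro r hr
        obtain ⟨a, ha, hba, w, hw, h2, h3⟩ := hend f hf _ h1 b0 hb0 r (UP_cd.1 hr)
        exact ⟨w, UP_le.2 ⟨hw, UP_cd.1 hr, h2⟩, a, ha, hba, h3⟩)
    obtain ⟨haκ, ha⟩ := mem_sep.1 ha
    refine ⟨G.io a, mem_sep.2 ⟨G.io_mem.2 haκ, fun β hβ => ?_⟩,
      (G.temb.isOrd.2 (hκ.isOrd.mem haκ)).sub_of_mem (G.io_mem.2 hba)⟩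
    obtain ⟨β0, hβ0, rfl⟩ := G.io_tr hβ
    refine hZs' _ (G.io_mem.2 hβ0) (G.io a) ?_ ?_
    · rw [← G.temb.ap']
      exact G.io_mem.2 (ha β0 hβ0)
    · rw [← G.temb.ap', hgg _ (hap _ hf _ haκ)]
      exact G.g_sub hu hau

end Gen

end Pool.Agent.IST
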