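import Pool.Agent.UG.Inac

/-!
# Weak compactness from uniform branches: the pure part

If every relation on the inaccessible cardinal `κ` has a branch which is uniform up to fewer than
`κ` many indices then every `κ`-complete algebra of size `κ` has a uniform `κ`-complete
ultrafilter.
-/

set_option synthInstance.maxSize 100000

namespace Pool.Agent.IST

open Pool.Agent.BVM

section

variable {M : Type} [SetModel M]

/-- small sets of indices are bounded -/
theorem IsReg.sub_bdd {κ s : M} (h : IsReg κ) (hs : s ⊆ κ) (hc : card s ∈ κ) :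
    ∃ β ∈ κ, s ⊆ β := h.bdd hc (fun x => x) hs

/-- **weak compactness from uniform branches** -/
theorem WCpt.of_branch {κ : M} (hκ : IsInacc κ)
    (h : ∀ T : M, ∃ z, z ⊆ κ ∧ ∀ β ∈ κ,
      card (sep κ fun a => ∀ i ∈ β, (op i a ∈ T ↔ i ∈ z)) = κ) : WCpt κ := by
  refine ⟨hκ, fun A hA _ hAc => ?_⟩
  have hi := hκ.inf
  have hr := hκ.reg
  -- an enumeration of the algebra
  obtain ⟨e, he⟩ : Eqn κ A := by
    have h1 := eqn_card A
    rw [hAc] at h1
    exact h1.symm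
  obtain ⟨z, hz, hz'⟩ := h (sep (prod κ κ) fun w => p2 w ∈ ap e (p1 w))
  -- the relation
  have hT : ∀ i ∈ κ, ∀ a ∈ κ,
      (op i a ∈ (sep (prod κ κ) fun w => p2 w ∈ ap e (p1 w)) ↔ a ∈ ap e i) := fun i hi' a ha => by
    rw [mem_sep, p1_op, p2_op]
    exact and_iff_right (mem_prod.2 ⟨i, hi', a, ha, rfl⟩)
  -- small sets of indices
  have key : ∀ s, s ⊆ κ → card s ∈ κ → ∃ D, D ⊆ κ ∧ card D = κ ∧
      ∀ a ∈ D, ∀ i ∈ s, (a ∈ ap e i ↔ i ∈ z) := fun s hs hc => by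
    obtain ⟨β, hβ, h1⟩ := hr.sub_bdd hs hc
    refine ⟨_, fun x hx => (mem_sep.1 hx).1, hz' β hβ, fun a ha i his => ?_⟩
    obtain ⟨h2, h3⟩ := mem_sep.1 ha
    rw [← hT i (hs i his) a h2]
    exact h3 i (h1 i his)
  have key1 : ∀ s, s ⊆ κ → card s ∈ κ → ∃ a ∈ κ, ∀ i ∈ s, (a ∈ ap e i ↔ i ∈ z) :=
    fun s hs hc => by
    obtain ⟨D, h1, h2, h3⟩ := key s hs hc
    have h4 : D ≠ ∅ := fun h5 => by
      rw [h5, isCard_empty.card_eq] at h2
      exact hi.ne_empty h2.symm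
    obtain ⟨a, ha⟩ := ne_empty_iff.1 h4
    exact ⟨a, h1 a ha, h3 a ha⟩
  have hAsub : ∀ X ∈ A, X ⊆ κ := fun X hX => hA.sub hX
  -- membership in the ultrafilter
  have hW : ∀ i ∈ κ, (ap e i ∈ (img z fun i => ap e i) ↔ i ∈ z) := fun i hi' => by
    rw [mem_img]
    constructor
    · rintro ⟨j, hj, h1⟩
      rw [he.inj hi' (hz j hj) h1]
      exact hj
    · exact fun h1 => ⟨i, h1, rfl⟩
  refine ⟨img z fun i => ap e i, fun X hX => ?_, fun X hX => ?_, fun X hX Y hY hXY => ?_,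
    fun S hS hne hSc => ?_, fun X hX => ?_⟩
  · obtain ⟨i, hi', rfl⟩ := mem_img.1 hX
    exact he.maps.ap_mem (hz i hi')
  · obtain ⟨i, hi', rfl⟩ := he.surj hX
    obtain ⟨j, hj, h1⟩ := he.surj (hA.2.1 _ hX)
    obtain ⟨a, ha, h2⟩ := key1 (upair i j) (fun x hx => by
      rcases mem_upair.1 hx with rfl | rfl
      · exact hi'
      · exact hj) hκ.card_upair
    have h3 := h2 i (mem_upair.2 (Or.inl rfl))
    have h4 := h2 j (mem_upair.2 (Or.inr rfl))
    rw [h1] at h4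
    rw [← h1, hW j hj, hW i hi', ← h3, ← h4, mem_diff]
    exact ⟨fun h5 => h5.2, fun h5 => ⟨ha, h5⟩⟩
  · obtain ⟨i, hi', rfl⟩ := mem_img.1 hX
    obtain ⟨j, hj, rfl⟩ := he.surj hY
    obtain ⟨a, ha, h2⟩ := key1 (upair i j) (fun x hx => by
      rcases mem_upair.1 hx with rfl | rfl
      · exact hz _ hi'
      · exact hj) hκ.card_upair
    have h3 := h2 i (mem_upair.2 (Or.inl rfl))
    have h4 := h2 j (mem_upair.2 (Or.inr rfl))
    rw [hW j hj]
    exact h4.1 (hXY a (h3.2 hi'))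
  · -- the intersection is in the algebra
    have hSA : S ⊆ A := fun X hX => by
      obtain ⟨i, hi', rfl⟩ := mem_img.1 (hS X hX)
      exact he.maps.ap_mem (hz i hi')
    obtain ⟨X0, hX0⟩ := ne_empty_iff.1 hne
    have h1 : Aa A κ fun x => ∀ X ∈ S, x ∈ X :=
      hA.ball (χ := fun X x => x ∈ X) hSc hκ.isOrd fun X hX => by
        have e1 : sep κ (fun x => x ∈ X) = X := ext fun t => by
          rw [mem_sep]
          exact ⟨fun h => h.2, fun h => ⟨hAsub X (hSA X hX) t h, h⟩⟩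
        unfold Aa
        rw [e1]
        exact hSA X hX
    have e2 : (sep κ fun x => ∀ X ∈ S, x ∈ X) = bigI S := ext fun t => by
      rw [mem_sep, mem_bigI hne]
      exact ⟨fun h => h.2, fun h => ⟨hAsub X0 (hSA X0 hX0) t (h X0 hX0), h⟩⟩
    unfold Aa at h1
    rw [e2] at h1
    obtain ⟨j, hj, h2⟩ := he.surj h1
    -- the indices
    have h3 : card (sep κ fun i => ap e i ∈ S) ∈ κ := by
      refine hκ.card_leq (leq_of (fun i => ap e i) (fun i hi' => (mem_sep.1 hi').2)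
        fun x hx y hy h4 => he.inj (mem_sep.1 hx).1 (mem_sep.1 hy).1 h4) hSc
    obtain ⟨a, ha, h4⟩ := key1 ((sep κ fun i => ap e i ∈ S) ∪ sing j)
      (union_sub (fun x hx => (mem_sep.1 hx).1) fun x hx => (mem_sing.1 hx) ▸ hj)
      (hκ.card_union h3 hκ.card_sing)
    have h5 := h4 j (mem_union.2 (Or.inr (mem_sing.2 rfl)))
    rw [← h2, hW j hj, ← h5, h2, mem_bigI hne]
    intro X hX
    obtain ⟨i, hi', rfl⟩ := mem_img.1 (hS X hX)
    exact (h4 i (mem_union.2 (Or.inl (mem_sep.2 ⟨hz i hi', hX⟩)))).2 hi'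
  · obtain ⟨i, hi', rfl⟩ := mem_img.1 hX
    obtain ⟨D, h1, h2, h3⟩ := key (sing i) (fun x hx => (mem_sing.1 hx) ▸ hz i hi') hκ.card_sing
    have h4 : D ⊆ ap e i := fun a ha => (h3 a ha i (mem_sing.2 rfl)).2 hi'
    have h5 := card_mono h4
    rw [h2] at h5
    have h6 := card_mono (hAsub _ (he.maps.ap_mem (hz i hi')))
    rw [hκ.isCard.card_eq] at h6
    exact Sub.antisymm h6 h5

end

end Pool.Agent.IST
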